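import Pool.Agent.Lib.H32S.Defs

set_option autoImplicit false

open Filter Topology

namespace Pool.Agent.Lib.H32S

/-- The slope of the two moving points tends to `t = (b' - b)/(a' - a)` (`Filter.Tendsto.div`,
affine functions of `ε`), the x coordinates tend to `a ≠ a'`; the intervals `(p.lo, p.hi)` and
`(s - q.hi, s - q.lo)` are fixed and contain `t` in the interior. -/
theorem ev_up_dn (a b a' b' s m M m' M' : ℝ) (p q : Q4) (hx : a ≠ a')
    (h1 : -m < (b' - b) / (a' - a)) (h2 : (b' - b) / (a' - a) < M)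
    (h3 : s - M' < (b' - b) / (a' - a)) (h4 : (b' - b) / (a' - a) < s + m')
    (hp1 : p.lo < -m) (hp2 : M < p.hi) (hq1 : q.lo < -m') (hq2 : M' < q.hi) :
    ∀ᶠ ε in 𝓝[>] (0 : ℝ), NA (up a b ε p) (dn a' b' s ε q) := by
  have hne : a' - a ≠ 0 := sub_ne_zero.2 (Ne.symm hx)
  have hf : Tendsto (fun ε : ℝ => sl (up a b ε p) (dn a' b' s ε q)) (𝓝[>] (0 : ℝ))
      (𝓝 ((b' - b) / (a' - a))) := by
    have h : ContinuousAt (fun ε : ℝ => ((b' + ε * (s * q.x - q.y)) - (b + ε * p.y)) /
        ((a' + ε * q.x) - (a + ε * p.x))) 0 := by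
      refine ContinuousAt.div (by fun_prop) (by fun_prop) ?_
      simpa using hne
    have h5 := h.tendsto
    simp only [zero_mul, add_zero] at h5
    exact h5.mono_left nhdsWithin_le_nhds
  have hxx : ∀ᶠ ε in 𝓝[>] (0 : ℝ), a + ε * p.x ≠ a' + ε * q.x := by
    have h : ContinuousAt (fun ε : ℝ => (a' + ε * q.x) - (a + ε * p.x)) 0 := by fun_prop
    have h5 := h.tendsto
    simp only [zero_mul, add_zero] at h5
    have h6 := (h5.mono_left nhdsWithin_le_nhds : Tendsto _ (𝓝[>] (0 : ℝ)) _).eventually_ne hne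
    filter_upwards [h6] with ε hε h7
    exact hε (by rw [h7, sub_self])
  have e1 := hf.eventually (eventually_gt_nhds (lt_trans hp1 h1))
  have e2 := hf.eventually (eventually_lt_nhds (lt_trans h2 hp2))
  have e3 := hf.eventually (eventually_gt_nhds (show s - q.hi < (b' - b) / (a' - a) by linarith))
  have e4 := hf.eventually (eventually_lt_nhds (show (b' - b) / (a' - a) < s - q.lo by linarith))
  filter_upwards [hxx, e1, e2, e3, e4] with ε g0 g1 g2 g3 g4
  exact ⟨g0, ⟨g1, g2⟩, g3, g4⟩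

end Pool.Agent.Lib.H32S
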