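import Pool.Agent.Lib.H32S.Defs

set_option autoImplicit false

open Filter Topology

namespace Pool.Agent.Lib.H32S

/-- There are finitely many words of length `< d` (`List.finite_length_lt`), so this is
`Set.Finite.eventually_all` / `Filter.eventually_all_finite`. -/
theorem ev_all (d : ℕ) {l : Filter ℝ} {p : ℝ → W → Prop}
    (h : ∀ w : W, w.length < d → ∀ᶠ ε in l, p ε w) :
    ∀ᶠ ε in l, ∀ w : W, w.length < d → p ε w := by
  have hf : {w : W | w.length < d}.Finite := List.finite_length_lt (Fin 3) d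
  exact (Filter.eventually_all_finite hf).mpr h

/-- `ev_all` twice. -/
theorem ev_all2 (d : ℕ) {l : Filter ℝ} {p : ℝ → W → W → Prop}
    (h : ∀ v w : W, v.length < d → w.length < d → ∀ᶠ ε in l, p ε v w) :
    ∀ᶠ ε in l, ∀ v w : W, v.length < d → w.length < d → p ε v w := by
  have h1 : ∀ᶠ ε in l, ∀ v : W, v.length < d → ∀ w : W, w.length < d → p ε v w :=
    ev_all d (fun v hv => ev_all d (fun w hw => h v w hv hw))
  filter_upwards [h1] with ε hε v w hv hw
  exact hε v hv w hw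

/-- a condition holding for all small positive numbers holds for some positive number -/
theorem ev_ex {p : ℝ → Prop} (h : ∀ᶠ ε in 𝓝[>] (0 : ℝ), p ε) : ∃ ε : ℝ, 0 < ε ∧ p ε := by
  obtain ⟨ε, h1, h2⟩ := (h.and self_mem_nhdsWithin).exists
  exact ⟨ε, h2, h1⟩

/-- `Ioo_mem_nhdsGT` -/
theorem ev_lt (δ : ℝ) (hδ : 0 < δ) : ∀ᶠ ε in 𝓝[>] (0 : ℝ), 0 < ε ∧ ε < δ := by
  filter_upwards [Ioo_mem_nhdsGT hδ] with ε hε
  exact ⟨hε.1, hε.2⟩

end Pool.Agent.Lib.H32S
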