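import Pool.Agent.Lib.H32S.Defs

set_option autoImplicit false

open Filter Topology

namespace Pool.Agent.Lib.H32S

/-- The slope tends to `(q.y - b)/(q.x - a)`: the numerator and the denominator are continuous in
`ε` (affine), and the denominator does not vanish at `ε = 0`.  Use `Filter.Tendsto.div` and
`tendsto_nhdsWithin_of_tendsto_nhds` (or `Tendsto.mono_left _ nhdsWithin_le_nhds`). -/
theorem up_tend (a b : ℝ) (p q : Q4) (hx : q.x ≠ a) :
    Tendsto (fun ε : ℝ => sl (up a b ε p) q) (𝓝[>] (0 : ℝ)) (𝓝 ((q.y - b) / (q.x - a))) := by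
  have hc : Continuous (fun ε : ℝ => q.y - (b + ε * p.y)) := by fun_prop
  have hd : Continuous (fun ε : ℝ => q.x - (a + ε * p.x)) := by fun_prop
  have h1 : Tendsto (fun ε : ℝ => q.y - (b + ε * p.y)) (𝓝[>] (0 : ℝ)) (𝓝 (q.y - b)) := by
    have h := (hc.tendsto 0).mono_left (nhdsWithin_le_nhds (s := Set.Ioi (0 : ℝ)))
    simpa using h
  have h2 : Tendsto (fun ε : ℝ => q.x - (a + ε * p.x)) (𝓝[>] (0 : ℝ)) (𝓝 (q.x - a)) := by
    have h := (hd.tendsto 0).mono_left (nhdsWithin_le_nhds (s := Set.Ioi (0 : ℝ)))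
    simpa using h
  exact h1.div h2 (sub_ne_zero.mpr hx)

/-- `up_tend` and `Tendsto.eventually` with the open conditions (`eventually_gt_nhds`,
`eventually_lt_nhds`); `lo`, `hi` of `up a b ε p` are those of `p`. -/
theorem ev_up_In (a b : ℝ) (p q : Q4) (hx : q.x ≠ a) (h : In ((q.y - b) / (q.x - a)) p) :
    ∀ᶠ ε in 𝓝[>] (0 : ℝ), In (sl (up a b ε p) q) (up a b ε p) := by
  have ht := up_tend a b p q hx
  have h1 := ht.eventually (eventually_gt_nhds h.1)
  have h2 := ht.eventually (eventually_lt_nhds h.2)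
  filter_upwards [h1, h2] with ε g1 g2
  exact ⟨g1, g2⟩

theorem ev_up_Ou (a b : ℝ) (p q : Q4) (hx : q.x ≠ a) (h : Ou ((q.y - b) / (q.x - a)) p) :
    ∀ᶠ ε in 𝓝[>] (0 : ℝ), Ou (sl (up a b ε p) q) (up a b ε p) := by
  have ht := up_tend a b p q hx
  rcases h with h | h
  · filter_upwards [ht.eventually (eventually_lt_nhds h)] with ε g1
    exact Or.inl g1
  · filter_upwards [ht.eventually (eventually_gt_nhds h)] with ε g1
    exact Or.inr g1

theorem ev_up_ne (a b : ℝ) (p q : Q4) (hx : q.x ≠ a) :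
    ∀ᶠ ε in 𝓝[>] (0 : ℝ), (up a b ε p).x ≠ q.x := by
  have hd : Continuous (fun ε : ℝ => a + ε * p.x) := by fun_prop
  have h1 : Tendsto (fun ε : ℝ => a + ε * p.x) (𝓝[>] (0 : ℝ)) (𝓝 a) := by
    have h := (hd.tendsto 0).mono_left (nhdsWithin_le_nhds (s := Set.Ioi (0 : ℝ)))
    simpa using h
  exact h1.eventually_ne (Ne.symm hx)

theorem ev_up_NA (a b : ℝ) (p q : Q4) (hx : q.x ≠ a) (h : In ((q.y - b) / (q.x - a)) p)
    (h' : In ((q.y - b) / (q.x - a)) q) :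
    ∀ᶠ ε in 𝓝[>] (0 : ℝ), NA (up a b ε p) q := by
  have ht := up_tend a b p q hx
  filter_upwards [ev_up_ne a b p q hx, ev_up_In a b p q hx h,
    ht.eventually (eventually_gt_nhds h'.1), ht.eventually (eventually_lt_nhds h'.2)]
    with ε g1 g2 g3 g4
  exact ⟨g1, g2, g3, g4⟩

theorem ev_up_AD (a b : ℝ) (p q : Q4) (hx : q.x ≠ a) (h : Ou ((q.y - b) / (q.x - a)) p) :
    ∀ᶠ ε in 𝓝[>] (0 : ℝ), AD (up a b ε p) q := by
  filter_upwards [ev_up_ne a b p q hx, ev_up_Ou a b p q hx h] with ε g1 g2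
  exact ⟨g1, Or.inl g2⟩

/-- From `ev_up_NA`. -/
theorem ev_up_Sup (a b m M : ℝ) (p q : Q4) (h : Sup a b m M q) (h1 : p.lo < -m) (h2 : M < p.hi) :
    ∀ᶠ ε in 𝓝[>] (0 : ℝ), NA (up a b ε p) q := by
  exact ev_up_NA a b p q h.1 ⟨lt_trans h1 h.2.1, lt_trans h.2.2.1 h2⟩ h.2.2.2

/-- coordinates of a small copy are near `a`, `b` -/
theorem ev_up_near (a b δ : ℝ) (hδ : 0 < δ) (p : Q4) :
    ∀ᶠ ε in 𝓝[>] (0 : ℝ), a - δ < (up a b ε p).x ∧ (up a b ε p).x < a + δ ∧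
      b - δ < (up a b ε p).y ∧ (up a b ε p).y < b + δ := by
  have hc1 : Continuous (fun ε : ℝ => a + ε * p.x) := by fun_prop
  have hc2 : Continuous (fun ε : ℝ => b + ε * p.y) := by fun_prop
  have t1 : Tendsto (fun ε : ℝ => a + ε * p.x) (𝓝[>] (0 : ℝ)) (𝓝 a) := by
    have h := (hc1.tendsto 0).mono_left (nhdsWithin_le_nhds (s := Set.Ioi (0 : ℝ)))
    simpa using h
  have t2 : Tendsto (fun ε : ℝ => b + ε * p.y) (𝓝[>] (0 : ℝ)) (𝓝 b) := by
    have h := (hc2.tendsto 0).mono_left (nhdsWithin_le_nhds (s := Set.Ioi (0 : ℝ)))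
    simpa using h
  filter_upwards [t1.eventually (eventually_gt_nhds (sub_lt_self a hδ)),
    t1.eventually (eventually_lt_nhds (lt_add_of_pos_right a hδ)),
    t2.eventually (eventually_gt_nhds (sub_lt_self b hδ)),
    t2.eventually (eventually_lt_nhds (lt_add_of_pos_right b hδ))] with ε g1 g2 g3 g4
  exact ⟨g1, g2, g3, g4⟩

end Pool.Agent.Lib.H32S
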