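import Pool.Agent.Lib.H32S.B1
import Pool.Agent.Lib.H32S.B4

set_option autoImplicit false

open Filter Topology

namespace Pool.Agent.Lib.H32S

/-- `q = ⟨ξ, hm, -h/4, Λ⟩`: the slope from `(-1/4, 0)` to `q` is `SA = hm/(ξ + 1/4)`
(`q.x - a = ξ + 1/4`).  `j ∉ w`: `p.hi < SA` (first corner of `hp`): `ev_up_AD`.  `j ∈ w`:
`p.lo < 0 < SA < p.hi` and `-h/4 < 0 < SA < Λ`: `ev_up_NA`.  (Then `AD_symm`, `NA_symm`.) -/
theorem s3_A_u (K ξ h hm Λ : ℝ) (i j k : Fin 3) (w : W) (p : Q4) (hK : 1 ≤ K)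
    (hξ : 0 < ξ) (hm0 : 0 < hm) (hh : 2 * hm ≤ h) (hΛ : hm / (ξ + 1 / 4) < Λ)
    (hp : C2 j i k (hm / (ξ + 1 / 4)) (4 * h / 3) (4 * h / 3 / K) (hm / (ξ + 1 / 4) / K) w p) :
    ∀ᶠ ε in 𝓝[>] (0 : ℝ), (j ∉ w → AD ⟨ξ, hm, -h / 4, Λ⟩ (up (-(1 / 4)) 0 ε p)) ∧
      (j ∈ w → NA ⟨ξ, hm, -h / 4, Λ⟩ (up (-(1 / 4)) 0 ε p)) := by
  have h4 : 0 < ξ + 1 / 4 := by linarith
  have hS : 0 < hm / (ξ + 1 / 4) := div_pos hm0 h4
  have hh0 : 0 < h := by linarith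
  have e : (hm - 0) / (ξ - -(1 / 4)) = hm / (ξ + 1 / 4) := by
    rw [sub_zero, sub_neg_eq_add]
  have hx : (⟨ξ, hm, -h / 4, Λ⟩ : Q4).x ≠ -(1 / 4) := by
    show ξ ≠ -(1 / 4)
    intro h1
    linarith
  have hlo : p.lo < 0 := by
    have h1 := hp.lo_lt
    have h2 : 0 < 4 * h / 3 / K := by positivity
    linarith
  by_cases hj : j ∈ w
  · have h1 : ∀ᶠ ε in 𝓝[>] (0 : ℝ), NA (up (-(1 / 4)) 0 ε p) ⟨ξ, hm, -h / 4, Λ⟩ := by
      refine ev_up_NA _ _ _ _ hx ?_ ?_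
      · show In ((hm - 0) / (ξ - -(1 / 4))) p
        rw [e]
        exact ⟨hlo.trans hS, hp.i_in hj⟩
      · show In ((hm - 0) / (ξ - -(1 / 4))) ⟨ξ, hm, -h / 4, Λ⟩
        rw [e]
        refine ⟨?_, hΛ⟩
        show -h / 4 < hm / (ξ + 1 / 4)
        linarith
    filter_upwards [h1] with ε h2
    exact ⟨fun h3 => absurd hj h3, fun _ => NA_symm h2⟩
  · have h1 : ∀ᶠ ε in 𝓝[>] (0 : ℝ), AD (up (-(1 / 4)) 0 ε p) ⟨ξ, hm, -h / 4, Λ⟩ := by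
      refine ev_up_AD _ _ _ _ hx ?_
      show Ou ((hm - 0) / (ξ - -(1 / 4))) p
      rw [e]
      exact Or.inr (hp.i_out hj)
    filter_upwards [h1] with ε h2
    exact ⟨fun _ => AD_symm h2, fun h3 => absurd h3 hj⟩

/-- Fields for small `ε`.  `lo`, `hi` are those of `p`; `x` near `-1/4`, `y` near `0` (`ev_up_near`
with `δ = min (1/8) ...`), so `-1 < x`, `y ≤ hm`, `-2c < y`, and for `j_in`: `-c < y < η`.
`i_out`, `i_in`: the slope to `(-1, h)` tends to `(h - 0)/(-1 + 1/4) = -(4h/3)`; `i ∉ w` gives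
`-(4h/3) < p.lo` (`ev_up_Ou`), `i ∈ w` gives `p.lo < -(4h/3) < 0 < p.hi` (`ev_up_In`).
`k_out`, `k_in`: `y = 0 + ε p.y`.  `j_out` does not occur. -/
theorem s3_A_C3 (K ξ h hm H c η : ℝ) (i j k : Fin 3) (hij : i ≠ j) (hik : i ≠ k) (hjk : j ≠ k)
    (w : W) (p : Q4) (hK : 1 ≤ K)
    (hξ : 0 < ξ) (hm0 : 0 < hm) (hc : 0 < c) (hη : 0 < η) (hh : 2 * hm ≤ h)
    (hp : C2 j i k (hm / (ξ + 1 / 4)) (4 * h / 3) (4 * h / 3 / K) (hm / (ξ + 1 / 4) / K) w p) :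
    ∀ᶠ ε in 𝓝[>] (0 : ℝ), C3 i j k h hm H c η (j :: w) (up (-(1 / 4)) 0 ε p) := by
  have h4 : 0 < ξ + 1 / 4 := by linarith
  have hS : 0 < hm / (ξ + 1 / 4) := div_pos hm0 h4
  have hh0 : 0 < h := by linarith
  have hlo : p.lo < 0 := by
    have h1 := hp.lo_lt
    have h2 : 0 < 4 * h / 3 / K := by positivity
    linarith
  have hhi : 0 < p.hi := by
    have h1 := hp.lt_hi
    have h2 : 0 < hm / (ξ + 1 / 4) / K := by positivity
    linarith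
  have e : (h - 0) / (-1 - -(1 / 4)) = -(4 * h / 3) := by
    norm_num
    ring
  have hx : (⟨-1, h, 0, 0⟩ : Q4).x ≠ -(1 / 4) := by
    show (-1 : ℝ) ≠ -(1 / 4)
    norm_num
  have hout : i ∉ w → ∀ᶠ ε in 𝓝[>] (0 : ℝ), Ou (sl (up (-(1 / 4)) 0 ε p) ⟨-1, h, 0, 0⟩) (up (-(1 / 4)) 0 ε p) := by
    intro hi
    refine ev_up_Ou _ _ _ _ hx ?_
    show Ou ((h - 0) / (-1 - -(1 / 4))) p
    rw [e]
    exact Or.inl (hp.j_out hi)
  have hin : i ∈ w → ∀ᶠ ε in 𝓝[>] (0 : ℝ), In (sl (up (-(1 / 4)) 0 ε p) ⟨-1, h, 0, 0⟩) (up (-(1 / 4)) 0 ε p) := by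
    intro hi
    refine ev_up_In _ _ _ _ hx ?_
    show In ((h - 0) / (-1 - -(1 / 4))) p
    rw [e]
    refine ⟨hp.j_in hi, ?_⟩
    linarith
  have hδ : 0 < min (1 / 8) (min c (min η hm)) := by positivity
  have hboth : ∀ᶠ ε in 𝓝[>] (0 : ℝ), (i ∉ w → Ou (sl (up (-(1 / 4)) 0 ε p) ⟨-1, h, 0, 0⟩) (up (-(1 / 4)) 0 ε p)) ∧
      (i ∈ w → In (sl (up (-(1 / 4)) 0 ε p) ⟨-1, h, 0, 0⟩) (up (-(1 / 4)) 0 ε p)) := by
    by_cases hi : i ∈ w
    · filter_upwards [hin hi] with ε h1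
      exact ⟨fun h2 => absurd hi h2, fun _ => h1⟩
    · filter_upwards [hout hi] with ε h1
      exact ⟨fun _ => h1, fun h2 => absurd h2 hi⟩
  filter_upwards [hboth, ev_up_near (-(1 / 4)) 0 _ hδ p, self_mem_nhdsWithin] with ε hb hn hε
  have hε0 : 0 < ε := hε
  obtain ⟨n1, n2, n3, n4⟩ := hn
  have m1 : min (1 / 8) (min c (min η hm)) ≤ 1 / 8 := min_le_left _ _
  have m2 : min (1 / 8) (min c (min η hm)) ≤ c := (min_le_right _ _).trans (min_le_left _ _)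
  have m3 : min (1 / 8) (min c (min η hm)) ≤ η := (min_le_right _ _).trans ((min_le_right _ _).trans (min_le_left _ _))
  have m4 : min (1 / 8) (min c (min η hm)) ≤ hm := (min_le_right _ _).trans ((min_le_right _ _).trans (min_le_right _ _))
  refine ⟨hlo, hhi, by linarith, by linarith, by linarith, fun h1 => ?_, fun h1 => ?_, fun h1 => ?_, fun h1 => ?_,
    fun h1 => ?_, fun _ => ⟨by linarith, by linarith⟩⟩
  · exact hb.1 fun h2 => h1 (List.mem_cons_of_mem _ h2)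
  · rcases List.mem_cons.1 h1 with h2 | h2
    · exact absurd h2 hij
    · exact hb.2 h2
  · have h2 := hp.k_out fun h2 => h1 (List.mem_cons_of_mem _ h2)
    show 0 < 0 + ε * p.y
    have := mul_pos hε0 h2
    linarith
  · rcases List.mem_cons.1 h1 with h2 | h2
    · exact absurd h2 hjk.symm
    · have h3 := hp.k_in h2
      show 0 + ε * p.y < 0
      have := mul_neg_of_pos_of_neg hε0 h3
      linarith
  · exact absurd List.mem_cons_self h1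

end Pool.Agent.Lib.H32S
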