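import Pool.Agent.Lib.H32S.Defs

set_option autoImplicit false

open Filter Topology

namespace Pool.Agent.Lib.H32S

theorem b5_aff (u v : ℝ) : Tendsto (fun ε : ℝ => u + ε * v) (𝓝[>] (0 : ℝ)) (𝓝 u) := by
  have h1 : Continuous fun ε : ℝ => u + ε * v := by fun_prop
  have h2 := h1.tendsto 0
  simp only [zero_mul, add_zero] at h2
  exact h2.mono_left nhdsWithin_le_nhds

/-- As `up_tend` in file B4: the slope tends to `(q.y - b)/(q.x - a)`: the numerator and the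
denominator are continuous in `ε`, and the denominator does not vanish at `ε = 0`. -/
theorem dn_tend (a b s : ℝ) (p q : Q4) (hx : q.x ≠ a) :
    Tendsto (fun ε : ℝ => sl (dn a b s ε p) q) (𝓝[>] (0 : ℝ)) (𝓝 ((q.y - b) / (q.x - a))) := by
  have h1 : Tendsto (fun ε : ℝ => q.y - (b + ε * (s * p.x - p.y))) (𝓝[>] (0 : ℝ)) (𝓝 (q.y - b)) :=
    tendsto_const_nhds.sub (b5_aff _ _)
  have h2 : Tendsto (fun ε : ℝ => q.x - (a + ε * p.x)) (𝓝[>] (0 : ℝ)) (𝓝 (q.x - a)) :=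
    tendsto_const_nhds.sub (b5_aff _ _)
  exact h1.div h2 (sub_ne_zero.2 hx)

/-- `In t ⟨_, _, s - hi, s - lo⟩` is an open condition on `t`. -/
theorem ev_dn_In (a b s : ℝ) (p q : Q4) (hx : q.x ≠ a)
    (h1 : s - p.hi < (q.y - b) / (q.x - a)) (h2 : (q.y - b) / (q.x - a) < s - p.lo) :
    ∀ᶠ ε in 𝓝[>] (0 : ℝ), In (sl (dn a b s ε p) q) (dn a b s ε p) := by
  have ht := dn_tend a b s p q hx
  filter_upwards [ht.eventually (eventually_gt_nhds h1), ht.eventually (eventually_lt_nhds h2)] with ε e1 e2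
  exact ⟨e1, e2⟩

theorem ev_dn_Ou (a b s : ℝ) (p q : Q4) (hx : q.x ≠ a)
    (h : (q.y - b) / (q.x - a) < s - p.hi ∨ s - p.lo < (q.y - b) / (q.x - a)) :
    ∀ᶠ ε in 𝓝[>] (0 : ℝ), Ou (sl (dn a b s ε p) q) (dn a b s ε p) := by
  have ht := dn_tend a b s p q hx
  rcases h with h | h
  · filter_upwards [ht.eventually (eventually_lt_nhds h)] with ε e1
    exact Or.inl e1
  · filter_upwards [ht.eventually (eventually_gt_nhds h)] with ε e1
    exact Or.inr e1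

theorem ev_dn_ne (a b s : ℝ) (p q : Q4) (hx : q.x ≠ a) :
    ∀ᶠ ε in 𝓝[>] (0 : ℝ), (dn a b s ε p).x ≠ q.x := by
  exact (b5_aff a p.x).eventually_ne hx.symm

theorem ev_dn_NA (a b s : ℝ) (p q : Q4) (hx : q.x ≠ a)
    (h1 : s - p.hi < (q.y - b) / (q.x - a)) (h2 : (q.y - b) / (q.x - a) < s - p.lo)
    (h' : In ((q.y - b) / (q.x - a)) q) :
    ∀ᶠ ε in 𝓝[>] (0 : ℝ), NA (dn a b s ε p) q := by
  have ht := dn_tend a b s p q hx
  filter_upwards [ev_dn_ne a b s p q hx, ev_dn_In a b s p q hx h1 h2,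
    ht.eventually (eventually_gt_nhds h'.1), ht.eventually (eventually_lt_nhds h'.2)] with ε e1 e2 e3 e4
  exact ⟨e1, e2, e3, e4⟩

theorem ev_dn_AD (a b s : ℝ) (p q : Q4) (hx : q.x ≠ a)
    (h : (q.y - b) / (q.x - a) < s - p.hi ∨ s - p.lo < (q.y - b) / (q.x - a)) :
    ∀ᶠ ε in 𝓝[>] (0 : ℝ), AD (dn a b s ε p) q := by
  filter_upwards [ev_dn_ne a b s p q hx, ev_dn_Ou a b s p q hx h] with ε e1 e2
  exact ⟨e1, Or.inl e2⟩

/-- From `ev_dn_NA`. -/
theorem ev_dn_Sdn (a b s m M : ℝ) (p q : Q4) (h : Sdn a b s m M q) (h1 : p.lo < -m)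
    (h2 : M < p.hi) : ∀ᶠ ε in 𝓝[>] (0 : ℝ), NA (dn a b s ε p) q := by
  obtain ⟨g1, g2, g3, g4⟩ := h
  exact ev_dn_NA a b s p q g1 (by linarith) (by linarith) g4

theorem ev_dn_near (a b s δ : ℝ) (hδ : 0 < δ) (p : Q4) :
    ∀ᶠ ε in 𝓝[>] (0 : ℝ), a - δ < (dn a b s ε p).x ∧ (dn a b s ε p).x < a + δ ∧
      b - δ < (dn a b s ε p).y ∧ (dn a b s ε p).y < b + δ := by
  have hx := b5_aff a p.x
  have hy := b5_aff b (s * p.x - p.y)
  filter_upwards [hx.eventually (eventually_gt_nhds (show a - δ < a by linarith)),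
    hx.eventually (eventually_lt_nhds (show a < a + δ by linarith)),
    hy.eventually (eventually_gt_nhds (show b - δ < b by linarith)),
    hy.eventually (eventually_lt_nhds (show b < b + δ by linarith))] with ε e1 e2 e3 e4
  exact ⟨e1, e2, e3, e4⟩

end Pool.Agent.Lib.H32S
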