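import Pool.Agent.Lib.H32S.B1
import Pool.Agent.Lib.H32S.B5

set_option autoImplicit false

open Filter Topology

namespace Pool.Agent.Lib.H32S

/-- `q = ⟨ξ, hm, -h/4, Λ⟩`: the slope from `(-1/8, -c)` to `q` is `QB = (hm + c)/(ξ + 1/8)`; the
interval of `dn (-(1/8)) (-c) 0 ε p` is `(0 - p.hi, 0 - p.lo)`.  `k ∉ w`: `-QB < p.lo` (second corner
of `hp`), so `0 - p.lo < QB`: `ev_dn_AD`.  `k ∈ w`: `p.lo < -QB`, `0 - p.hi < 0 < QB < 0 - p.lo` and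
`-h/4 < 0 < QB < Λ`: `ev_dn_NA`.  (Then `AD_symm`, `NA_symm`.) -/
theorem s3_B_u (K ξ h hm c Λ : ℝ) (i j k : Fin 3) (w : W) (p : Q4) (hK : 1 ≤ K)
    (hξ : 0 < ξ) (hm0 : 0 < hm) (hc : 0 < c) (hh : 2 * hm ≤ h) (hΛ : (hm + c) / (ξ + 1 / 8) < Λ)
    (hp : C2 i k j (8 * (h + c) / 7) ((hm + c) / (ξ + 1 / 8)) ((hm + c) / (ξ + 1 / 8) / K)
      (8 * (h + c) / 7 / K) w p) :
    ∀ᶠ ε in 𝓝[>] (0 : ℝ), (k ∉ w → AD ⟨ξ, hm, -h / 4, Λ⟩ (dn (-(1 / 8)) (-c) 0 ε p)) ∧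
      (k ∈ w → NA ⟨ξ, hm, -h / 4, Λ⟩ (dn (-(1 / 8)) (-c) 0 ε p)) := by
  have hK0 : 0 < K := by linarith
  have hQ : 0 < (hm + c) / (ξ + 1 / 8) := div_pos (by linarith) (by linarith)
  have hS : 0 < 8 * (h + c) / 7 := by
    have : 0 < h + c := by linarith
    positivity
  have hM : 0 < 8 * (h + c) / 7 / K := div_pos hS hK0
  have hx : (⟨ξ, hm, -h / 4, Λ⟩ : Q4).x ≠ -(1 / 8) := by
    have h1 : -(1 / 8) < ξ := by linarith
    exact ne_of_gt h1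
  have he : ((⟨ξ, hm, -h / 4, Λ⟩ : Q4).y - -c) / ((⟨ξ, hm, -h / 4, Λ⟩ : Q4).x - -(1 / 8)) =
      (hm + c) / (ξ + 1 / 8) := by
    simp only [sub_neg_eq_add]
  have hhi : 0 < p.hi := hM.trans hp.lt_hi
  by_cases hk : k ∈ w
  · have h1 := ev_dn_NA (-(1 / 8)) (-c) 0 p ⟨ξ, hm, -h / 4, Λ⟩ hx
      (by rw [he]; linarith) (by rw [he]; have := hp.j_in hk; linarith)
      (by
        rw [he]
        refine ⟨?_, hΛ⟩
        have h2 : -h / 4 < 0 := by linarith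
        exact h2.trans hQ)
    filter_upwards [h1] with ε e1
    exact ⟨fun h => absurd hk h, fun _ => NA_symm e1⟩
  · have h1 := ev_dn_AD (-(1 / 8)) (-c) 0 p ⟨ξ, hm, -h / 4, Λ⟩ hx
      (Or.inr (by rw [he]; have := hp.j_out hk; linarith))
    filter_upwards [h1] with ε e1
    exact ⟨fun _ => AD_symm e1, fun h => absurd h hk⟩

/-- Fields for small `ε`.  The interval is `(0 - p.hi, 0 - p.lo)`, `x` is near `-1/8`, `y` is
`-c + ε (0 * p.x - p.y)`, near `-c` (`ev_dn_near`).  `lo_neg`: `p.hi > 0`; `hi_pos`: `p.lo < 0`;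
`i_out`, `i_in`: the slope to `(-1, h)` tends to `(h + c)/(-1 + 1/8) = -(8 (h + c)/7)`; `i ∉ w` gives
`p.hi < 8(h+c)/7` (first corner), so the slope is `< 0 - p.hi` (`ev_dn_Ou`); `i ∈ w` gives
`8(h+c)/7 < p.hi` and `p.lo < 0` (`ev_dn_In`).  `k_out` does not occur, `k_in`: `y < 0`.
`j_out`: `j ∉ w` gives `0 < p.y` (third corner), so `y < -c`; `j_in`: `p.y < 0`, so `-c < y`, and
`y < η` for small `ε`. -/
theorem s3_B_C3 (K ξ h hm H c η : ℝ) (i j k : Fin 3) (hij : i ≠ j) (hik : i ≠ k) (hjk : j ≠ k)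
    (w : W) (p : Q4) (hK : 1 ≤ K)
    (hξ : 0 < ξ) (hm0 : 0 < hm) (hc : 0 < c) (hη : 0 < η) (hh : 2 * hm ≤ h)
    (hp : C2 i k j (8 * (h + c) / 7) ((hm + c) / (ξ + 1 / 8)) ((hm + c) / (ξ + 1 / 8) / K)
      (8 * (h + c) / 7 / K) w p) :
    ∀ᶠ ε in 𝓝[>] (0 : ℝ), C3 i j k h hm H c η (k :: w) (dn (-(1 / 8)) (-c) 0 ε p) := by
  have hK0 : 0 < K := by linarith
  have hQ : 0 < (hm + c) / (ξ + 1 / 8) := div_pos (by linarith) (by linarith)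
  have hS : 0 < 8 * (h + c) / 7 := by
    have : 0 < h + c := by linarith
    positivity
  have hM : 0 < 8 * (h + c) / 7 / K := div_pos hS hK0
  have hm1 : 0 < (hm + c) / (ξ + 1 / 8) / K := div_pos hQ hK0
  have hhi : 0 < p.hi := hM.trans hp.lt_hi
  have hlo : p.lo < 0 := by have := hp.lo_lt; linarith
  have hx : (⟨-1, h, 0, 0⟩ : Q4).x ≠ -(1 / 8) := by
    change (-1 : ℝ) ≠ -(1 / 8)
    norm_num
  have he : ((⟨-1, h, 0, 0⟩ : Q4).y - -c) / ((⟨-1, h, 0, 0⟩ : Q4).x - -(1 / 8)) = -(8 * (h + c) / 7) := by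
    change (h - -c) / (-1 - -(1 / 8)) = -(8 * (h + c) / 7)
    rw [div_eq_iff (by norm_num)]
    ring
  have e1 := ev_dn_near (-(1 / 8)) (-c) 0 (1 / 2) (by norm_num) p
  have e2 := ev_dn_near (-(1 / 8)) (-c) 0 c hc p
  have e3 : ∀ᶠ ε in 𝓝[>] (0 : ℝ), (i ∉ k :: w → Ou (sl (dn (-(1 / 8)) (-c) 0 ε p) ⟨-1, h, 0, 0⟩) (dn (-(1 / 8)) (-c) 0 ε p)) ∧
      (i ∈ k :: w → In (sl (dn (-(1 / 8)) (-c) 0 ε p) ⟨-1, h, 0, 0⟩) (dn (-(1 / 8)) (-c) 0 ε p)) := by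
    by_cases hi : i ∈ w
    · have h1 := ev_dn_In (-(1 / 8)) (-c) 0 p ⟨-1, h, 0, 0⟩ hx
        (by rw [he]; have := hp.i_in hi; linarith) (by rw [he]; linarith)
      filter_upwards [h1] with ε e
      exact ⟨fun h => absurd (List.mem_cons_of_mem k hi) h, fun _ => e⟩
    · have h1 := ev_dn_Ou (-(1 / 8)) (-c) 0 p ⟨-1, h, 0, 0⟩ hx
        (Or.inl (by rw [he]; have := hp.i_out hi; linarith))
      filter_upwards [h1] with ε e
      exact ⟨fun _ => e, fun h => absurd ((List.mem_cons.1 h).resolve_left hik) hi⟩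
  filter_upwards [e1, e2, e3, self_mem_nhdsWithin] with ε e1 e2 e3 e4
  have e4' : 0 < ε := e4
  have hy : (dn (-(1 / 8)) (-c) 0 ε p).y = -c - ε * p.y := by
    change -c + ε * (0 * p.x - p.y) = -c - ε * p.y
    ring
  refine ⟨?_, ?_, ?_, ?_, ?_, e3.1, e3.2, ?_, ?_, ?_, ?_⟩
  · change 0 - p.hi < 0
    linarith
  · change 0 < 0 - p.lo
    linarith
  · linarith [e1.1]
  · linarith [e2.2.2.2]
  · linarith [e2.2.2.1]
  · intro hk
    exact absurd (List.mem_cons_self) hk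
  · intro _
    linarith [e2.2.2.2]
  · intro hj
    left
    have h1 : 0 < p.y := hp.k_out fun h => hj (List.mem_cons_of_mem k h)
    rw [hy]
    have := mul_pos e4' h1
    linarith
  · intro hj
    have h1 : p.y < 0 := hp.k_in ((List.mem_cons.1 hj).resolve_left hjk)
    have h2 := mul_neg_of_pos_of_neg e4' h1
    refine ⟨?_, ?_⟩
    · rw [hy]
      linarith
    · linarith [e2.2.2.2]

end Pool.Agent.Lib.H32S
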