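import Pool.Agent.Lib.H32S.B8

set_option autoImplicit false

open Filter Topology

namespace Pool.Agent.Lib.H32S

/-- `ev_sm_Sup` with `z = 0`, `a = -(1/4)`, `b = 0`: the limit slope is `(p.y - 0)/(0 + 1/4) = 4 p.y`.
`4 p.y ≤ hm/(2K) < 2 hm/K`; `4 p.y > -8 c` and `8 c ≤ 4h/(3K)` because
`h ≥ 2 hm ≥ 16 K H ≥ 16 K c`. -/
theorem s3_site_A (K h hm H c η : ℝ) (i j k : Fin 3) (w : W) (p : Q4) (hK : 1 ≤ K) (hH : 0 < H)
    (hc : 0 < c) (hcH : c ≤ H) (hη : 0 < η) (hHm : 8 * K * H ≤ hm) (hh : 2 * hm ≤ h)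
    (hp : C3 i j k hm (hm / (8 * K)) H c η w p) :
    ∀ᶠ ξ in 𝓝[>] (0 : ℝ), Sup (-(1 / 4)) 0 (4 * h / (3 * K)) (2 * hm / K) (sm 0 ξ p) := by
  have hK0 : 0 < K := lt_of_lt_of_le one_pos hK
  have hKc : K * c ≤ K * H := mul_le_mul_of_nonneg_left hcH hK0.le
  have hKc0 : 0 < K * c := mul_pos hK0 hc
  have hy1 := hp.y_le
  have hy2 := hp.y_gt
  have e1 : hm / (8 * K) = hm / K / 8 := by
    rw [mul_comm 8 K, div_mul_eq_div_div]
  have e2 : 2 * hm / K = 2 * (hm / K) := by rw [mul_div_assoc]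
  have e3 : (p.y - 0) / (0 - -(1 / 4)) = 4 * p.y := by
    rw [sub_zero, zero_sub, neg_neg, div_div_eq_mul_div, div_one, mul_comm]
  have hr : 0 < hm / K := div_pos (by linarith) hK0
  have h5 : 8 * c ≤ 4 * h / (3 * K) := by
    rw [le_div_iff₀ (by linarith)]
    linarith
  refine ev_sm_Sup 0 (-(1 / 4)) 0 (4 * h / (3 * K)) (2 * hm / K) p (by norm_num) hp.lo_neg hp.hi_pos ?_ ?_
  · rw [e3]
    linarith
  · rw [e3, e2]
    rw [e1] at hy1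
    linarith

/-- `ev_sm_Sdn` with `z = 0`, `a = -(1/8)`, `b = -c`, `s = 0`: the limit slope is
`(p.y + c)/(1/8) = 8 (p.y + c)`.  Lower bound: `8 (p.y + c) > -8 c > -8 (h + c)/(7K)` because
`7 K c < h + c` (`h ≥ 16 K c`).  Upper bound: `8 (p.y + c) ≤ hm/K + 8 c < 4 (hm + c)/K`, because
`8 K c ≤ hm`, i.e. `8 c ≤ hm/K`. -/
theorem s3_site_B (K h hm H c η : ℝ) (i j k : Fin 3) (w : W) (p : Q4) (hK : 1 ≤ K) (hH : 0 < H)
    (hc : 0 < c) (hcH : c ≤ H) (hη : 0 < η) (hHm : 8 * K * H ≤ hm) (hh : 2 * hm ≤ h)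
    (hp : C3 i j k hm (hm / (8 * K)) H c η w p) :
    ∀ᶠ ξ in 𝓝[>] (0 : ℝ), Sdn (-(1 / 8)) (-c) 0 (4 * (hm + c) / K) (8 * (h + c) / (7 * K))
      (sm 0 ξ p) := by
  have hK0 : 0 < K := lt_of_lt_of_le one_pos hK
  have hKc : K * c ≤ K * H := mul_le_mul_of_nonneg_left hcH hK0.le
  have hKc0 : 0 < K * c := mul_pos hK0 hc
  have hy1 := hp.y_le
  have hy2 := hp.y_gt
  have e1 : hm / (8 * K) = hm / K / 8 := by
    rw [mul_comm 8 K, div_mul_eq_div_div]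
  have e2 : 4 * (hm + c) / K = 4 * (hm / K) + 4 * (c / K) := by
    rw [mul_div_assoc, add_div, mul_add]
  have e3 : (p.y - -c) / (0 - -(1 / 8)) = 8 * (p.y + c) := by
    rw [sub_neg_eq_add, zero_sub, neg_neg, div_div_eq_mul_div, div_one, mul_comm]
  have hr : 0 < hm / K := div_pos (by linarith) hK0
  have hr2 : 0 < c / K := div_pos hc hK0
  have h5 : 8 * c ≤ 8 * (h + c) / (7 * K) := by
    rw [le_div_iff₀ (by linarith)]
    linarith
  have h6 : 8 * c ≤ hm / K := by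
    rw [le_div_iff₀ hK0]
    linarith
  refine ev_sm_Sdn 0 (-(1 / 8)) (-c) 0 (4 * (hm + c) / K) (8 * (h + c) / (7 * K)) p (by norm_num)
    hp.lo_neg hp.hi_pos ?_ ?_
  · rw [e3]
    linarith
  · rw [e3, e2]
    rw [e1] at hy1
    linarith

/-- For small `ξ > 0` (also use `self_mem_nhdsWithin` for `0 < ξ`): `lo`, `hi` of `sm 0 ξ p` are
`-(p.hi/ξ) < 0`, `-(p.lo/ξ) > 0`; `x` is near `0` (`ev_sm_near`); `y` is `p.y`, at most
`hm/(8K) ≤ hm`; `i_out` does not occur; `i_in` is `ev_sm_In` with `q = ⟨-1, h, 0, 0⟩`; the other fields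
are those of `hp`, as `j`, `k` are in `i :: w` iff they are in `w`. -/
theorem s3_strip_C3 (K h hm H c η : ℝ) (i j k : Fin 3) (hij : i ≠ j) (hik : i ≠ k) (w : W)
    (p : Q4) (hK : 1 ≤ K) (hH : 0 < H)
    (hc : 0 < c) (hcH : c ≤ H) (hη : 0 < η) (hHm : 8 * K * H ≤ hm) (hh : 2 * hm ≤ h)
    (hp : C3 i j k hm (hm / (8 * K)) H c η w p) :
    ∀ᶠ ξ in 𝓝[>] (0 : ℝ), C3 i j k h hm H c η (i :: w) (sm 0 ξ p) := by
  have hK0 : 0 < K := lt_of_lt_of_le one_pos hK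
  have hKH : 0 < K * H := mul_pos hK0 hH
  have hy1 := hp.y_le
  have hy2 := hp.y_gt
  have e1 : hm / (8 * K) ≤ hm := div_le_self (by linarith) (by linarith)
  have g1 := ev_sm_lo 0 0 p hp.hi_pos
  have g2 := ev_sm_hi 0 0 p hp.lo_neg
  have g3 := ev_sm_near 0 1 one_pos p
  have g4 := ev_sm_In 0 p ⟨-1, h, 0, 0⟩ (by norm_num) hp.lo_neg hp.hi_pos
  filter_upwards [g1, g2, g3, g4] with ξ k1 k2 k3 k4
  have hjw : ∀ l : Fin 3, i ≠ l → (l ∈ i :: w → l ∈ w) := fun l hl hlw =>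
    (List.mem_cons.1 hlw).resolve_left (Ne.symm hl)
  have hjw' : ∀ l : Fin 3, (l ∉ i :: w → l ∉ w) := fun l hlw h' => hlw (List.mem_cons_of_mem i h')
  refine ⟨k1, k2, ?_, ?_, hy2, fun h' => absurd List.mem_cons_self h', fun _ => k4,
    fun h' => hp.k_out (hjw' k h'), fun h' => hp.k_in (hjw k hik h'),
    fun h' => hp.j_out (hjw' j h'), fun h' => hp.j_in (hjw j hij h')⟩
  · have := k3.1
    linarith
  · exact hy1.trans e1

end Pool.Agent.Lib.H32S
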