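import Pool.Agent.Lib.H32S.B3

set_option autoImplicit false

open Filter Topology

namespace Pool.Agent.Lib.H32S

/-- `u = ⟨ξ, hm, -h/4, Λ⟩` has the coordinates of `sm 0 ξ ⟨-1, hm, 0, 0⟩`, so
`sl u (sm 0 ξ p) = -(s/ξ)` with `s = sl p ⟨-1, hm, 0, 0⟩`.
`i ∉ w`: `Ou s p`, so `Ou (-(s/ξ)) (sm 0 ξ p)` (the interval is `(-(hi/ξ), -(lo/ξ))`): `AD`, for every
`Λ`.  `i ∈ w`: `In s p` gives `In (-(s/ξ)) (sm 0 ξ p)`; moreover `s = (hm - p.y)/(-1 - p.x) < 0`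
(`p.y ≤ hm/(8K) < hm`, `-1 < p.x`), so `-h/4 < 0 < -(s/ξ)`, and `-(s/ξ) < Λ` for large `Λ`
(`eventually_gt_atTop`).  The x coordinates differ as `p.x ≠ -1`. -/
theorem s3_vertex (K ξ h hm H c η : ℝ) (i j k : Fin 3) (w : W) (p : Q4) (hK : 1 ≤ K)
    (hξ : 0 < ξ) (hm0 : 0 < hm) (hh : 0 < h)
    (hp : C3 i j k hm (hm / (8 * K)) H c η w p) :
    ∀ᶠ Λ in (atTop : Filter ℝ), (i ∉ w → AD ⟨ξ, hm, -h / 4, Λ⟩ (sm 0 ξ p)) ∧
      (i ∈ w → NA ⟨ξ, hm, -h / 4, Λ⟩ (sm 0 ξ p)) := by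
  have hx : 0 < 1 + p.x := by linarith [hp.x_gt]
  have hK0 : (0 : ℝ) < 8 * K := by linarith
  have hy : p.y < hm := by
    have h1 : hm / (8 * K) < hm := by
      rw [div_lt_iff₀ hK0]
      nlinarith
    exact hp.y_le.trans_lt h1
  have e : ∀ Λ : ℝ, sl ⟨ξ, hm, -h / 4, Λ⟩ (sm 0 ξ p) = -(sl p ⟨-1, hm, 0, 0⟩ / ξ) := by
    intro Λ
    show (p.y - hm) / (0 - ξ * p.x - ξ) = -((hm - p.y) / (-1 - p.x) / ξ)
    have h1 : 0 - ξ * p.x - ξ = -(ξ * (1 + p.x)) := by ring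
    have h2 : -1 - p.x = -(1 + p.x) := by ring
    rw [h1, h2]
    have hx' := hx.ne'
    have hξ' := hξ.ne'
    field_simp
    ring
  have hs : sl p ⟨-1, hm, 0, 0⟩ < 0 := by
    show (hm - p.y) / (-1 - p.x) < 0
    exact div_neg_of_pos_of_neg (by linarith) (by linarith)
  have hne : ξ ≠ 0 - ξ * p.x := by
    intro h1
    have h2 : ξ * (1 + p.x) = 0 := by linarith
    have h3 := mul_pos hξ hx
    linarith
  filter_upwards [eventually_gt_atTop (-(sl p ⟨-1, hm, 0, 0⟩ / ξ))] with Λ hΛ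
  constructor
  · intro hi
    refine ⟨hne, Or.inr ?_⟩
    rw [e]
    rcases hp.i_out hi with h1 | h1
    · right
      show -(p.lo / ξ) < -(sl p ⟨-1, hm, 0, 0⟩ / ξ)
      exact neg_lt_neg (div_lt_div_of_pos_right h1 hξ)
    · left
      show -(sl p ⟨-1, hm, 0, 0⟩ / ξ) < -(p.hi / ξ)
      exact neg_lt_neg (div_lt_div_of_pos_right h1 hξ)
  · intro hi
    obtain ⟨h1, h2⟩ := hp.i_in hi
    refine ⟨hne, ?_, ?_⟩
    · rw [e]
      refine ⟨?_, hΛ⟩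
      show -h / 4 < -(sl p ⟨-1, hm, 0, 0⟩ / ξ)
      have h3 : sl p ⟨-1, hm, 0, 0⟩ / ξ < 0 := div_neg_of_neg_of_pos hs hξ
      linarith
    · rw [e]
      exact ⟨neg_lt_neg (div_lt_div_of_pos_right h2 hξ), neg_lt_neg (div_lt_div_of_pos_right h1 hξ)⟩

/-- The vertex `u = ⟨ξ, hm, -h/4, Λ⟩` itself: `i ∉ []`, so `i_out`: the slope to `(-1, h)` is
`(h - hm)/(-1 - ξ)`, which is `< -h/4` because `h - hm ≥ h/2 > (h/4)(1 + ξ)` (`ξ < 1`); `j_out`: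
`H < hm` (right alternative; `8 K H ≤ hm`); the rest immediate. -/
theorem s3_u_C3 (K ξ h hm H c η Λ : ℝ) (i j k : Fin 3) (hK : 1 ≤ K) (hξ : 0 < ξ) (hξ1 : ξ < 1)
    (hH : 0 < H) (hc : 0 < c) (hHm : 8 * K * H ≤ hm) (hh : 2 * hm ≤ h) (hΛ : 0 < Λ) :
    C3 i j k h hm H c η [] ⟨ξ, hm, -h / 4, Λ⟩ := by
  have hmH : H < hm := by nlinarith
  have hm0 : 0 < hm := hH.trans hmH
  have hh0 : 0 < h := by linarith
  refine ⟨?_, hΛ, ?_, le_refl _, ?_, fun _ => ?_, fun h1 => ?_, fun _ => hm0, fun h1 => ?_, fun _ => Or.inr hmH, fun h1 => ?_⟩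
  · show -h / 4 < 0
    linarith
  · show -1 < ξ
    linarith
  · show -(2 * c) < hm
    linarith
  · left
    show (h - hm) / (-1 - ξ) < -h / 4
    rw [div_lt_iff_of_neg (by linarith)]
    nlinarith
  · exact absurd h1 (by simp)
  · exact absurd h1 (by simp)
  · exact absurd h1 (by simp)

end Pool.Agent.Lib.H32S
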