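import Pool.Agent.Lib.H32S.B2
import Pool.Agent.Lib.H32S.B6
import Pool.Agent.Lib.H32S.B9
import Pool.Agent.Lib.H32S.S3S
import Pool.Agent.Lib.H32S.S3X
import Pool.Agent.Lib.H32S.S3A
import Pool.Agent.Lib.H32S.S3B

set_option autoImplicit false

open Filter Topology

namespace Pool.Agent.Lib.H32S

/-- Given the parameters (so `8 K H ≤ 8 K K3 H ≤ hm`), let `C` be the placement of `hT3 i j k` with
`h := hm`, `hm := hm/(8K)`, `H`, `c`, `η` (`K3 H ≤ hm/(8K)`, `2 (hm/(8K)) ≤ hm`).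
Choose `0 < ξ < 1/8` (`ev_lt`, `ev_all`, `ev_ex`) with `s3_site_A`, `s3_site_B`, `s3_strip_C3` for all
words of length `< d`.  Choose `Λ` (`(ev_all ... ).and (eventually_gt_atTop _)`, `.exists`) with
`s3_vertex` for all words and `Λ > hm/(ξ+1/4)`, `Λ > (hm+c)/(ξ+1/8)`, `Λ > 0`.
`PA` from `hT2 j i k` with `S = hm/(ξ + 1/4)`, `Q = 4h/3`; `PB` from `hT2 i k j` with
`S = 8 (h + c)/7`, `Q = (hm + c)/(ξ + 1/8)`.
Choose `ε > 0` with `s3_A_u`, `s3_A_C3`, `s3_B_u`, `s3_B_C3` and all cross conditions: strip against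
`A` by `ev_up_Sup` (`m = 4h/(3K) = 4h/3/K`, `M = 2 hm/K ≤ hm/(ξ+1/4)/K < p.hi` as `ξ < 1/4`), strip
against `B` by `ev_dn_Sdn` (`m = 4(hm+c)/K ≤ (hm+c)/(ξ+1/8)/K`, `M = 8(h+c)/(7K)`), `A` against `B` by
`ev_up_dn` (`a = -(1/4)`, `b = 0`, `a' = -(1/8)`, `b' = -c`, `s = 0`, limit slope `-8 c`,
`8 c < 4h/(3K)`, `8 c < 8 (h+c)/(7K)` because `h ≥ 16 K c`).
`P = join i j ⟨ξ, hm, -h/4, Λ⟩ (fun w => sm 0 ξ (C w)) (fun w => up (-(1/4)) 0 ε (PA w))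
(fun w => dn (-(1/8)) (-c) 0 ε (PB w))` with `rep_join` and `join_side`. -/
theorem T3_succ (d : ℕ) (K K3 : ℝ) (h1 : 1 ≤ K) (h2 : 1 ≤ K3) (hT2 : T2 d K) (hT3 : T3 d K3) :
    T3 (d + 1) (8 * K * K3) := by
  intro i j k hij hik hjk h hm H c η H0 c0 η0 hcH hHm hh
  have hK0 : 0 < K := by linarith
  have hK30 : 0 < K3 := by linarith
  have hKH : 0 < K * H := mul_pos hK0 H0
  have hKc : K * c ≤ K * H := mul_le_mul_of_nonneg_left hcH hK0.le
  have hKc0 : 0 < K * c := mul_pos hK0 c0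
  have hHm' : 8 * K * H ≤ hm := by
    have h3 : 8 * K * H * 1 ≤ 8 * K * H * K3 := mul_le_mul_of_nonneg_left h2 (by positivity)
    have h4 : 8 * K * K3 * H = 8 * K * H * K3 := by ring
    linarith
  have hm0 : 0 < hm := by linarith
  have hh0 : 0 < h := by linarith
  have h8K : (0 : ℝ) < 8 * K := by positivity
  have hc1 : K3 * H ≤ hm / (8 * K) := by
    rw [le_div_iff₀ h8K]
    have h4 : K3 * H * (8 * K) = 8 * K * K3 * H := by ring
    linarith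
  have hc2 : 2 * (hm / (8 * K)) ≤ hm := by
    have h3 : hm / (8 * K) ≤ hm / 8 := by
      apply div_le_div_of_nonneg_left hm0.le (by norm_num)
      linarith
    linarith
  obtain ⟨C, hCR, hC⟩ := hT3 i j k hij hik hjk hm (hm / (8 * K)) H c η H0 c0 η0 hcH hc1 hc2
  obtain ⟨ξ, hξ, ⟨hξ0, hξt⟩, hξA, hξB, hξC⟩ := ev_ex ((ev_lt (1 / 8) (by norm_num)).and
    ((ev_all d (fun w hw => s3_site_A K h hm H c η i j k w (C w) h1 H0 c0 hcH η0 hHm' hh
      (hC w hw))).and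
    ((ev_all d (fun w hw => s3_site_B K h hm H c η i j k w (C w) h1 H0 c0 hcH η0 hHm' hh
      (hC w hw))).and
    (ev_all d (fun w hw => s3_strip_C3 K h hm H c η i j k hij hik w (C w) h1 H0 c0 hcH η0 hHm' hh
      (hC w hw))))))
  have hA0 : 0 < ξ + 1 / 4 := by linarith
  have hB0 : 0 < ξ + 1 / 8 := by linarith
  obtain ⟨Λ, ⟨⟨⟨hΛv, hΛA⟩, hΛB⟩, hΛ0⟩⟩ := ((((ev_all d (fun w hw =>
    s3_vertex K ξ h hm H c η i j k w (C w) h1 hξ0 hm0 hh0 (hC w hw))).and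
    (eventually_gt_atTop (hm / (ξ + 1 / 4)))).and
    (eventually_gt_atTop ((hm + c) / (ξ + 1 / 8)))).and
    (eventually_gt_atTop (0 : ℝ))).exists
  have hSA0 : 0 < hm / (ξ + 1 / 4) := div_pos hm0 hA0
  have hQB0 : 0 < (hm + c) / (ξ + 1 / 8) := div_pos (by linarith) hB0
  obtain ⟨PA, hAR, hA⟩ := hT2 j i k hij.symm hjk hik (hm / (ξ + 1 / 4)) (4 * h / 3) hSA0
    (by positivity)
  obtain ⟨PB, hBR, hB⟩ := hT2 i k j hik hij hjk.symm (8 * (h + c) / 7) ((hm + c) / (ξ + 1 / 8))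
    (by positivity) hQB0
  have d1 : 4 * h / (3 * K) = 4 * h / 3 / K := by rw [div_div]
  have d2 : 2 * hm / K ≤ hm / (ξ + 1 / 4) / K := by
    apply div_le_div_of_nonneg_right _ hK0.le
    rw [le_div_iff₀ hA0]
    have h3 : hm * (ξ + 1 / 4) ≤ hm * (1 / 2) := mul_le_mul_of_nonneg_left (by linarith) hm0.le
    linarith
  have d3 : 4 * (hm + c) / K ≤ (hm + c) / (ξ + 1 / 8) / K := by
    apply div_le_div_of_nonneg_right _ hK0.le
    rw [le_div_iff₀ hB0]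
    have h3 : (hm + c) * (ξ + 1 / 8) ≤ (hm + c) * (1 / 4) :=
      mul_le_mul_of_nonneg_left (by linarith) (by linarith)
    linarith
  have d4 : 8 * (h + c) / (7 * K) = 8 * (h + c) / 7 / K := by rw [div_div]
  have hlim : (-c - 0) / (-(1 / 8) - -(1 / 4)) = -(8 * c) := by
    norm_num
    ring
  have g1 : -(4 * h / 3 / K) < -(8 * c) := by
    have h3 : 8 * c < 4 * h / 3 / K := by
      rw [lt_div_iff₀ hK0]
      linarith
    linarith
  have g2 : -(8 * c) < hm / (ξ + 1 / 4) / K := by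
    have h3 : 0 < hm / (ξ + 1 / 4) / K := div_pos hSA0 hK0
    linarith
  have g3 : 0 - 8 * (h + c) / 7 / K < -(8 * c) := by
    have h3 : 8 * c < 8 * (h + c) / 7 / K := by
      rw [lt_div_iff₀ hK0]
      linarith
    linarith
  have g4 : -(8 * c) < 0 + (hm + c) / (ξ + 1 / 8) / K := by
    have h3 : 0 < (hm + c) / (ξ + 1 / 8) / K := div_pos hQB0 hK0
    linarith
  have hne : -(1 / 4 : ℝ) ≠ -(1 / 8) := by norm_num
  obtain ⟨ε, hε0, e1, e2, e3, e4, e5, e6, e7⟩ := ev_ex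
    ((ev_all d (fun w hw => s3_A_u K ξ h hm Λ i j k w (PA w) h1 hξ0 hm0 hh hΛA
      (hA w hw))).and
    ((ev_all d (fun w hw => s3_A_C3 K ξ h hm H c η i j k hij hik hjk w (PA w) h1 hξ0 hm0 c0 η0 hh
      (hA w hw))).and
    ((ev_all d (fun w hw => s3_B_u K ξ h hm c Λ i j k w (PB w) h1 hξ0 hm0 c0 hh hΛB
      (hB w hw))).and
    ((ev_all d (fun w hw => s3_B_C3 K ξ h hm H c η i j k hij hik hjk w (PB w) h1 hξ0 hm0 c0 η0 hh
      (hB w hw))).and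
    ((ev_all2 d (fun v w hv hw => ev_up_Sup (-(1 / 4)) 0 (4 * h / (3 * K)) (2 * hm / K) (PA w)
      (sm 0 ξ (C v)) (hξA v hv) (by rw [d1]; exact (hA w hw).lo_lt)
      (lt_of_le_of_lt d2 (hA w hw).lt_hi))).and
    ((ev_all2 d (fun v w hv hw => ev_dn_Sdn (-(1 / 8)) (-c) 0 (4 * (hm + c) / K)
      (8 * (h + c) / (7 * K)) (PB w) (sm 0 ξ (C v)) (hξB v hv)
      (lt_of_lt_of_le (hB w hw).lo_lt (neg_le_neg d3))
      (by rw [d4]; exact (hB w hw).lt_hi))).and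
    (ev_all2 d (fun v w hv hw => ev_up_dn (-(1 / 4)) 0 (-(1 / 8)) (-c) 0
      (4 * h / 3 / K) (hm / (ξ + 1 / 4) / K) ((hm + c) / (ξ + 1 / 8) / K)
      (8 * (h + c) / 7 / K) (PA v) (PB w) hne
      (by rw [hlim]; exact g1) (by rw [hlim]; exact g2) (by rw [hlim]; exact g3)
      (by rw [hlim]; exact g4) (hA v hv).lo_lt (hA v hv).lt_hi (hB w hw).lo_lt
      (hB w hw).lt_hi))))))))
  refine ⟨join i j ⟨ξ, hm, -h / 4, Λ⟩ (fun w => sm 0 ξ (C w))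
    (fun w => up (-(1 / 4)) 0 ε (PA w)) (fun w => dn (-(1 / 8)) (-c) 0 ε (PB w)),
    ?_, ?_⟩
  · exact rep_join d i j k hij hik hjk _ _ _ _ (sm_Rep d 0 ξ hξ0 hCR)
      (up_Rep d (-(1 / 4)) 0 ε hε0 hAR) (dn_Rep d (-(1 / 8)) (-c) 0 ε hε0 hBR)
      hΛv e1 e3 (fun v w hv hw => NA_symm (e5 v w hv hw))
      (fun v w hv hw => NA_symm (e6 v w hv hw)) e7
  · exact join_side d i j k hij hik hjk _ _ _ _ (fun v p => C3 i j k h hm H c η v p)
      (s3_u_C3 K ξ h hm H c η Λ i j k h1 hξ0 (by linarith) H0 c0 hHm' hh hΛ0) hξC e2 e4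

end Pool.Agent.Lib.H32S
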