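import Pool.Agent.Lib.H32S.Defs

set_option autoImplicit false

namespace Pool.Agent.Lib.H32S

/-- The parameters in the step for T4. -/
structure Par4 (K S τ N N' H hm η t : ℝ) : Prop where
  K1 : 1 ≤ K
  τ0 : 0 < τ
  τN : τ ≤ N
  N'0 : 0 < N'
  H0 : 0 < H
  η0 : 0 < η
  hm0 : 0 < hm
  SN : (8 * K + 8) * N ≤ S
  Hm : 8 * K * H ≤ hm
  t0 : 0 < t
  tη : 2 * t ≤ η
  τtη : 4 * (τ * t) ≤ η
  τtH : τ * t ≤ H
  tK : 4 * K * (N' + τ) * t ≤ hm

/-- Take `t` the minimum of `η/2`, `η/(4τ)`, `H/τ`, `hm/(4K(N'+τ))`. -/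
theorem par4_exists (K S τ N N' H hm η : ℝ) (K1 : 1 ≤ K) (τ0 : 0 < τ) (τN : τ ≤ N)
    (N'0 : 0 < N') (H0 : 0 < H) (η0 : 0 < η) (SN : (8 * K + 8) * N ≤ S) (Hm : 8 * K * H ≤ hm) :
    ∃ t : ℝ, Par4 K S τ N N' H hm η t := by
  have K0 : 0 < K := by linarith
  have N0 : 0 < N := lt_of_lt_of_le τ0 τN
  have hm0 : 0 < hm := lt_of_lt_of_le (by positivity) Hm
  have hd : 0 < 4 * K * (N' + τ) := by positivity
  refine ⟨min (min (η / 2) (η / (4 * τ))) (min (H / τ) (hm / (4 * K * (N' + τ)))), ?_⟩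
  set t := min (min (η / 2) (η / (4 * τ))) (min (H / τ) (hm / (4 * K * (N' + τ)))) with ht
  have t0 : 0 < t := lt_min (lt_min (by positivity) (by positivity)) (lt_min (by positivity) (by positivity))
  have h1 : t ≤ η / 2 := (min_le_left _ _).trans (min_le_left _ _)
  have h2 : t ≤ η / (4 * τ) := (min_le_left _ _).trans (min_le_right _ _)
  have h3 : t ≤ H / τ := (min_le_right _ _).trans (min_le_left _ _)
  have h4 : t ≤ hm / (4 * K * (N' + τ)) := (min_le_right _ _).trans (min_le_right _ _)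
  rw [le_div_iff₀ (by positivity)] at h2 h3 h4
  exact ⟨K1, τ0, τN, N'0, H0, η0, hm0, SN, Hm, t0, by linarith, by linarith, by linarith, by linarith⟩

end Pool.Agent.Lib.H32S
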