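import Pool.Agent.Lib.H32S.B1
import Pool.Agent.Lib.H32S.B4
import Pool.Agent.Lib.H32S.S4D

set_option autoImplicit false

open Filter Topology

namespace Pool.Agent.Lib.H32S

/-- `q = ⟨-t - ξ, hm, -Λ, 2N⟩`: the slope from `(-(t/100), 0)` to `q` is
`hm/(-t - ξ + t/100) = -QA`, `QA = hm/(t + ξ - t/100)`.  `j ∉ w`: `-QA < p.lo` (second corner of
`hp`): `ev_up_AD`.  `j ∈ w`: `p.lo < -QA < 0 < p.hi` and `-Λ < -QA < 0 < 2N`: `ev_up_NA`. -/
theorem s4_A_u (K S τ N N' H hm η t ξ Λ : ℝ) (P4 : Par4 K S τ N N' H hm η t) (i j k : Fin 3)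
    (w : W) (p : Q4) (hξ : 0 < ξ) (hξt : ξ < t) (hΛ : hm / (t + ξ - t / 100) < Λ)
    (hp : C2 i j k S (hm / (t + ξ - t / 100)) (hm / (t + ξ - t / 100) / K) (S / K) w p) :
    ∀ᶠ ε in 𝓝[>] (0 : ℝ),
      (j ∉ w → AD ⟨-t - ξ, hm, -Λ, 2 * N⟩ (up (-(t / 100)) 0 ε p)) ∧
      (j ∈ w → NA ⟨-t - ξ, hm, -Λ, 2 * N⟩ (up (-(t / 100)) 0 ε p)) := by
  have ht := P4.t0
  have hhm := P4.hm0
  have hN : 0 < N := lt_of_lt_of_le P4.τ0 P4.τN
  have hK : 0 < K := lt_of_lt_of_le one_pos P4.K1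
  have hS : 0 < S := lt_of_lt_of_le (by positivity) P4.SN
  have hD : 0 < t + ξ - t / 100 := by linarith
  have hQ : 0 < hm / (t + ξ - t / 100) := div_pos hhm hD
  have hSK : 0 < S / K := div_pos hS hK
  have hx : (⟨-t - ξ, hm, -Λ, 2 * N⟩ : Q4).x ≠ -(t / 100) := by
    change -t - ξ ≠ -(t / 100)
    intro h
    linarith
  have hsl : ((⟨-t - ξ, hm, -Λ, 2 * N⟩ : Q4).y - 0) / ((⟨-t - ξ, hm, -Λ, 2 * N⟩ : Q4).x - -(t / 100))
      = -(hm / (t + ξ - t / 100)) := by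
    change (hm - 0) / (-t - ξ - -(t / 100)) = -(hm / (t + ξ - t / 100))
    have h1 : -t - ξ - -(t / 100) = -(t + ξ - t / 100) := by ring
    rw [h1, sub_zero, div_neg]
  by_cases hj : j ∈ w
  · have h1 : In (((⟨-t - ξ, hm, -Λ, 2 * N⟩ : Q4).y - 0) /
        ((⟨-t - ξ, hm, -Λ, 2 * N⟩ : Q4).x - -(t / 100))) p := by
      rw [hsl]
      refine ⟨hp.j_in hj, ?_⟩
      have := hp.lt_hi
      linarith
    have h2 : In (((⟨-t - ξ, hm, -Λ, 2 * N⟩ : Q4).y - 0) /
        ((⟨-t - ξ, hm, -Λ, 2 * N⟩ : Q4).x - -(t / 100))) (⟨-t - ξ, hm, -Λ, 2 * N⟩ : Q4) := by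
      rw [hsl]
      refine ⟨?_, ?_⟩
      · change -Λ < _
        linarith
      · change _ < 2 * N
        linarith
    filter_upwards [ev_up_NA (-(t / 100)) 0 p _ hx h1 h2] with ε hε
    exact ⟨fun h => absurd hj h, fun _ => NA_symm hε⟩
  · have h1 : Ou (((⟨-t - ξ, hm, -Λ, 2 * N⟩ : Q4).y - 0) /
        ((⟨-t - ξ, hm, -Λ, 2 * N⟩ : Q4).x - -(t / 100))) p := by
      rw [hsl]
      exact Or.inl (hp.j_out hj)
    filter_upwards [ev_up_AD (-(t / 100)) 0 p _ hx h1] with ε hε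
    exact ⟨fun _ => AD_symm hε, fun h => absurd h hj⟩

/-- Fields for small `ε` (`ev_up_near`): `lo_lt`: `p.lo < -hm/(t+ξ-t/100)/K ≤ -hm/(2Kt) < -N'`
(`t + ξ - t/100 ≤ 2t`, `4 K (N' + τ) t ≤ hm`); `lt_hi`: `N < S/K < p.hi`; `x` near `-(t/100)`, `y` near
`0`; `i_out`, `i_in` are those of `hp`; `k_out`, `k_in`: `y = 0 + ε p.y`; `j_out` does not occur;
`j_in`: `τ x` is near `-(τ t/100) < 0`, `y` near `0`, so `τ x < y < η`. -/
theorem s4_A_C4 (K S τ N N' H hm η t ξ : ℝ) (P4 : Par4 K S τ N N' H hm η t) (i j k : Fin 3)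
    (hij : i ≠ j) (hik : i ≠ k) (hjk : j ≠ k)
    (w : W) (p : Q4) (hξ : 0 < ξ) (hξt : ξ < t)
    (hp : C2 i j k S (hm / (t + ξ - t / 100)) (hm / (t + ξ - t / 100) / K) (S / K) w p) :
    ∀ᶠ ε in 𝓝[>] (0 : ℝ), C4 i j k S τ N N' H hm η (j :: w) (up (-(t / 100)) 0 ε p) := by
  have ht := P4.t0
  have hhm := P4.hm0
  have hτ := P4.τ0
  have hN' := P4.N'0
  have hη := P4.η0
  have htη := P4.tη
  have hN : 0 < N := lt_of_lt_of_le P4.τ0 P4.τN
  have hK : 0 < K := lt_of_lt_of_le one_pos P4.K1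
  have hD : 0 < t + ξ - t / 100 := by linarith
  have hτt : 0 < τ * t := mul_pos hτ ht
  have hδ : 0 < min (min (t / 200) (τ * t / 200)) hm :=
    lt_min (lt_min (by linarith) (by linarith)) hhm
  have d1 : min (min (t / 200) (τ * t / 200)) hm ≤ t / 200 := (min_le_left _ _).trans (min_le_left _ _)
  have d2 : min (min (t / 200) (τ * t / 200)) hm ≤ τ * t / 200 :=
    (min_le_left _ _).trans (min_le_right _ _)
  have d3 : min (min (t / 200) (τ * t / 200)) hm ≤ hm := min_le_right _ _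
  have hlo : N' < hm / (t + ξ - t / 100) / K := by
    rw [lt_div_iff₀ hK, lt_div_iff₀ hD]
    have h1 : N' * K * (t + ξ - t / 100) < N' * K * (2 * t) :=
      mul_lt_mul_of_pos_left (by linarith) (mul_pos hN' hK)
    have h2 : 0 ≤ K * N' * t := by positivity
    have h3 : 0 ≤ K * τ * t := by positivity
    have h4 := P4.tK
    nlinarith
  have hhi : N < S / K := by
    rw [lt_div_iff₀ hK]
    have h1 := P4.SN
    have h2 : 0 < K * N := mul_pos hK hN
    nlinarith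
  filter_upwards [ev_up_near (-(t / 100)) 0 _ hδ p, self_mem_nhdsWithin] with ε hε hε0
  obtain ⟨e1, e2, e3, e4⟩ := hε
  have hε1 : 0 < ε := hε0
  have hy : (up (-(t / 100)) 0 ε p).y = 0 + ε * p.y := rfl
  constructor
  · change p.lo < -N'
    have := hp.lo_lt
    linarith
  · change N < p.hi
    have := hp.lt_hi
    linarith
  · linarith
  · linarith
  · linarith
  · linarith
  · intro hi
    change p.hi < S
    exact hp.i_out fun h => hi (List.mem_cons_of_mem _ h)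
  · intro hi
    change S < p.hi
    rcases List.mem_cons.mp hi with h | h
    · exact absurd h hij
    · exact hp.i_in h
  · intro hk
    rw [hy]
    have h1 := hp.k_out fun h => hk (List.mem_cons_of_mem _ h)
    have h2 : 0 < ε * p.y := mul_pos hε1 h1
    linarith
  · intro hk
    rw [hy]
    rcases List.mem_cons.mp hk with h | h
    · exact absurd h.symm hjk
    · have h1 := hp.k_in h
      have h2 : ε * p.y < 0 := mul_neg_of_pos_of_neg hε1 h1
      linarith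
  · intro hj
    exact absurd List.mem_cons_self hj
  · intro _
    refine ⟨?_, by linarith⟩
    have h1 : τ * (up (-(t / 100)) 0 ε p).x < τ * (-(t / 100) + t / 200) :=
      mul_lt_mul_of_pos_left (by linarith) hτ
    have h2 : τ * (-(t / 100) + t / 200) = -(τ * t / 200) := by ring
    linarith

end Pool.Agent.Lib.H32S
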