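import Pool.Agent.Lib.H32S.B1
import Pool.Agent.Lib.H32S.B5
import Pool.Agent.Lib.H32S.S4D

set_option autoImplicit false

open Filter Topology

namespace Pool.Agent.Lib.H32S

/-- `q = ⟨-t - ξ, hm, -Λ, 2N⟩`: the slope from `(-(t/50), -(τt/50))` to `q` is
`(hm + τt/50)/(-t - ξ + t/50) = -D` with `D = (hm + τt/50)/(t + ξ - t/50)`; `hp` has first slope
`D + τ`.  The interval of the moving point is `(τ - p.hi, τ - p.lo)`.  `k ∉ w`: `p.hi < D + τ`, so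
`-D < τ - p.hi`: `ev_dn_AD`.  `k ∈ w`: `D + τ < p.hi`, so `τ - p.hi < -D < 0 < τ - p.lo`, and
`-Λ < -D < 0 < 2N`: `ev_dn_NA`. -/
theorem s4_B_u (K S τ N N' H hm η t ξ Λ : ℝ) (P4 : Par4 K S τ N N' H hm η t) (i j k : Fin 3)
    (w : W) (p : Q4) (hξ : 0 < ξ) (hξt : ξ < t) (hΛ : (hm + τ * t / 50) / (t + ξ - t / 50) < Λ)
    (hp : C2 k i j ((hm + τ * t / 50) / (t + ξ - t / 50) + τ) (S - τ) ((S - τ) / K)
      (((hm + τ * t / 50) / (t + ξ - t / 50) + τ) / K) w p) :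
    ∀ᶠ ε in 𝓝[>] (0 : ℝ),
      (k ∉ w → AD ⟨-t - ξ, hm, -Λ, 2 * N⟩ (dn (-(t / 50)) (-(τ * t / 50)) τ ε p)) ∧
      (k ∈ w → NA ⟨-t - ξ, hm, -Λ, 2 * N⟩ (dn (-(t / 50)) (-(τ * t / 50)) τ ε p)) := by
  have ht := P4.t0
  have hτ := P4.τ0
  have hhm := P4.hm0
  have hN : 0 < N := lt_of_lt_of_le P4.τ0 P4.τN
  have hK : 0 < K := lt_of_lt_of_le one_pos P4.K1
  have hden : 0 < t + ξ - t / 50 := by linarith
  have hx : (⟨-t - ξ, hm, -Λ, 2 * N⟩ : Q4).x ≠ -(t / 50) := by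
    intro h
    have h' : -t - ξ = -(t / 50) := h
    linarith
  obtain ⟨D, hD⟩ : ∃ D, D = (hm + τ * t / 50) / (t + ξ - t / 50) := ⟨_, rfl⟩
  rw [← hD] at hp hΛ
  have hD0 : 0 < D := by rw [hD]; exact div_pos (by positivity) hden
  have e : ((⟨-t - ξ, hm, -Λ, 2 * N⟩ : Q4).y - -(τ * t / 50)) / ((⟨-t - ξ, hm, -Λ, 2 * N⟩ : Q4).x - -(t / 50)) = -D := by
    have h1 : (⟨-t - ξ, hm, -Λ, 2 * N⟩ : Q4).x - -(t / 50) = -(t + ξ - t / 50) := by
      show (-t - ξ) - -(t / 50) = -(t + ξ - t / 50)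
      ring
    rw [h1, div_neg, sub_neg_eq_add, hD]
  by_cases hk : k ∈ w
  · have h1 := hp.i_in hk
    have h2 := hp.lo_lt
    have hS : 0 ≤ S - τ := by nlinarith [P4.SN, P4.τN, P4.K1]
    have h3 : 0 ≤ (S - τ) / K := div_nonneg hS hK.le
    have hNA := ev_dn_NA (-(t / 50)) (-(τ * t / 50)) τ p ⟨-t - ξ, hm, -Λ, 2 * N⟩ hx (by rw [e]; linarith) (by rw [e]; linarith)
      (by
        rw [e]
        refine ⟨?_, ?_⟩
        · show -Λ < -D
          linarith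
        · show -D < 2 * N
          linarith)
    filter_upwards [hNA] with ε hε
    exact ⟨fun h => absurd hk h, fun _ => NA_symm hε⟩
  · have h1 := hp.i_out hk
    have hAD := ev_dn_AD (-(t / 50)) (-(τ * t / 50)) τ p ⟨-t - ξ, hm, -Λ, 2 * N⟩ hx (Or.inl (by rw [e]; linarith))
    filter_upwards [hAD] with ε hε
    exact ⟨fun _ => AD_symm hε, fun h => absurd h hk⟩

/-- Fields for small `ε` (`ev_dn_near`): the interval is `(τ - p.hi, τ - p.lo)`.  `lo_lt`: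
`p.hi > ((hm + τt/50)/(t + ξ - t/50) + τ)/K ≥ hm/(2Kt) ≥ 2 (N' + τ)`; `lt_hi`:
`τ - p.lo > τ + (S - τ)/K > N` (`S ≥ (8K+8) N`); `x` near `-(t/50)`, `y` near `-(τt/50)`;
`i_out`: `-(S - τ) < p.lo` (second corner), so `τ - p.lo < S`; `i_in` the same way; `k_out` does not
occur, `k_in`: `y < 0`; `y - τ x = -ε p.y` (exactly), so `j_out`: `0 < p.y` (third corner) gives
`y < τ x`, and `j_in`: `p.y < 0` gives `τ x < y`, and `y < η` for small `ε`. -/
theorem s4_B_C4 (K S τ N N' H hm η t ξ : ℝ) (P4 : Par4 K S τ N N' H hm η t) (i j k : Fin 3)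
    (hij : i ≠ j) (hik : i ≠ k) (hjk : j ≠ k)
    (w : W) (p : Q4) (hξ : 0 < ξ) (hξt : ξ < t)
    (hp : C2 k i j ((hm + τ * t / 50) / (t + ξ - t / 50) + τ) (S - τ) ((S - τ) / K)
      (((hm + τ * t / 50) / (t + ξ - t / 50) + τ) / K) w p) :
    ∀ᶠ ε in 𝓝[>] (0 : ℝ), C4 i j k S τ N N' H hm η (k :: w)
      (dn (-(t / 50)) (-(τ * t / 50)) τ ε p) := by
  have ht := P4.t0
  have hτ := P4.τ0
  have hhm := P4.hm0
  have hN : 0 < N := lt_of_lt_of_le P4.τ0 P4.τN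
  have hN' := P4.N'0
  have hK : 0 < K := lt_of_lt_of_le one_pos P4.K1
  have hη := P4.η0
  have hden : 0 < t + ξ - t / 50 := by linarith
  have hτt : 0 < τ * t := mul_pos hτ ht
  obtain ⟨D, hD⟩ : ∃ D, D = (hm + τ * t / 50) / (t + ξ - t / 50) := ⟨_, rfl⟩
  rw [← hD] at hp
  have hD1 : 2 * K * (N' + τ) ≤ D := by
    rw [hD, le_div_iff₀ hden]
    have h1 : 0 ≤ 2 * K * (N' + τ) := by positivity
    have h2 : 2 * K * (N' + τ) * (t + ξ - t / 50) ≤ 2 * K * (N' + τ) * (2 * t) :=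
      mul_le_mul_of_nonneg_left (by linarith) h1
    have h3 := P4.tK
    linarith
  have hM : N' + τ < (D + τ) / K := by
    rw [lt_div_iff₀ hK]
    have h1 : 0 < K * (N' + τ) := by positivity
    nlinarith
  have hm' : N ≤ (S - τ) / K := by
    rw [le_div_iff₀ hK]
    nlinarith [P4.SN, P4.τN, mul_pos hK hN]
  have h1 := hp.lo_lt
  have h2 := hp.lt_hi
  have hki : i ∈ k :: w ↔ i ∈ w := by
    rw [List.mem_cons, or_iff_right hik]
  have hkj : j ∈ k :: w ↔ j ∈ w := by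
    rw [List.mem_cons, or_iff_right hjk]
  filter_upwards [ev_dn_near (-(t / 50)) (-(τ * t / 50)) τ (t / 50) (by positivity) p,
    ev_dn_near (-(t / 50)) (-(τ * t / 50)) τ (τ * t / 50) (by positivity) p, self_mem_nhdsWithin] with ε hε1 hε2 hε
  have hε0 : (0 : ℝ) < ε := hε
  obtain ⟨x1, x2, _, _⟩ := hε1
  obtain ⟨_, _, y1, y2⟩ := hε2
  have exy : (dn (-(t / 50)) (-(τ * t / 50)) τ ε p).y - τ * (dn (-(t / 50)) (-(τ * t / 50)) τ ε p).x = -(ε * p.y) := by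
    show (-(τ * t / 50) + ε * (τ * p.x - p.y)) - τ * (-(t / 50) + ε * p.x) = -(ε * p.y)
    ring
  have htη := P4.tη
  have hτη := P4.τtη
  refine ⟨?_, ?_, by linarith, by linarith, by linarith, by linarith, fun h => ?_, fun h => ?_, fun h => ?_, fun _ => by linarith,
    fun h => Or.inl ?_, fun h => ⟨?_, by linarith⟩⟩
  · show τ - p.hi < -N'
    linarith
  · show N < τ - p.lo
    linarith
  · show τ - p.lo < S
    have h3 := hp.j_out (fun h4 => h (hki.2 h4))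
    linarith
  · show S < τ - p.lo
    have h3 := hp.j_in (hki.1 h)
    linarith
  · exact absurd List.mem_cons_self h
  · have h3 := hp.k_out (fun h4 => h (hkj.2 h4))
    have h4 := mul_pos hε0 h3
    linarith
  · have h3 := hp.k_in (hkj.1 h)
    have h4 := mul_pos_of_neg_of_neg (neg_lt_zero.2 hε0) h3
    linarith

end Pool.Agent.Lib.H32S
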