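import Pool.Agent.Lib.H32S.B7
import Pool.Agent.Lib.H32S.S4D

set_option autoImplicit false

open Filter Topology

namespace Pool.Agent.Lib.H32S

/-- `ev_sp_Sup` with `z = -t`, `a = -(t/100)`, `b = 0`: the limit slope is
`p.y/(-t + t/100) = -p.y/(99t/100)`.  It is `> -hm/(2Kt)` because `p.y ≤ hm/(8K)`; it is
`< 2τt/(99t/100) < 3τ < S/K` because `p.y > -2 (τ t)` and `S ≥ 8 K τ`. -/
theorem s4_site_A (K S τ N N' H hm η t : ℝ) (P4 : Par4 K S τ N N' H hm η t) (i j k : Fin 3)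
    (w : W) (p : Q4) (hp : C3 i j k hm (hm / (8 * K)) H (τ * t) η w p) :
    ∀ᶠ ξ in 𝓝[>] (0 : ℝ), Sup (-(t / 100)) 0 (hm / (2 * K * t)) (S / K) (sp (-t) ξ p) := by
  obtain ⟨K1, τ0, τN, N'0, H0, η0, hm0, SN, Hm, t0, tη, τtη, τtH, tK⟩ := P4
  have K0 : 0 < K := by linarith
  have hy1 : p.y ≤ hm / (8 * K) := hp.y_le
  have hy2 : -(2 * (τ * t)) < p.y := hp.y_gt
  have hτt : 0 < τ * t := mul_pos τ0 t0
  have hq : 0 < hm / K := div_pos hm0 K0
  have e1 : hm / (8 * K) = hm / K / 8 := by field_simp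
  have hden : -t - -(t / 100) = -(99 / 100 * t) := by ring
  have hSK : 8 * τ ≤ S / K := by
    rw [le_div_iff₀ K0]
    nlinarith
  refine ev_sp_Sup (-t) (-(t / 100)) 0 (hm / (2 * K * t)) (S / K) p ?_ hp.lo_neg hp.hi_pos ?_ ?_
  · intro h
    linarith
  · have e2 : hm / (2 * K * t) = (hm / K / 2) / t := by field_simp
    rw [hden, sub_zero, div_neg, neg_lt_neg_iff, div_lt_iff₀ (by positivity), e2]
    have e3 : hm / K / 2 / t * (99 / 100 * t) = hm / K / 2 * (99 / 100) := by field_simp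
    rw [e3]
    rw [e1] at hy1
    linarith
  · rw [hden, sub_zero, div_neg, neg_lt, lt_div_iff₀ (by positivity)]
    nlinarith

/-- `ev_sp_Sdn` with `z = -t`, `a = -(t/50)`, `b = -(τ t/50)`, `s = τ`: the limit slope is
`(p.y + τt/50)/(-t + t/50) = -(p.y + τt/50)/(49t/50)`.
Lower bound `τ - hm/(2Kt) < ` slope, i.e. `(p.y + τt/50) + τ (49t/50) < (49/100) hm/K`: the left side
is at most `hm/(8K) + τ t ≤ hm/(8K) + hm/(4K)` (`4 K τ t ≤ hm`), and `3/8 < 49/100`.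
Upper bound slope `< τ + (S - τ)/K`: `p.y > -2τt` gives slope `< (2τt - τt/50)/(49t/50) < 3τ`, and
`(S - τ)/K ≥ 8τ > 2τ`. -/
theorem s4_site_B (K S τ N N' H hm η t : ℝ) (P4 : Par4 K S τ N N' H hm η t) (i j k : Fin 3)
    (w : W) (p : Q4) (hp : C3 i j k hm (hm / (8 * K)) H (τ * t) η w p) :
    ∀ᶠ ξ in 𝓝[>] (0 : ℝ), Sdn (-(t / 50)) (-(τ * t / 50)) τ ((S - τ) / K) (hm / (2 * K * t))
      (sp (-t) ξ p) := by
  obtain ⟨K1, τ0, τN, N'0, H0, η0, hm0, SN, Hm, t0, tη, τtη, τtH, tK⟩ := P4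
  have K0 : 0 < K := by linarith
  have hy1 : p.y ≤ hm / (8 * K) := hp.y_le
  have hy2 : -(2 * (τ * t)) < p.y := hp.y_gt
  have hτt : 0 < τ * t := mul_pos τ0 t0
  have hq : 0 < hm / K := div_pos hm0 K0
  have e1 : hm / (8 * K) = hm / K / 8 := by field_simp
  have hden : -t - -(t / 50) = -(49 / 50 * t) := by ring
  have hSK : 8 * τ ≤ (S - τ) / K := by
    rw [le_div_iff₀ K0]
    nlinarith
  have hτt4 : 4 * (τ * t) ≤ hm / K := by
    rw [le_div_iff₀ K0]
    have h1 : 0 ≤ K * N' * t := by positivity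
    nlinarith
  refine ev_sp_Sdn (-t) (-(t / 50)) (-(τ * t / 50)) τ ((S - τ) / K) (hm / (2 * K * t)) p ?_
    hp.lo_neg hp.hi_pos ?_ ?_
  · intro h
    linarith
  · have e2 : hm / (2 * K * t) = (hm / K / 2) / t := by field_simp
    rw [hden, div_neg, lt_neg, neg_sub, div_lt_iff₀ (by positivity), e2, sub_mul]
    have e3 : hm / K / 2 / t * (49 / 50 * t) = hm / K / 2 * (49 / 50) := by field_simp
    rw [e3]
    rw [e1] at hy1
    nlinarith
  · rw [hden, div_neg, neg_lt, lt_div_iff₀ (by positivity)]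
    nlinarith

/-- Fields for small `ξ`: `lo_lt`, `lt_hi`, `i_in` by `ev_sp_lo`, `ev_sp_hi`; `x` is near `-t`
(`2 t ≤ η`); `-η < y`: `p.y > -2τt ≥ -η/2`; `y ≤ hm/(8K) ≤ hm`; `i_out` does not occur; `k_out`, `k_in`
from `hp`; `j_out`: `p.y < -(τ t)` gives `p.y < τ x` for small `ξ` because `τ x → -(τ t)` (or
`H < p.y`); `j_in`: `-(τ t) < p.y` gives `τ x < p.y` for small `ξ`, and `p.y < η`. -/
theorem s4_strip_C4 (K S τ N N' H hm η t : ℝ) (P4 : Par4 K S τ N N' H hm η t) (i j k : Fin 3)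
    (hij : i ≠ j) (hik : i ≠ k)
    (w : W) (p : Q4) (hp : C3 i j k hm (hm / (8 * K)) H (τ * t) η w p) :
    ∀ᶠ ξ in 𝓝[>] (0 : ℝ), C4 i j k S τ N N' H hm η (i :: w) (sp (-t) ξ p) := by
  obtain ⟨K1, τ0, τN, N'0, H0, η0, hm0, SN, Hm, t0, tη, τtη, τtH, tK⟩ := P4
  have K0 : 0 < K := by linarith
  have hτt : 0 < τ * t := mul_pos τ0 t0
  have hy1 : p.y ≤ hm / (8 * K) := hp.y_le
  have hy2 : -(2 * (τ * t)) < p.y := hp.y_gt
  have hyhm : hm / (8 * K) ≤ hm := by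
    rw [div_le_iff₀ (by positivity)]
    nlinarith
  have hj1 : p.y < -(τ * t) → ∀ᶠ ξ in 𝓝[>] (0 : ℝ), (sp (-t) ξ p).y < τ * (sp (-t) ξ p).x := by
    intro h
    have hδ : 0 < (-(τ * t) - p.y) / τ := div_pos (by linarith) τ0
    filter_upwards [ev_sp_near (-t) _ hδ p] with ξ hξ
    have h2 : p.y < τ * (sp (-t) ξ p).x := by
      have h3 := mul_lt_mul_of_pos_left hξ.1 τ0
      have h4 : τ * (-t - (-(τ * t) - p.y) / τ) = p.y := by
        field_simp
        ring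
      linarith
    exact h2
  have hj2 : -(τ * t) < p.y → ∀ᶠ ξ in 𝓝[>] (0 : ℝ), τ * (sp (-t) ξ p).x < (sp (-t) ξ p).y := by
    intro h
    have hδ : 0 < (p.y + τ * t) / τ := div_pos (by linarith) τ0
    filter_upwards [ev_sp_near (-t) _ hδ p] with ξ hξ
    have h2 : τ * (sp (-t) ξ p).x < p.y := by
      have h3 := mul_lt_mul_of_pos_left hξ.2 τ0
      have h4 : τ * (-t + (p.y + τ * t) / τ) = p.y := by
        field_simp
        ring
      linarith
    exact h2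
  have hJ : ∀ᶠ ξ in 𝓝[>] (0 : ℝ),
      (j ∉ i :: w → (sp (-t) ξ p).y < τ * (sp (-t) ξ p).x ∨ H < (sp (-t) ξ p).y) ∧
      (j ∈ i :: w → τ * (sp (-t) ξ p).x < (sp (-t) ξ p).y ∧ (sp (-t) ξ p).y < η) := by
    by_cases hjw : j ∈ w
    · have h1 := hp.j_in hjw
      filter_upwards [hj2 h1.1] with ξ hξ
      refine ⟨fun h => absurd (List.mem_cons_of_mem _ hjw) h, fun _ => ⟨hξ, h1.2⟩⟩
    · have hjn : j ∉ i :: w := by
        intro h
        rcases List.mem_cons.1 h with h | h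
        · exact hij h.symm
        · exact hjw h
      rcases hp.j_out hjw with h1 | h1
      · filter_upwards [hj1 h1] with ξ hξ
        exact ⟨fun _ => Or.inl hξ, fun h => absurd h hjn⟩
      · filter_upwards with ξ
        exact ⟨fun _ => Or.inr h1, fun h => absurd h hjn⟩
  filter_upwards [ev_sp_lo (-t) (-N') p hp.lo_neg, ev_sp_hi (-t) N p hp.hi_pos,
    ev_sp_hi (-t) S p hp.hi_pos, ev_sp_near (-t) (η / 4) (by linarith) p, hJ] with ξ h1 h2 h3 h4 h5
  have hx1 : -t - η / 4 < (sp (-t) ξ p).x := h4.1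
  have hx2 : (sp (-t) ξ p).x < -t + η / 4 := h4.2
  refine ⟨h1, h2, by linarith, by linarith, ?_, ?_, ?_, fun _ => h3, ?_, ?_, h5.1, h5.2⟩
  · show -η < p.y
    linarith
  · show p.y ≤ hm
    linarith
  · intro h
    exact absurd List.mem_cons_self h
  · intro h
    exact hp.k_out (fun h' => h (List.mem_cons_of_mem _ h'))
  · intro h
    rcases List.mem_cons.1 h with h | h
    · exact absurd h.symm hik
    · exact hp.k_in h

end Pool.Agent.Lib.H32S
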