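import Pool.Agent.Lib.H32S.B3
import Pool.Agent.Lib.H32S.S4D

set_option autoImplicit false

open Filter Topology

namespace Pool.Agent.Lib.H32S

/-- `u = ⟨-t - ξ, hm, -Λ, 2N⟩` has the coordinates of `sp (-t) ξ ⟨-1, hm, 0, 0⟩`, so
`sl u (sp (-t) ξ p) = s/ξ` with `s = sl p ⟨-1, hm, 0, 0⟩`.
`i ∉ w`: `Ou s p`, so `Ou (s/ξ) (sp (-t) ξ p)`: `AD`, for every `Λ`.  `i ∈ w`: `In s p` gives
`In (s/ξ) (sp (-t) ξ p)`; moreover `s = (hm - p.y)/(-1 - p.x) < 0` (`p.y ≤ hm/(8K) < hm`,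
`-1 < p.x`), so `s/ξ < 0 < 2N`, and `-Λ < s/ξ` for large `Λ` (`eventually_gt_atTop`). -/
theorem s4_vertex (K S τ N N' H hm η t ξ : ℝ) (P4 : Par4 K S τ N N' H hm η t) (i j k : Fin 3)
    (w : W) (p : Q4) (hξ : 0 < ξ) (hp : C3 i j k hm (hm / (8 * K)) H (τ * t) η w p) :
    ∀ᶠ Λ in (atTop : Filter ℝ), (i ∉ w → AD ⟨-t - ξ, hm, -Λ, 2 * N⟩ (sp (-t) ξ p)) ∧
      (i ∈ w → NA ⟨-t - ξ, hm, -Λ, 2 * N⟩ (sp (-t) ξ p)) := by
  have hK := P4.K1
  have hm0 := P4.hm0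
  have hN : 0 < N := P4.τ0.trans_le P4.τN
  have hx : 0 < 1 + p.x := by linarith [hp.x_gt]
  have hK0 : (0 : ℝ) < 8 * K := by linarith
  have hy : p.y < hm := by
    have h1 : hm / (8 * K) < hm := by
      rw [div_lt_iff₀ hK0]
      nlinarith
    exact hp.y_le.trans_lt h1
  have e : ∀ Λ : ℝ, sl ⟨-t - ξ, hm, -Λ, 2 * N⟩ (sp (-t) ξ p) = sl p ⟨-1, hm, 0, 0⟩ / ξ := by
    intro Λ
    show (p.y - hm) / (-t + ξ * p.x - (-t - ξ)) = (hm - p.y) / (-1 - p.x) / ξ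
    have h1 : -t + ξ * p.x - (-t - ξ) = ξ * (1 + p.x) := by ring
    have h2 : -1 - p.x = -(1 + p.x) := by ring
    rw [h1, h2]
    have hx' := hx.ne'
    have hξ' := hξ.ne'
    field_simp
    ring
  have hs : sl p ⟨-1, hm, 0, 0⟩ < 0 := by
    show (hm - p.y) / (-1 - p.x) < 0
    exact div_neg_of_pos_of_neg (by linarith) (by linarith)
  have hne : -t - ξ ≠ -t + ξ * p.x := by
    intro h1
    have h2 : ξ * (1 + p.x) = 0 := by linarith
    have h3 := mul_pos hξ hx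
    linarith
  filter_upwards [eventually_gt_atTop (-(sl p ⟨-1, hm, 0, 0⟩ / ξ))] with Λ hΛ
  constructor
  · intro hi
    refine ⟨hne, Or.inr ?_⟩
    rw [e]
    rcases hp.i_out hi with h1 | h1
    · left
      show sl p ⟨-1, hm, 0, 0⟩ / ξ < p.lo / ξ
      exact div_lt_div_of_pos_right h1 hξ
    · right
      show p.hi / ξ < sl p ⟨-1, hm, 0, 0⟩ / ξ
      exact div_lt_div_of_pos_right h1 hξ
  · intro hi
    obtain ⟨h1, h2⟩ := hp.i_in hi
    refine ⟨hne, ?_, ?_⟩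
    · rw [e]
      have h3 : sl p ⟨-1, hm, 0, 0⟩ / ξ < 0 := div_neg_of_neg_of_pos hs hξ
      refine ⟨?_, ?_⟩
      · show -Λ < sl p ⟨-1, hm, 0, 0⟩ / ξ
        linarith
      · show sl p ⟨-1, hm, 0, 0⟩ / ξ < 2 * N
        linarith
    · rw [e]
      exact ⟨div_lt_div_of_pos_right h1 hξ, div_lt_div_of_pos_right h2 hξ⟩

/-- The vertex itself: `i_out`: `2 N < S` (`S ≥ 16 N`, `N > 0`); `j_out`: `H < hm` (right
alternative); `-η < -t - ξ`: `ξ < t`, `2 t ≤ η`; the rest immediate. -/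
theorem s4_u_C4 (K S τ N N' H hm η t ξ Λ : ℝ) (P4 : Par4 K S τ N N' H hm η t) (i j k : Fin 3)
    (hξ : 0 < ξ) (hξt : ξ < t) (hΛ : N' < Λ) :
    C4 i j k S τ N N' H hm η [] ⟨-t - ξ, hm, -Λ, 2 * N⟩ := by
  have hK := P4.K1
  have hm0 := P4.hm0
  have hH := P4.H0
  have hHm := P4.Hm
  have hη := P4.η0
  have hN : 0 < N := P4.τ0.trans_le P4.τN
  have hSN := P4.SN
  have ht := P4.t0
  have htη := P4.tη
  have hmH : H < hm := by nlinarith
  have hS : 2 * N < S := by nlinarith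
  refine ⟨?_, ?_, ?_, ?_, ?_, le_refl _, fun _ => hS, fun h1 => ?_, fun _ => hm0, fun h1 => ?_,
    fun _ => Or.inr hmH, fun h1 => ?_⟩
  · show -Λ < -N'
    linarith
  · show N < 2 * N
    linarith
  · show -η < -t - ξ
    linarith
  · show -t - ξ < η
    linarith
  · show -η < hm
    linarith
  · simp at h1
  · simp at h1
  · simp at h1

end Pool.Agent.Lib.H32S
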