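import Pool.Agent.Lib.H32S.B2
import Pool.Agent.Lib.H32S.B6
import Pool.Agent.Lib.H32S.B9
import Pool.Agent.Lib.H32S.S4S
import Pool.Agent.Lib.H32S.S4X
import Pool.Agent.Lib.H32S.S4A
import Pool.Agent.Lib.H32S.S4B

set_option autoImplicit false

open Filter Topology

namespace Pool.Agent.Lib.H32S

/-- Given the parameters, `t` from `par4_exists` (`(8K+8) N ≤ S`, `8 K H ≤ hm`).  Let `C` be the
placement of `hT3 i j k` with `h := hm`, `hm := hm/(8K)`, `H`, `c = τ t`, `η` (`K3 H ≤ hm/(8K)`,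
`2 (hm/(8K)) ≤ hm`, `τ t ≤ H`).
Choose `0 < ξ < t` (`ev_lt`, `ev_all`, `ev_ex`) with `s4_site_A`, `s4_site_B`, `s4_strip_C4` for all
words of length `< d`.  Choose `Λ` with `s4_vertex` for all words and
`Λ > hm/(t + ξ - t/100)`, `Λ > (hm + τt/50)/(t + ξ - t/50)`, `Λ > N'`.
`PA` from `hT2 i j k` with `S`, `Q = hm/(t + ξ - t/100)`; `PB` from `hT2 k i j` with
`S = (hm + τt/50)/(t + ξ - t/50) + τ`, `Q = S - τ`.
Choose `ε > 0` with `s4_A_u`, `s4_A_C4`, `s4_B_u`, `s4_B_C4` and all cross conditions: strip against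
`A` by `ev_up_Sup` (`m = hm/(2Kt) ≤ hm/(t+ξ-t/100)/K`, `M = S/K`), strip against `B` by `ev_dn_Sdn`
(`m = (S-τ)/K`, `M = hm/(2Kt) ≤ ((hm + τt/50)/(t+ξ-t/50) + τ)/K`), `A` against `B` by `ev_up_dn`
(`a = -(t/100)`, `b = 0`, `a' = -(t/50)`, `b' = -(τt/50)`, `s = τ`: the limit slope is
`(-(τt/50))/(-(t/100)) = 2τ`; `-hm/(2Kt) < 2τ < S/K`, `τ - hm/(2Kt) < 2τ < τ + (S - τ)/K`).
`P = join i j ⟨-t-ξ, hm, -Λ, 2N⟩ (fun w => sp (-t) ξ (C w)) (fun w => up (-(t/100)) 0 ε (PA w))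
(fun w => dn (-(t/50)) (-(τt/50)) τ ε (PB w))` with `rep_join` and `join_side`. -/
theorem T4_succ (d : ℕ) (K K3 : ℝ) (h1 : 1 ≤ K) (h2 : 1 ≤ K3) (hT2 : T2 d K) (hT3 : T3 d K3) :
    T4 (d + 1) (8 * K * K3 + 8 * K + 8) := by
  intro i j k hij hik hjk S τ N N' H hm η τ0 τN N'0 H0 η0 hSN hHm
  have hK0 : 0 < K := by linarith
  have hK30 : 0 < K3 := by linarith
  have hN0 : 0 < N := lt_of_lt_of_le τ0 τN
  have hKK : 0 < K * K3 := mul_pos hK0 hK30
  have hSN' : (8 * K + 8) * N ≤ S := by nlinarith [mul_pos hKK hN0]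
  have hHm' : 8 * K * H ≤ hm := by nlinarith [mul_pos hKK H0, mul_pos hK0 H0]
  obtain ⟨t, P4⟩ := par4_exists K S τ N N' H hm η h1 τ0 τN N'0 H0 η0 hSN' hHm'
  have t0 : 0 < t := P4.t0
  have hm0 : 0 < hm := P4.hm0
  have hKS : (8 * K + 8) * τ ≤ S :=
    le_trans (mul_le_mul_of_nonneg_left τN (by positivity)) hSN'
  have hKτ : 0 < K * τ := mul_pos hK0 τ0
  have hS0 : 0 < S := by nlinarith
  have hSτ : K * τ < S - τ := by nlinarith
  have h8K : (0 : ℝ) < 8 * K := by positivity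
  -- the strip
  have hc1 : K3 * H ≤ hm / (8 * K) := by
    rw [le_div_iff₀ h8K]
    nlinarith [mul_pos hK0 H0]
  have hc2 : 2 * (hm / (8 * K)) ≤ hm := by
    have h3 : hm / (8 * K) ≤ hm / 8 := by
      apply div_le_div_of_nonneg_left hm0.le (by norm_num)
      linarith
    linarith
  obtain ⟨C, hCR, hC⟩ := hT3 i j k hij hik hjk hm (hm / (8 * K)) H (τ * t) η H0
    (mul_pos τ0 t0) η0 P4.τtH hc1 hc2
  obtain ⟨ξ, hξ, ⟨hξ0, hξt⟩, hξA, hξB, hξC⟩ := ev_ex ((ev_lt t t0).and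
    ((ev_all d (fun w hw => s4_site_A K S τ N N' H hm η t P4 i j k w (C w) (hC w hw))).and
    ((ev_all d (fun w hw => s4_site_B K S τ N N' H hm η t P4 i j k w (C w) (hC w hw))).and
    (ev_all d (fun w hw => s4_strip_C4 K S τ N N' H hm η t P4 i j k hij hik w (C w)
      (hC w hw))))))
  have hA0 : 0 < t + ξ - t / 100 := by linarith
  have hB0 : 0 < t + ξ - t / 50 := by linarith
  have hτt : 0 < τ * t := mul_pos τ0 t0
  -- the vertex
  obtain ⟨Λ, ⟨⟨⟨hΛv, hΛA⟩, hΛB⟩, hΛN⟩⟩ := ((((ev_all d (fun w hw =>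
    s4_vertex K S τ N N' H hm η t ξ P4 i j k w (C w) hξ0 (hC w hw))).and
    (eventually_gt_atTop (hm / (t + ξ - t / 100)))).and
    (eventually_gt_atTop ((hm + τ * t / 50) / (t + ξ - t / 50)))).and
    (eventually_gt_atTop N')).exists
  have hQA0 : 0 < hm / (t + ξ - t / 100) := div_pos hm0 hA0
  have hD0 : 0 < (hm + τ * t / 50) / (t + ξ - t / 50) := div_pos (by linarith) hB0
  have hSτ0 : 0 < S - τ := by linarith
  obtain ⟨PA, hAR, hA⟩ := hT2 i j k hij hik hjk S (hm / (t + ξ - t / 100)) hS0 hQA0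
  obtain ⟨PB, hBR, hB⟩ := hT2 k i j hik.symm hjk.symm hij
    ((hm + τ * t / 50) / (t + ξ - t / 50) + τ) (S - τ) (by linarith) hSτ0
  have hmA : hm / (2 * K * t) ≤ hm / (t + ξ - t / 100) / K := by
    rw [div_div]
    apply div_le_div_of_nonneg_left hm0.le (by positivity)
    nlinarith
  have hmB : hm / (2 * K * t) ≤ ((hm + τ * t / 50) / (t + ξ - t / 50) + τ) / K := by
    have h3 : hm / (2 * K * t) ≤ hm / (t + ξ - t / 50) / K := by
      rw [div_div]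
      apply div_le_div_of_nonneg_left hm0.le (by positivity)
      nlinarith
    have h4 : hm / (t + ξ - t / 50) / K ≤ ((hm + τ * t / 50) / (t + ξ - t / 50) + τ) / K := by
      apply div_le_div_of_nonneg_right _ hK0.le
      have h5 : hm / (t + ξ - t / 50) ≤ (hm + τ * t / 50) / (t + ξ - t / 50) := by
        apply div_le_div_of_nonneg_right _ hB0.le
        linarith
      linarith
    exact h3.trans h4
  have hlim : (-(τ * t / 50) - 0) / (-(t / 50) - -(t / 100)) = 2 * τ := by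
    have h3 : (-(t / 50) - -(t / 100)) ≠ 0 := by
      intro h4
      linarith
    rw [div_eq_iff h3]
    ring
  have hK1 : 1 ≤ K := h1
  have g1 : -(hm / (t + ξ - t / 100) / K) < 2 * τ := by
    have h3 : 0 < hm / (t + ξ - t / 100) / K := div_pos hQA0 hK0
    linarith
  have g2 : 2 * τ < S / K := by
    rw [lt_div_iff₀ hK0]
    nlinarith
  have g3 : τ - ((hm + τ * t / 50) / (t + ξ - t / 50) + τ) / K < 2 * τ := by
    have h3 : 0 < ((hm + τ * t / 50) / (t + ξ - t / 50) + τ) / K :=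
      div_pos (by linarith) hK0
    linarith
  have g4 : 2 * τ < τ + (S - τ) / K := by
    have h3 : τ < (S - τ) / K := by
      rw [lt_div_iff₀ hK0]
      nlinarith
    linarith
  have hne : -(t / 100) ≠ -(t / 50) := by
    intro h4
    linarith
  obtain ⟨ε, hε0, e1, e2, e3, e4, e5, e6, e7⟩ := ev_ex
    ((ev_all d (fun w hw => s4_A_u K S τ N N' H hm η t ξ Λ P4 i j k w (PA w) hξ0 hξt hΛA
      (hA w hw))).and
    ((ev_all d (fun w hw => s4_A_C4 K S τ N N' H hm η t ξ P4 i j k hij hik hjk w (PA w) hξ0 hξt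
      (hA w hw))).and
    ((ev_all d (fun w hw => s4_B_u K S τ N N' H hm η t ξ Λ P4 i j k w (PB w) hξ0 hξt hΛB
      (hB w hw))).and
    ((ev_all d (fun w hw => s4_B_C4 K S τ N N' H hm η t ξ P4 i j k hij hik hjk w (PB w) hξ0 hξt
      (hB w hw))).and
    ((ev_all2 d (fun v w hv hw => ev_up_Sup (-(t / 100)) 0 (hm / (2 * K * t)) (S / K) (PA w)
      (sp (-t) ξ (C v)) (hξA v hv) (lt_of_lt_of_le (hA w hw).lo_lt (neg_le_neg hmA))
      (hA w hw).lt_hi)).and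
    ((ev_all2 d (fun v w hv hw => ev_dn_Sdn (-(t / 50)) (-(τ * t / 50)) τ ((S - τ) / K)
      (hm / (2 * K * t)) (PB w) (sp (-t) ξ (C v)) (hξB v hv) (hB w hw).lo_lt
      (lt_of_le_of_lt hmB (hB w hw).lt_hi))).and
    (ev_all2 d (fun v w hv hw => ev_up_dn (-(t / 100)) 0 (-(t / 50)) (-(τ * t / 50)) τ
      (hm / (t + ξ - t / 100) / K) (S / K) ((S - τ) / K)
      (((hm + τ * t / 50) / (t + ξ - t / 50) + τ) / K) (PA v) (PB w) hne
      (by rw [hlim]; exact g1) (by rw [hlim]; exact g2) (by rw [hlim]; exact g3)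
      (by rw [hlim]; exact g4) (hA v hv).lo_lt (hA v hv).lt_hi (hB w hw).lo_lt
      (hB w hw).lt_hi))))))))
  refine ⟨join i j ⟨-t - ξ, hm, -Λ, 2 * N⟩ (fun w => sp (-t) ξ (C w))
    (fun w => up (-(t / 100)) 0 ε (PA w)) (fun w => dn (-(t / 50)) (-(τ * t / 50)) τ ε (PB w)),
    ?_, ?_⟩
  · exact rep_join d i j k hij hik hjk _ _ _ _ (sp_Rep d (-t) ξ hξ0 hCR)
      (up_Rep d (-(t / 100)) 0 ε hε0 hAR) (dn_Rep d (-(t / 50)) (-(τ * t / 50)) τ ε hε0 hBR)
      hΛv e1 e3 (fun v w hv hw => NA_symm (e5 v w hv hw))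
      (fun v w hv hw => NA_symm (e6 v w hv hw)) e7
  · exact join_side d i j k hij hik hjk _ _ _ _ (fun v p => C4 i j k S τ N N' H hm η v p)
      (s4_u_C4 K S τ N N' H hm η t ξ Λ P4 i j k hξ0 hξt hΛN) hξC e2 e4

end Pool.Agent.Lib.H32S
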