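import Pool.Agent.Lib.H32S.S2W
import Pool.Agent.Lib.H32S.S3
import Pool.Agent.Lib.H32S.S4

set_option autoImplicit false

namespace Pool.Agent.Lib.H32S

/-- Induction on `d`.  `d = 0`: there are no words of length `< 0`, any placement, constants `1`. -/
theorem all_T (d : ℕ) : ∃ K2 K3 K4 : ℝ, 1 ≤ K2 ∧ 1 ≤ K3 ∧ 1 ≤ K4 ∧ T2 d K2 ∧ T3 d K3 ∧ T4 d K4 := by
  induction d with
  | zero =>
    refine ⟨1, 1, 1, le_rfl, le_rfl, le_rfl, ?_, ?_, ?_⟩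
    · intro i j k _ _ _ S Q _ _
      exact ⟨fun _ => ⟨0, 0, 0, 0⟩, fun v w hv => absurd hv (Nat.not_lt_zero _),
        fun v hv => absurd hv (Nat.not_lt_zero _)⟩
    · intro i j k _ _ _ h hm H c η _ _ _ _ _ _
      exact ⟨fun _ => ⟨0, 0, 0, 0⟩, fun v w hv => absurd hv (Nat.not_lt_zero _),
        fun v hv => absurd hv (Nat.not_lt_zero _)⟩
    · intro i j k _ _ _ S τ N N' H hm η _ _ _ _ _ _ _
      exact ⟨fun _ => ⟨0, 0, 0, 0⟩, fun v w hv => absurd hv (Nat.not_lt_zero _),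
        fun v hv => absurd hv (Nat.not_lt_zero _)⟩
  | succ d ih =>
    obtain ⟨K2, K3, K4, h2, h3, h4, H2, H3, H4⟩ := ih
    refine ⟨2 * (3 * K4 ^ 2 + 2 * K2 + 2), 8 * K2 * K3, 8 * K2 * K3 + 8 * K2 + 8, ?_, ?_, ?_,
      T2_succ d K2 K4 h2 h4 H2 H4, T3_succ d K2 K3 h2 h3 H2 H3, T4_succ d K2 K3 h2 h3 H2 H3⟩
    · nlinarith
    · nlinarith
    · nlinarith

end Pool.Agent.Lib.H32S
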