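import Pool.Agent.Lib.H32S.Defs

set_option autoImplicit false

namespace Pool.Agent.Lib.H32S

/-- `(a-b)/(c-d) = (b-a)/(d-c)`: unfold sl, use `neg_div_neg_eq` or `div_eq_div_iff`; if the x
coordinates agree both sides are `_ / 0 = 0`.  E.g.
`rw [← neg_sub p.y q.y, ← neg_sub p.x q.x, neg_div_neg_eq]`. -/
theorem sl_comm (p q : Q4) : sl p q = sl q p := by
  unfold sl
  rw [← neg_sub p.y q.y, ← neg_sub p.x q.x, neg_div_neg_eq]

theorem NA_symm {p q : Q4} (h : NA p q) : NA q p := by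
  obtain ⟨h1, h2, h3⟩ := h
  refine ⟨h1.symm, ?_, ?_⟩
  · rw [sl_comm]
    exact h3
  · rw [sl_comm]
    exact h2

theorem AD_symm {p q : Q4} (h : AD p q) : AD q p := by
  obtain ⟨h1, h2⟩ := h
  refine ⟨h1.symm, ?_⟩
  rw [sl_comm]
  exact h2.symm

/-- Induction on `v` (generalizing `w`) with cases on `w`. -/
theorem A_symm : ∀ v w : W, A v w → A w v := by
  intro v
  induction v with
  | nil =>
    intro w h
    cases w with
    | nil => exact h
    | cons k w => exact h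
  | cons k v ih =>
    intro w h
    cases w with
    | nil => exact h
    | cons l w => exact ⟨h.1.symm, ih w h.2⟩

/-- `revert i j k l; decide` -/
theorem fin3 (i j k l : Fin 3) (hij : i ≠ j) (hik : i ≠ k) (hjk : j ≠ k) :
    l = i ∨ l = j ∨ l = k := by
  revert i j k l
  decide

theorem b1_i (i j : Fin 3) (u : Q4) (PI PJ PK : W → Q4) (w : W) : join i j u PI PJ PK (i :: w) = PI w := by
  simp [join]

theorem b1_j (i j : Fin 3) (hij : i ≠ j) (u : Q4) (PI PJ PK : W → Q4) (w : W) :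
    join i j u PI PJ PK (j :: w) = PJ w := by
  simp [join, hij.symm]

theorem b1_k (i j k : Fin 3) (hik : i ≠ k) (hjk : j ≠ k) (u : Q4) (PI PJ PK : W → Q4) (w : W) :
    join i j u PI PJ PK (k :: w) = PK w := by
  simp [join, hik.symm, hjk.symm]

/-- Cases on the words.  `[]`, `[]`: excluded by `v ≠ w`.  `[]`, `l :: w`: by `fin3` the letter is
`i`, `j` or `k`; unfold `join` (`simp [join, ...]`), `A [] (l :: w)` is `l ∉ w` (`Iff.rfl`), and use
`uI`, `uJ`, `uK`.  `l :: v`, `[]`: the same with `NA_symm`, `AD_symm`.  `l :: v`, `l' :: w`: if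
`l = l'` then `A` of the two is `A v w`, use `hI`, `hJ`, `hK` (`v ≠ w` because the words differ);
if `l ≠ l'` then `A` is false and `IJ`, `IK`, `JK` (or their symmetric forms) give `NA`. -/
theorem rep_join (d : ℕ) (i j k : Fin 3) (hij : i ≠ j) (hik : i ≠ k) (hjk : j ≠ k) (u : Q4)
    (PI PJ PK : W → Q4) (hI : Rep d PI) (hJ : Rep d PJ) (hK : Rep d PK)
    (uI : ∀ w : W, w.length < d → (i ∉ w → AD u (PI w)) ∧ (i ∈ w → NA u (PI w)))
    (uJ : ∀ w : W, w.length < d → (j ∉ w → AD u (PJ w)) ∧ (j ∈ w → NA u (PJ w)))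
    (uK : ∀ w : W, w.length < d → (k ∉ w → AD u (PK w)) ∧ (k ∈ w → NA u (PK w)))
    (IJ : ∀ v w : W, v.length < d → w.length < d → NA (PI v) (PJ w))
    (IK : ∀ v w : W, v.length < d → w.length < d → NA (PI v) (PK w))
    (JK : ∀ v w : W, v.length < d → w.length < d → NA (PJ v) (PK w)) :
    Rep (d + 1) (join i j u PI PJ PK) := by
  intro v w hv hw hne
  have lt : ∀ (a : Fin 3) (v : W), (a :: v).length < d + 1 → v.length < d := by
    intro a v h
    rw [List.length_cons] at h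
    omega
  rcases v with _ | ⟨a, v⟩ <;> rcases w with _ | ⟨b, w⟩
  · exact absurd rfl hne
  · have hw' := lt b w hw
    have h0 : join i j u PI PJ PK [] = u := rfl
    rw [h0]
    rcases fin3 i j k b hij hik hjk with rfl | rfl | rfl
    · rw [b1_i]
      exact ⟨(uI w hw').1, fun h => (uI w hw').2 (not_not.1 h)⟩
    · rw [b1_j _ _ hij]
      exact ⟨(uJ w hw').1, fun h => (uJ w hw').2 (not_not.1 h)⟩
    · rw [b1_k _ _ _ hik hjk]
      exact ⟨(uK w hw').1, fun h => (uK w hw').2 (not_not.1 h)⟩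
  · have hv' := lt a v hv
    have h0 : join i j u PI PJ PK [] = u := rfl
    rw [h0]
    rcases fin3 i j k a hij hik hjk with rfl | rfl | rfl
    · rw [b1_i]
      exact ⟨fun h => AD_symm ((uI v hv').1 h), fun h => NA_symm ((uI v hv').2 (not_not.1 h))⟩
    · rw [b1_j _ _ hij]
      exact ⟨fun h => AD_symm ((uJ v hv').1 h), fun h => NA_symm ((uJ v hv').2 (not_not.1 h))⟩
    · rw [b1_k _ _ _ hik hjk]
      exact ⟨fun h => AD_symm ((uK v hv').1 h), fun h => NA_symm ((uK v hv').2 (not_not.1 h))⟩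
  · have hv' := lt a v hv
    have hw' := lt b w hw
    have hsame : ∀ c : Fin 3, (c :: v : W) ≠ c :: w → v ≠ w := fun c h h' => h (by rw [h'])
    rcases fin3 i j k a hij hik hjk with ha | ha | ha <;> rcases fin3 i j k b hij hik hjk with hb | hb | hb <;>
      subst ha <;> subst hb
    · rw [b1_i, b1_i]
      have h := hI v w hv' hw' (hsame _ hne)
      exact ⟨fun hA => h.1 hA.2, fun hA => h.2 fun h' => hA ⟨rfl, h'⟩⟩
    · rw [b1_i, b1_j _ _ hij]
      exact ⟨fun hA => absurd hA.1 hij, fun _ => IJ v w hv' hw'⟩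
    · rw [b1_i, b1_k _ _ _ hik hjk]
      exact ⟨fun hA => absurd hA.1 hik, fun _ => IK v w hv' hw'⟩
    · rw [b1_j _ _ hij, b1_i]
      exact ⟨fun hA => absurd hA.1 hij.symm, fun _ => NA_symm (IJ w v hw' hv')⟩
    · rw [b1_j _ _ hij, b1_j _ _ hij]
      have h := hJ v w hv' hw' (hsame _ hne)
      exact ⟨fun hA => h.1 hA.2, fun hA => h.2 fun h' => hA ⟨rfl, h'⟩⟩
    · rw [b1_j _ _ hij, b1_k _ _ _ hik hjk]
      exact ⟨fun hA => absurd hA.1 hjk, fun _ => JK v w hv' hw'⟩
    · rw [b1_k _ _ _ hik hjk, b1_i]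
      exact ⟨fun hA => absurd hA.1 hik.symm, fun _ => NA_symm (IK w v hw' hv')⟩
    · rw [b1_k _ _ _ hik hjk, b1_j _ _ hij]
      exact ⟨fun hA => absurd hA.1 hjk.symm, fun _ => NA_symm (JK w v hw' hv')⟩
    · rw [b1_k _ _ _ hik hjk, b1_k _ _ _ hik hjk]
      have h := hK v w hv' hw' (hsame _ hne)
      exact ⟨fun hA => h.1 hA.2, fun hA => h.2 fun h' => hA ⟨rfl, h'⟩⟩

/-- Cases on `v`, `fin3`, `simp [join]`. -/
theorem join_side (d : ℕ) (i j k : Fin 3) (hij : i ≠ j) (hik : i ≠ k) (hjk : j ≠ k) (u : Q4)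
    (PI PJ PK : W → Q4) (Φ : W → Q4 → Prop) (h0 : Φ [] u)
    (hI : ∀ w : W, w.length < d → Φ (i :: w) (PI w))
    (hJ : ∀ w : W, w.length < d → Φ (j :: w) (PJ w))
    (hK : ∀ w : W, w.length < d → Φ (k :: w) (PK w)) :
    ∀ v : W, v.length < d + 1 → Φ v (join i j u PI PJ PK v) := by
  intro v hv
  rcases v with _ | ⟨a, v⟩
  · exact h0
  · have hv' : v.length < d := by
      rw [List.length_cons] at hv
      omega
    rcases fin3 i j k a hij hik hjk with rfl | rfl | rfl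
    · rw [b1_i]
      exact hI v hv'
    · rw [b1_j _ _ hij]
      exact hJ v hv'
    · rw [b1_k _ _ _ hik hjk]
      exact hK v hv'

end Pool.Agent.Lib.H32S
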