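import Pool.Agent.Lib.H32S.Defs

set_option autoImplicit false

namespace Pool.Agent.Lib.H32S

theorem b2_up_sl (a b ε : ℝ) (hε : 0 < ε) (p q : Q4) :
    sl (up a b ε p) (up a b ε q) = sl p q := by
  have h1 : (up a b ε q).y - (up a b ε p).y = ε * (q.y - p.y) := by
    simp only [up]; ring
  have h2 : (up a b ε q).x - (up a b ε p).x = ε * (q.x - p.x) := by
    simp only [up]; ring
  unfold sl
  rw [h1, h2, mul_div_mul_left _ _ hε.ne']

theorem b2_up_x (a b ε : ℝ) (hε : 0 < ε) {p q : Q4} (h : p.x ≠ q.x) :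
    (up a b ε p).x ≠ (up a b ε q).x := by
  intro h1
  apply h
  have h2 : ε * p.x = ε * q.x := by
    have h3 : a + ε * p.x = a + ε * q.x := h1
    linarith
  exact mul_left_cancel₀ hε.ne' h2

theorem b2_dn_sl (a b s ε : ℝ) (hε : 0 < ε) {p q : Q4} (h : p.x ≠ q.x) :
    sl (dn a b s ε p) (dn a b s ε q) = s - sl p q := by
  have h1 : (dn a b s ε q).y - (dn a b s ε p).y
      = ε * (s * (q.x - p.x) - (q.y - p.y)) := by
    simp only [dn]; ring
  have h2 : (dn a b s ε q).x - (dn a b s ε p).x = ε * (q.x - p.x) := by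
    simp only [dn]; ring
  have h3 : q.x - p.x ≠ 0 := fun h4 => h (by linarith)
  unfold sl
  rw [h1, h2, mul_div_mul_left _ _ hε.ne', sub_div, mul_div_cancel_right₀ _ h3]

theorem b2_dn_x (a b s ε : ℝ) (hε : 0 < ε) {p q : Q4} (h : p.x ≠ q.x) :
    (dn a b s ε p).x ≠ (dn a b s ε q).x := by
  intro h1
  apply h
  have h2 : ε * p.x = ε * q.x := by
    have h3 : a + ε * p.x = a + ε * q.x := h1
    linarith
  exact mul_left_cancel₀ hε.ne' h2

theorem b2_dn_In (a b s ε t : ℝ) {p : Q4} (h : In t p) : In (s - t) (dn a b s ε p) := by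
  obtain ⟨h1, h2⟩ := h
  refine ⟨?_, ?_⟩
  · show s - p.hi < s - t
    linarith
  · show s - t < s - p.lo
    linarith

theorem b2_dn_Ou (a b s ε t : ℝ) {p : Q4} (h : Ou t p) : Ou (s - t) (dn a b s ε p) := by
  rcases h with h | h
  · right
    show s - p.lo < s - t
    linarith
  · left
    show s - t < s - p.hi
    linarith

/-- Slopes do not change: `sl (up a b ε p) (up a b ε q) = sl p q` (cancel `ε`; `mul_div_mul_left`),
x coordinates stay different (`ε ≠ 0`), `lo` and `hi` are the same. -/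
theorem up_NA (a b ε : ℝ) (hε : 0 < ε) {p q : Q4} (h : NA p q) :
    NA (up a b ε p) (up a b ε q) := by
  obtain ⟨h1, h2, h3⟩ := h
  refine ⟨b2_up_x a b ε hε h1, ?_, ?_⟩
  · rw [b2_up_sl a b ε hε]
    exact h2
  · rw [b2_up_sl a b ε hε]
    exact h3

theorem up_AD (a b ε : ℝ) (hε : 0 < ε) {p q : Q4} (h : AD p q) :
    AD (up a b ε p) (up a b ε q) := by
  obtain ⟨h1, h2⟩ := h
  refine ⟨b2_up_x a b ε hε h1, ?_⟩
  rw [b2_up_sl a b ε hε]
  exact h2

/-- `sl (dn a b s ε p) (dn a b s ε q) = s - sl p q` if `p.x ≠ q.x`; `In`: `s - hi < s - t < s - lo`. -/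
theorem dn_NA (a b s ε : ℝ) (hε : 0 < ε) {p q : Q4} (h : NA p q) :
    NA (dn a b s ε p) (dn a b s ε q) := by
  obtain ⟨h1, h2, h3⟩ := h
  refine ⟨b2_dn_x a b s ε hε h1, ?_, ?_⟩
  · rw [b2_dn_sl a b s ε hε h1]
    exact b2_dn_In a b s ε _ h2
  · rw [b2_dn_sl a b s ε hε h1]
    exact b2_dn_In a b s ε _ h3

theorem dn_AD (a b s ε : ℝ) (hε : 0 < ε) {p q : Q4} (h : AD p q) :
    AD (dn a b s ε p) (dn a b s ε q) := by
  obtain ⟨h1, h2⟩ := h
  refine ⟨b2_dn_x a b s ε hε h1, ?_⟩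
  rw [b2_dn_sl a b s ε hε h1]
  rcases h2 with h2 | h2
  · left
    exact b2_dn_Ou a b s ε _ h2
  · right
    exact b2_dn_Ou a b s ε _ h2

theorem up_Rep (d : ℕ) (a b ε : ℝ) (hε : 0 < ε) {P : W → Q4} (h : Rep d P) :
    Rep d (fun w => up a b ε (P w)) := by
  intro v w hv hw hvw
  obtain ⟨h1, h2⟩ := h v w hv hw hvw
  exact ⟨fun hA => up_AD a b ε hε (h1 hA), fun hA => up_NA a b ε hε (h2 hA)⟩

theorem dn_Rep (d : ℕ) (a b s ε : ℝ) (hε : 0 < ε) {P : W → Q4} (h : Rep d P) :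
    Rep d (fun w => dn a b s ε (P w)) := by
  intro v w hv hw hvw
  obtain ⟨h1, h2⟩ := h v w hv hw hvw
  exact ⟨fun hA => dn_AD a b s ε hε (h1 hA), fun hA => dn_NA a b s ε hε (h2 hA)⟩

end Pool.Agent.Lib.H32S
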