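import Pool.Agent.Lib.H32S.Defs

set_option autoImplicit false

namespace Pool.Agent.Lib.H32S

theorem b3_sl_sp (a ξ : ℝ) (p q : Q4) : sl (sp a ξ p) (sp a ξ q) = sl p q / ξ := by
  have h : a + ξ * q.x - (a + ξ * p.x) = (q.x - p.x) * ξ := by ring
  show (q.y - p.y) / (a + ξ * q.x - (a + ξ * p.x)) = (q.y - p.y) / (q.x - p.x) / ξ
  rw [h, div_div]

theorem b3_sl_sm (a ξ : ℝ) (p q : Q4) : sl (sm a ξ p) (sm a ξ q) = -(sl p q / ξ) := by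
  have h : a - ξ * q.x - (a - ξ * p.x) = -((q.x - p.x) * ξ) := by ring
  show (q.y - p.y) / (a - ξ * q.x - (a - ξ * p.x)) = -((q.y - p.y) / (q.x - p.x) / ξ)
  rw [h, div_neg, div_div]

theorem b3_in_sp (a ξ : ℝ) (hξ : 0 < ξ) {s : ℝ} {p : Q4} (h : In s p) : In (s / ξ) (sp a ξ p) :=
  ⟨div_lt_div_of_pos_right h.1 hξ, div_lt_div_of_pos_right h.2 hξ⟩

theorem b3_in_sm (a ξ : ℝ) (hξ : 0 < ξ) {s : ℝ} {p : Q4} (h : In s p) : In (-(s / ξ)) (sm a ξ p) :=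
  ⟨neg_lt_neg (div_lt_div_of_pos_right h.2 hξ), neg_lt_neg (div_lt_div_of_pos_right h.1 hξ)⟩

theorem b3_ou_sp (a ξ : ℝ) (hξ : 0 < ξ) {s : ℝ} {p : Q4} (h : Ou s p) : Ou (s / ξ) (sp a ξ p) := by
  rcases h with h | h
  · exact Or.inl (div_lt_div_of_pos_right h hξ)
  · exact Or.inr (div_lt_div_of_pos_right h hξ)

theorem b3_ou_sm (a ξ : ℝ) (hξ : 0 < ξ) {s : ℝ} {p : Q4} (h : Ou s p) : Ou (-(s / ξ)) (sm a ξ p) := by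
  rcases h with h | h
  · exact Or.inr (neg_lt_neg (div_lt_div_of_pos_right h hξ))
  · exact Or.inl (neg_lt_neg (div_lt_div_of_pos_right h hξ))

theorem b3_ne_sp (a ξ : ℝ) (hξ : 0 < ξ) {p q : Q4} (h : p.x ≠ q.x) : (sp a ξ p).x ≠ (sp a ξ q).x := by
  intro hh
  have h1 : a + ξ * p.x = a + ξ * q.x := hh
  exact h (mul_left_cancel₀ hξ.ne' (add_left_cancel h1))

theorem b3_ne_sm (a ξ : ℝ) (hξ : 0 < ξ) {p q : Q4} (h : p.x ≠ q.x) : (sm a ξ p).x ≠ (sm a ξ q).x := by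
  intro hh
  have h1 : a - ξ * p.x = a - ξ * q.x := hh
  exact h (mul_left_cancel₀ hξ.ne' (sub_right_injective h1))

/-- `sl (sp a ξ p) (sp a ξ q) = sl p q / ξ` -/
theorem sp_NA (a ξ : ℝ) (hξ : 0 < ξ) {p q : Q4} (h : NA p q) : NA (sp a ξ p) (sp a ξ q) := by
  refine ⟨b3_ne_sp a ξ hξ h.1, ?_, ?_⟩
  · rw [b3_sl_sp]
    exact b3_in_sp a ξ hξ h.2.1
  · rw [b3_sl_sp]
    exact b3_in_sp a ξ hξ h.2.2

theorem sp_AD (a ξ : ℝ) (hξ : 0 < ξ) {p q : Q4} (h : AD p q) : AD (sp a ξ p) (sp a ξ q) := by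
  refine ⟨b3_ne_sp a ξ hξ h.1, ?_⟩
  rw [b3_sl_sp]
  rcases h.2 with h1 | h1
  · exact Or.inl (b3_ou_sp a ξ hξ h1)
  · exact Or.inr (b3_ou_sp a ξ hξ h1)

/-- `sl (sm a ξ p) (sm a ξ q) = -(sl p q / ξ)` -/
theorem sm_NA (a ξ : ℝ) (hξ : 0 < ξ) {p q : Q4} (h : NA p q) : NA (sm a ξ p) (sm a ξ q) := by
  refine ⟨b3_ne_sm a ξ hξ h.1, ?_, ?_⟩
  · rw [b3_sl_sm]
    exact b3_in_sm a ξ hξ h.2.1
  · rw [b3_sl_sm]
    exact b3_in_sm a ξ hξ h.2.2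

theorem sm_AD (a ξ : ℝ) (hξ : 0 < ξ) {p q : Q4} (h : AD p q) : AD (sm a ξ p) (sm a ξ q) := by
  refine ⟨b3_ne_sm a ξ hξ h.1, ?_⟩
  rw [b3_sl_sm]
  rcases h.2 with h1 | h1
  · exact Or.inl (b3_ou_sm a ξ hξ h1)
  · exact Or.inr (b3_ou_sm a ξ hξ h1)

theorem sp_Rep (d : ℕ) (a ξ : ℝ) (hξ : 0 < ξ) {P : W → Q4} (h : Rep d P) :
    Rep d (fun w => sp a ξ (P w)) := by
  intro v w hv hw hvw
  exact ⟨fun hA => sp_AD a ξ hξ ((h v w hv hw hvw).1 hA), fun hA => sp_NA a ξ hξ ((h v w hv hw hvw).2 hA)⟩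

theorem sm_Rep (d : ℕ) (a ξ : ℝ) (hξ : 0 < ξ) {P : W → Q4} (h : Rep d P) :
    Rep d (fun w => sm a ξ (P w)) := by
  intro v w hv hw hvw
  exact ⟨fun hA => sm_AD a ξ hξ ((h v w hv hw hvw).1 hA), fun hA => sm_NA a ξ hξ ((h v w hv hw hvw).2 hA)⟩

end Pool.Agent.Lib.H32S
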