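import Pool.Agent.Lib.H32S.Defs

set_option autoImplicit false

namespace Pool.Agent.Lib.H32S

theorem b3b_sl_mi (a : ℝ) (p q : Q4) : sl (mi a p) (mi a q) = - sl p q := by
  unfold sl mi
  simp only
  rw [show (a - q.x - (a - p.x)) = -(q.x - p.x) by ring, div_neg]

theorem b3b_sl_sc (c : ℝ) (p q : Q4) : sl (sc c p) (sc c q) = c * sl p q := by
  unfold sl sc
  simp only
  rw [show (c * q.y - c * p.y) = c * (q.y - p.y) by ring, mul_div_assoc]

theorem b3b_In_mi (a s : ℝ) (p : Q4) (h : In s p) : In (-s) (mi a p) := by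
  obtain ⟨h1, h2⟩ := h
  refine ⟨?_, ?_⟩
  · show -p.hi < -s
    linarith
  · show -s < -p.lo
    linarith

theorem b3b_Ou_mi (a s : ℝ) (p : Q4) (h : Ou s p) : Ou (-s) (mi a p) := by
  rcases h with h | h
  · right
    show -p.lo < -s
    linarith
  · left
    show -s < -p.hi
    linarith

theorem b3b_In_sc (c : ℝ) (hc : 0 < c) (s : ℝ) (p : Q4) (h : In s p) : In (c * s) (sc c p) := by
  obtain ⟨h1, h2⟩ := h
  refine ⟨?_, ?_⟩
  · show c * p.lo < c * s
    exact mul_lt_mul_of_pos_left h1 hc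
  · show c * s < c * p.hi
    exact mul_lt_mul_of_pos_left h2 hc

theorem b3b_Ou_sc (c : ℝ) (hc : 0 < c) (s : ℝ) (p : Q4) (h : Ou s p) : Ou (c * s) (sc c p) := by
  rcases h with h | h
  · left
    show c * s < c * p.lo
    exact mul_lt_mul_of_pos_left h hc
  · right
    show c * p.hi < c * s
    exact mul_lt_mul_of_pos_left h hc

/-- `sl (mi a p) (mi a q) = - sl p q` -/
theorem mi_NA (a : ℝ) {p q : Q4} (h : NA p q) : NA (mi a p) (mi a q) := by
  obtain ⟨h1, h2, h3⟩ := h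
  refine ⟨?_, ?_, ?_⟩
  · intro h
    apply h1
    have h' : a - p.x = a - q.x := h
    linarith
  · rw [b3b_sl_mi]
    exact b3b_In_mi a _ p h2
  · rw [b3b_sl_mi]
    exact b3b_In_mi a _ q h3

theorem mi_AD (a : ℝ) {p q : Q4} (h : AD p q) : AD (mi a p) (mi a q) := by
  obtain ⟨h1, h2⟩ := h
  refine ⟨?_, ?_⟩
  · intro h
    apply h1
    have h' : a - p.x = a - q.x := h
    linarith
  · rw [b3b_sl_mi]
    rcases h2 with h2 | h2
    · left
      exact b3b_Ou_mi a _ p h2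
    · right
      exact b3b_Ou_mi a _ q h2

/-- `sl (sc c p) (sc c q) = c * sl p q` -/
theorem sc_NA (c : ℝ) (hc : 0 < c) {p q : Q4} (h : NA p q) : NA (sc c p) (sc c q) := by
  obtain ⟨h1, h2, h3⟩ := h
  refine ⟨h1, ?_, ?_⟩
  · rw [b3b_sl_sc]
    exact b3b_In_sc c hc _ p h2
  · rw [b3b_sl_sc]
    exact b3b_In_sc c hc _ q h3

theorem sc_AD (c : ℝ) (hc : 0 < c) {p q : Q4} (h : AD p q) : AD (sc c p) (sc c q) := by
  obtain ⟨h1, h2⟩ := h
  refine ⟨h1, ?_⟩
  rw [b3b_sl_sc]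
  rcases h2 with h2 | h2
  · left
    exact b3b_Ou_sc c hc _ p h2
  · right
    exact b3b_Ou_sc c hc _ q h2

theorem mi_Rep (d : ℕ) (a : ℝ) {P : W → Q4} (h : Rep d P) :
    Rep d (fun w => mi a (P w)) := by
  intro v w hv hw hvw
  obtain ⟨h1, h2⟩ := h v w hv hw hvw
  exact ⟨fun hA => mi_AD a (h1 hA), fun hA => mi_NA a (h2 hA)⟩

theorem sc_Rep (d : ℕ) (c : ℝ) (hc : 0 < c) {P : W → Q4} (h : Rep d P) :
    Rep d (fun w => sc c (P w)) := by
  intro v w hv hw hvw
  obtain ⟨h1, h2⟩ := h v w hv hw hvw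
  exact ⟨fun hA => sc_AD c hc (h1 hA), fun hA => sc_NA c hc (h2 hA)⟩

/-- Fields one by one; e.g. `lo_lt` of the result is `-hi < -M'`. -/
theorem mi_C2 (i j k : Fin 3) (S Q m M : ℝ) (v : W) (p : Q4) (h : C2 j i k Q S M m v p) :
    C2 i j k S Q m M v (mi 0 p) := by
  refine ⟨?_, ?_, ?_, ?_, ?_, ?_, ?_, ?_⟩
  · show -p.hi < -m
    linarith [h.lt_hi]
  · show M < -p.lo
    linarith [h.lo_lt]
  · intro hv
    show -p.lo < S
    linarith [h.j_out hv]
  · intro hv
    show S < -p.lo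
    linarith [h.j_in hv]
  · intro hv
    show -Q < -p.hi
    linarith [h.i_out hv]
  · intro hv
    show -p.hi < -Q
    linarith [h.i_in hv]
  · intro hv
    exact h.k_out hv
  · intro hv
    exact h.k_in hv

/-- Fields one by one (`mul_lt_mul_left`). -/
theorem sc_C2 (i j k : Fin 3) (S Q m M c : ℝ) (hc : 0 < c) (v : W) (p : Q4)
    (h : C2 i j k S Q m M v p) : C2 i j k (c * S) (c * Q) (c * m) (c * M) v (sc c p) := by
  refine ⟨?_, ?_, ?_, ?_, ?_, ?_, ?_, ?_⟩
  · show c * p.lo < -(c * m)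
    have h1 := mul_lt_mul_of_pos_left h.lo_lt hc
    linarith
  · show c * M < c * p.hi
    exact mul_lt_mul_of_pos_left h.lt_hi hc
  · intro hv
    show c * p.hi < c * S
    exact mul_lt_mul_of_pos_left (h.i_out hv) hc
  · intro hv
    show c * S < c * p.hi
    exact mul_lt_mul_of_pos_left (h.i_in hv) hc
  · intro hv
    show -(c * Q) < c * p.lo
    have h1 := mul_lt_mul_of_pos_left (h.j_out hv) hc
    linarith
  · intro hv
    show c * p.lo < -(c * Q)
    have h1 := mul_lt_mul_of_pos_left (h.j_in hv) hc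
    linarith
  · intro hv
    show 0 < c * p.y
    exact mul_pos hc (h.k_out hv)
  · intro hv
    show c * p.y < 0
    exact mul_neg_of_pos_of_neg hc (h.k_in hv)

end Pool.Agent.Lib.H32S
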