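import Pool.Agent.Lib.H32S.Defs

set_option autoImplicit false

open Filter Topology

namespace Pool.Agent.Lib.H32S

theorem b7_div (c : ℝ) (h : 0 < c) : Tendsto (fun ξ : ℝ => c / ξ) (𝓝[>] (0 : ℝ)) atTop := by
  have h1 := Tendsto.const_mul_atTop h (tendsto_inv_nhdsGT_zero (𝕜 := ℝ))
  simpa [div_eq_mul_inv] using h1

/-- `p.hi / ξ → ∞` as `ξ → 0+`: for `0 < ξ < p.hi / (|C| + 1)` we have `C < p.hi / ξ`. -/
theorem ev_sp_hi (a C : ℝ) (p : Q4) (h : 0 < p.hi) : ∀ᶠ ξ in 𝓝[>] (0 : ℝ), C < (sp a ξ p).hi := by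
  have h1 := (b7_div p.hi h).eventually_gt_atTop C
  filter_upwards [h1] with ξ hξ
  exact hξ

theorem ev_sp_lo (a C : ℝ) (p : Q4) (h : p.lo < 0) : ∀ᶠ ξ in 𝓝[>] (0 : ℝ), (sp a ξ p).lo < C := by
  have h1 := (b7_div (-p.lo) (by linarith)).eventually_gt_atTop (-C)
  filter_upwards [h1] with ξ hξ
  have h2 : -p.lo / ξ = -(p.lo / ξ) := neg_div ξ p.lo
  rw [h2] at hξ
  have h3 : (sp a ξ p).lo = p.lo / ξ := rfl
  rw [h3]
  linarith

theorem b7_tend (a c : ℝ) : Tendsto (fun ξ : ℝ => a + ξ * c) (𝓝[>] (0 : ℝ)) (𝓝 a) := by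
  have h1 : Tendsto (fun ξ : ℝ => a + ξ * c) (𝓝 (0 : ℝ)) (𝓝 (a + 0 * c)) :=
    tendsto_const_nhds.add (tendsto_id.mul tendsto_const_nhds)
  rw [zero_mul, add_zero] at h1
  exact h1.mono_left nhdsWithin_le_nhds

theorem ev_sp_near (a δ : ℝ) (hδ : 0 < δ) (p : Q4) :
    ∀ᶠ ξ in 𝓝[>] (0 : ℝ), a - δ < (sp a ξ p).x ∧ (sp a ξ p).x < a + δ := by
  have h1 := b7_tend a p.x
  filter_upwards [h1.eventually_const_lt (by linarith : a - δ < a), h1.eventually_lt_const (by linarith : a < a + δ)] with ξ h2 h3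
  exact ⟨h2, h3⟩

theorem b7_slope (z a b : ℝ) (p : Q4) (hz : z ≠ a) :
    Tendsto (fun ξ : ℝ => ((sp z ξ p).y - b) / ((sp z ξ p).x - a)) (𝓝[>] (0 : ℝ)) (𝓝 ((p.y - b) / (z - a))) := by
  have h1 : Tendsto (fun ξ : ℝ => (sp z ξ p).x - a) (𝓝[>] (0 : ℝ)) (𝓝 (z - a)) :=
    (b7_tend z p.x).sub tendsto_const_nhds
  exact tendsto_const_nhds.div h1 (sub_ne_zero.mpr hz)

theorem b7_ne (z a : ℝ) (p : Q4) (hz : z ≠ a) : ∀ᶠ ξ in 𝓝[>] (0 : ℝ), (sp z ξ p).x ≠ a :=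
  (b7_tend z p.x).eventually_ne hz

theorem b7_In (z a b : ℝ) (p : Q4) (hz : z ≠ a) (hlo : p.lo < 0) (hhi : 0 < p.hi) :
    ∀ᶠ ξ in 𝓝[>] (0 : ℝ), In (((sp z ξ p).y - b) / ((sp z ξ p).x - a)) (sp z ξ p) := by
  have h1 := b7_slope z a b p hz
  filter_upwards [h1.eventually_const_lt (by linarith : (p.y - b) / (z - a) - 1 < (p.y - b) / (z - a)),
    h1.eventually_lt_const (by linarith : (p.y - b) / (z - a) < (p.y - b) / (z - a) + 1),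
    ev_sp_hi z ((p.y - b) / (z - a) + 1) p hhi, ev_sp_lo z ((p.y - b) / (z - a) - 1) p hlo] with ξ h2 h3 h4 h5
  exact ⟨h5.trans h2, h3.trans h4⟩

/-- The slope tends to `(p.y - b)/(z - a)` (`Filter.Tendsto.div`), and for small `ξ` the interval
of `sp z ξ p` contains a neighbourhood of this value (`ev_sp_hi`, `ev_sp_lo`). -/
theorem ev_sp_Sup (z a b m M : ℝ) (p : Q4) (hz : z ≠ a) (hlo : p.lo < 0) (hhi : 0 < p.hi)
    (h1 : -m < (p.y - b) / (z - a)) (h2 : (p.y - b) / (z - a) < M) :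
    ∀ᶠ ξ in 𝓝[>] (0 : ℝ), Sup a b m M (sp z ξ p) := by
  have h3 := b7_slope z a b p hz
  filter_upwards [b7_ne z a p hz, h3.eventually_const_lt h1, h3.eventually_lt_const h2, b7_In z a b p hz hlo hhi] with ξ h4 h5 h6 h7
  exact ⟨h4, h5, h6, h7⟩

theorem ev_sp_Sdn (z a b s m M : ℝ) (p : Q4) (hz : z ≠ a) (hlo : p.lo < 0) (hhi : 0 < p.hi)
    (h1 : s - M < (p.y - b) / (z - a)) (h2 : (p.y - b) / (z - a) < s + m) :
    ∀ᶠ ξ in 𝓝[>] (0 : ℝ), Sdn a b s m M (sp z ξ p) := by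
  have h3 := b7_slope z a b p hz
  filter_upwards [b7_ne z a p hz, h3.eventually_const_lt h1, h3.eventually_lt_const h2, b7_In z a b p hz hlo hhi] with ξ h4 h5 h6 h7
  exact ⟨h4, h5, h6, h7⟩

end Pool.Agent.Lib.H32S
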