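import Mathlib

set_option autoImplicit false

open Filter Topology

namespace Pool.Agent.Lib.H32S

/-- Words over three letters: addresses of the vertices inserted into a triangle. -/
abbrev W := List (Fin 3)

/-- Adjacency in the infinite stacked triangulation: the vertex with address `v` and the vertex
with address `v ++ k :: w` are adjacent iff `k` does not occur in `w`. -/
def A : W → W → Prop
  | [], [] => False
  | [], k :: w => k ∉ w
  | k :: w, [] => k ∉ w
  | k :: v, l :: w => k = l ∧ A v w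

/-- A point of the plane with an interval of slopes. -/
structure Q4 where
  x : ℝ
  y : ℝ
  lo : ℝ
  hi : ℝ

/-- slope of the line through the two points -/
noncomputable def sl (p q : Q4) : ℝ := (q.y - p.y) / (q.x - p.x)

/-- the slope `s` lies strictly inside the interval of `p` -/
def In (s : ℝ) (p : Q4) : Prop := p.lo < s ∧ s < p.hi

/-- the slope `s` lies strictly outside the interval of `p` -/
def Ou (s : ℝ) (p : Q4) : Prop := s < p.lo ∨ p.hi < s

/-- robustly non-adjacent -/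
def NA (p q : Q4) : Prop := p.x ≠ q.x ∧ In (sl p q) p ∧ In (sl p q) q

/-- robustly adjacent -/
def AD (p q : Q4) : Prop := p.x ≠ q.x ∧ (Ou (sl p q) p ∨ Ou (sl p q) q)

/-- `P` represents the part of depth `d` of the infinite stacked triangulation -/
def Rep (d : ℕ) (P : W → Q4) : Prop :=
  ∀ v w : W, v.length < d → w.length < d → v ≠ w →
    (A v w → AD (P v) (P w)) ∧ (¬ A v w → NA (P v) (P w))

/-- Condition of type T2 (in the frame of a face with corners `i`, `j`, `k`): `i` is seen at slope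
`S`, `j` at slope `-Q`, the boundary line of `k` is the x axis, everything else has slopes in
`[-m, M]`. -/
structure C2 (i j k : Fin 3) (S Q m M : ℝ) (v : W) (p : Q4) : Prop where
  lo_lt : p.lo < -m
  lt_hi : M < p.hi
  i_out : i ∉ v → p.hi < S
  i_in : i ∈ v → S < p.hi
  j_out : j ∉ v → -Q < p.lo
  j_in : j ∈ v → p.lo < -Q
  k_out : k ∉ v → 0 < p.y
  k_in : k ∈ v → p.y < 0

/-- Condition of type T3 (strip): the corner `i` is the point `(-1, h)`, the corner `k` owns the
half plane `y > 0`, the corner `j` owns `y < -c` and `y > H`; all other slopes are near `0`. -/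
structure C3 (i j k : Fin 3) (h hm H c η : ℝ) (v : W) (p : Q4) : Prop where
  lo_neg : p.lo < 0
  hi_pos : 0 < p.hi
  x_gt : -1 < p.x
  y_le : p.y ≤ hm
  y_gt : -(2 * c) < p.y
  i_out : i ∉ v → Ou (sl p ⟨-1, h, 0, 0⟩) p
  i_in : i ∈ v → In (sl p ⟨-1, h, 0, 0⟩) p
  k_out : k ∉ v → 0 < p.y
  k_in : k ∈ v → p.y < 0
  j_out : j ∉ v → p.y < -c ∨ H < p.y
  j_in : j ∈ v → -c < p.y ∧ p.y < η

/-- Condition of type T4 (crossing): the corner `i` is seen at slope `S`, the corner `k` owns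
`y > 0`, the corner `j` owns `y < τ x` and (near the y axis) `y > H`; all other slopes are in
`[-N', N]`. -/
structure C4 (i j k : Fin 3) (S τ N N' H hm η : ℝ) (v : W) (p : Q4) : Prop where
  lo_lt : p.lo < -N'
  lt_hi : N < p.hi
  lt_x : -η < p.x
  x_lt : p.x < η
  lt_y : -η < p.y
  y_le : p.y ≤ hm
  i_out : i ∉ v → p.hi < S
  i_in : i ∈ v → S < p.hi
  k_out : k ∉ v → 0 < p.y
  k_in : k ∈ v → p.y < 0
  j_out : j ∉ v → p.y < τ * p.x ∨ H < p.y
  j_in : j ∈ v → τ * p.x < p.y ∧ p.y < η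

/-- existence of T2 placements of depth `d` with gap `Γ` -/
def T2 (d : ℕ) (Γ : ℝ) : Prop :=
  ∀ i j k : Fin 3, i ≠ j → i ≠ k → j ≠ k → ∀ S Q : ℝ, 0 < S → 0 < Q →
    ∃ P : W → Q4, Rep d P ∧ ∀ v : W, v.length < d → C2 i j k S Q (Q / Γ) (S / Γ) v (P v)

/-- existence of T3 placements of depth `d` with gap `Γ` -/
def T3 (d : ℕ) (Γ : ℝ) : Prop :=
  ∀ i j k : Fin 3, i ≠ j → i ≠ k → j ≠ k → ∀ h hm H c η : ℝ, 0 < H → 0 < c → 0 < η → c ≤ H →
    Γ * H ≤ hm → 2 * hm ≤ h →
    ∃ P : W → Q4, Rep d P ∧ ∀ v : W, v.length < d → C3 i j k h hm H c η v (P v)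

/-- existence of T4 placements of depth `d` with gap `Γ` -/
def T4 (d : ℕ) (Γ : ℝ) : Prop :=
  ∀ i j k : Fin 3, i ≠ j → i ≠ k → j ≠ k → ∀ S τ N N' H hm η : ℝ, 0 < τ → τ ≤ N → 0 < N' →
    0 < H → 0 < η → Γ * N ≤ S → Γ * H ≤ hm →
    ∃ P : W → Q4, Rep d P ∧ ∀ v : W, v.length < d → C4 i j k S τ N N' H hm η v (P v)

/-- small copy at the point `(a, b)` -/
def up (a b ε : ℝ) (p : Q4) : Q4 := ⟨a + ε * p.x, b + ε * p.y, p.lo, p.hi⟩

/-- small reflected copy at the point `(a, b)` on a line of slope `s` -/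
def dn (a b s ε : ℝ) (p : Q4) : Q4 :=
  ⟨a + ε * p.x, b + ε * (s * p.x - p.y), s - p.hi, s - p.lo⟩

/-- thin strip at the vertical line `x = a` -/
noncomputable def sp (a ξ : ℝ) (p : Q4) : Q4 := ⟨a + ξ * p.x, p.y, p.lo / ξ, p.hi / ξ⟩

/-- thin reflected strip at the vertical line `x = a` -/
noncomputable def sm (a ξ : ℝ) (p : Q4) : Q4 :=
  ⟨a - ξ * p.x, p.y, -(p.hi / ξ), -(p.lo / ξ)⟩

/-- mirror image -/
def mi (a : ℝ) (p : Q4) : Q4 := ⟨a - p.x, p.y, -p.hi, -p.lo⟩

/-- vertical scaling -/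
def sc (c : ℝ) (p : Q4) : Q4 := ⟨p.x, c * p.y, c * p.lo, c * p.hi⟩

/-- a vertex and the contents of the three faces at it -/
def join (i j : Fin 3) (u : Q4) (PI PJ PK : W → Q4) : W → Q4
  | [] => u
  | l :: w => if l = i then PI w else if l = j then PJ w else PK w

/-- A site at `(a, b)`, unreflected, with range of slopes `(-m, M)`, does not interact with `q`. -/
def Sup (a b m M : ℝ) (q : Q4) : Prop :=
  q.x ≠ a ∧ -m < (q.y - b) / (q.x - a) ∧ (q.y - b) / (q.x - a) < M ∧ In ((q.y - b) / (q.x - a)) q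

/-- A site at `(a, b)`, reflected, on a line of slope `s`, with range of slopes `(s - M, s + m)`,
does not interact with `q`. -/
def Sdn (a b s m M : ℝ) (q : Q4) : Prop :=
  q.x ≠ a ∧ s - M < (q.y - b) / (q.x - a) ∧ (q.y - b) / (q.x - a) < s + m ∧
    In ((q.y - b) / (q.x - a)) q

end Pool.Agent.Lib.H32S
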