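import Pool.Agent.Lib.H32S.FDefs

set_option autoImplicit false

namespace Pool.Agent.Lib.H32S

/-- Induction on `v` (generalizing `w`), cases on `w`: `[]`, `[]`: both sides false.  `[]`, `k :: w`:
left `k ∉ w`; right: `l = k`, `s = w` in the first alternative, the second is impossible.
`k :: v`, `l :: w`: both sides are `k = l` and the statement for `v`, `w`. -/
theorem A_iff : ∀ v w : W, A v w ↔ (∃ (l : Fin 3) (s : W), w = v ++ l :: s ∧ l ∉ s) ∨
    (∃ (l : Fin 3) (s : W), v = w ++ l :: s ∧ l ∉ s) := by
  intro v
  induction v with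
  | nil =>
    intro w
    cases w with
    | nil => simp [A]
    | cons k w =>
      simp only [A, List.nil_append, List.cons.injEq]
      constructor
      · intro h
        exact Or.inl ⟨k, w, ⟨rfl, rfl⟩, h⟩
      · rintro (⟨l, s, ⟨rfl, rfl⟩, h⟩ | ⟨l, s, h, _⟩)
        · exact h
        · simp at h
  | cons k v ih =>
    intro w
    cases w with
    | nil =>
      simp only [A, List.nil_append, List.cons.injEq]
      constructor
      · intro h
        exact Or.inr ⟨k, v, ⟨rfl, rfl⟩, h⟩
      · rintro (⟨l, s, h, _⟩ | ⟨l, s, ⟨rfl, rfl⟩, h⟩)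
        · simp at h
        · exact h
    | cons l w =>
      simp only [A, ih w, List.cons_append, List.cons.injEq]
      constructor
      · rintro ⟨rfl, ⟨l, s, h1, h2⟩ | ⟨l, s, h1, h2⟩⟩
        · exact Or.inl ⟨l, s, ⟨rfl, h1⟩, h2⟩
        · exact Or.inr ⟨l, s, ⟨rfl, h1⟩, h2⟩
      · rintro (⟨a, s, ⟨h1, h2⟩, h3⟩ | ⟨a, s, ⟨h1, h2⟩, h3⟩)
        · exact ⟨h1.symm, Or.inl ⟨a, s, h2, h3⟩⟩
        · exact ⟨h1, Or.inr ⟨a, s, h2, h3⟩⟩

/-- Induction on `r`. -/
theorem cor_inr : ∀ (r q : W) (k : Fin 3), cor r k = .inr q ↔ ∃ s : W, r = s ++ k :: q ∧ k ∉ s := by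
  intro r q k
  induction r with
  | nil => simp [cor]
  | cons l r ih =>
    by_cases hk : k = l
    · subst hk
      simp only [cor, if_true, Sum.inr.injEq]
      constructor
      · rintro rfl
        exact ⟨[], by simp, by simp⟩
      · rintro ⟨s, h1, h2⟩
        cases s with
        | nil =>
          simp only [List.nil_append, List.cons.injEq, true_and] at h1
          exact h1
        | cons a s =>
          simp only [List.cons_append, List.cons.injEq] at h1
          rw [← h1.1] at h2
          simp at h2
    · simp only [cor, if_neg hk, ih]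
      constructor
      · rintro ⟨s, h1, h2⟩
        exact ⟨l :: s, by simp [h1], by simp [hk, h2]⟩
      · rintro ⟨s, h1, h2⟩
        cases s with
        | nil =>
          simp only [List.nil_append, List.cons.injEq] at h1
          exact absurd h1.1.symm hk
        | cons a s =>
          simp only [List.cons_append, List.cons.injEq] at h1
          exact ⟨s, h1.2, fun h => h2 (List.mem_cons_of_mem _ h)⟩

/-- Induction on `r`. -/
theorem cor_inl : ∀ (r : W) (k a : Fin 3), cor r k = .inl a ↔ a = k ∧ k ∉ r := by
  intro r k a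
  induction r with
  | nil =>
    simp only [cor, Sum.inl.injEq, List.not_mem_nil, not_false_eq_true, and_true]
    exact eq_comm
  | cons l r ih =>
    by_cases hk : k = l
    · subst hk
      simp [cor]
    · simp [cor, hk, ih]

end Pool.Agent.Lib.H32S
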