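import Pool.Agent.Lib.H32S.E1

set_option autoImplicit false

namespace Pool.Agent.Lib.H32S

theorem e1b_ne (r : W) (k : Fin 3) : cor r k ≠ .inr r := by
  intro h
  obtain ⟨s, h1, _⟩ := (cor_inr r r k).1 h
  have h2 := congrArg List.length h1
  rw [List.length_append, List.length_cons] at h2
  omega

theorem e1b_rev (q r s : W) (l : Fin 3) : r.reverse = q.reverse ++ l :: s ↔ r = s.reverse ++ l :: q := by
  constructor
  · intro h
    have h1 := congrArg List.reverse h
    simpa using h1
  · rintro rfl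
    simp

theorem e1b_range (q r : W) : ((.inr q : Fin 3 ⊕ W) ∈ Set.range (cor r)) ↔
    ∃ (l : Fin 3) (s : W), r.reverse = q.reverse ++ l :: s ∧ l ∉ s := by
  constructor
  · rintro ⟨k, hk⟩
    obtain ⟨s, h1, h2⟩ := (cor_inr r q k).1 hk
    refine ⟨k, s.reverse, ?_, by rwa [List.mem_reverse]⟩
    rw [e1b_rev, List.reverse_reverse]
    exact h1
  · rintro ⟨l, s, h1, h2⟩
    rw [e1b_rev] at h1
    exact ⟨l, (cor_inr r q l).2 ⟨s.reverse, h1, by rwa [List.mem_reverse]⟩⟩

/-- By `cor_inr`, `cor_inl`: if `cor r k = cor r l = inr q` with `k ≠ l` then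
`r = s ++ k :: q = s' ++ l :: q`, so by `List.append_cancel_right` type reasoning
(`s ++ [k] = s' ++ [l]` after cancelling `q`, compare last letters) `k = l`. -/
theorem cor_injective (r : W) : Function.Injective (cor r) := by
  induction r with
  | nil =>
    intro a b h
    exact Sum.inl.inj h
  | cons l r ih =>
    intro a b h
    have e : ∀ k, cor (l :: r) k = if k = l then .inr r else cor r k := fun k => rfl
    rw [e, e] at h
    by_cases ha : a = l
    · by_cases hb : b = l
      · rw [ha, hb]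
      · rw [if_pos ha, if_neg hb] at h
        exact absurd h.symm (e1b_ne r b)
    · by_cases hb : b = l
      · rw [if_neg ha, if_pos hb] at h
        exact absurd h (e1b_ne r a)
      · rw [if_neg ha, if_neg hb] at h
        exact ih h

/-- `a ∉ r.reverse ↔ a ∉ r`, `cor_inl`. -/
theorem BA_inl_iff (a : Fin 3) (r : W) :
    BA (.inl a) (.inr r.reverse) ↔ (.inl a : Fin 3 ⊕ W) ∈ Set.range (cor r) := by
  show a ∉ r.reverse ↔ _
  rw [List.mem_reverse]
  constructor
  · intro h
    exact ⟨a, (cor_inl r a a).2 ⟨rfl, h⟩⟩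
  · rintro ⟨k, hk⟩
    obtain ⟨rfl, h⟩ := (cor_inl r k a).1 hk
    exact h

/-- `A_iff` for `q.reverse`, `r.reverse`: `r.reverse = q.reverse ++ l :: s` is
`r = s.reverse ++ l :: q`, and `l ∉ s ↔ l ∉ s.reverse`; then `cor_inr`. -/
theorem A_reverse_iff (q r : W) : A q.reverse r.reverse ↔
    ((.inr q : Fin 3 ⊕ W) ∈ Set.range (cor r) ∨ (.inr r : Fin 3 ⊕ W) ∈ Set.range (cor q)) := by
  rw [A_iff, e1b_range, e1b_range]

end Pool.Agent.Lib.H32S
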