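import Pool.Agent.Lib.H32S.FDefs

set_option autoImplicit false

namespace Pool.Agent.Lib.H32S

/-- `v` is coded correctly by `φ` -/
def Code {n : ℕ} (G : SimpleGraph (Fin n)) (φ : Fin n → Fin 3 ⊕ W) (v : Fin n) : Prop :=
  (∀ h : v.val < 3, φ v = .inl ⟨v.val, h⟩) ∧
    (3 ≤ v.val → ∃ (r : W) (c : Fin 3 → Fin n), φ v = .inr r ∧ Set.range c = earlier G v ∧
      ∀ k, φ (c k) = cor r k)

theorem e2_third : ∀ x y : Fin 3, x ≠ y → ∃ l : Fin 3, x ≠ l ∧ y ≠ l ∧ ∀ k : Fin 3, k = x ∨ k = y ∨ k = l := by
  decide

/-- One step: `φ` codes all vertices `< v` correctly.  Let `E = earlier G v` (three elements, pairwise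
adjacent, all `< v`).
If all elements of `E` are `< 3`: as `E` has three elements, `E = {a | a.val < 3}`; take `r = []` and
`c k` the vertex with value `k` (`φ (c k) = inl k = cor [] k`).
Otherwise let `m` be the largest element of `E`, `3 ≤ m`.  By hypothesis `φ m = inr r'`, with
`c' : Fin 3 → Fin n`, `range c' = earlier G m`, `φ (c' k) = cor r' k`; `c'` is injective because
`(earlier G m).ncard = 3`.  The two elements `a ≠ b` of `E \ {m}` are `< m` and adjacent to `m`
(`clique`), so they are `c' x`, `c' y` with `x ≠ y`; let `l` be the third element of `Fin 3`.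
Take `r = l :: r'` and `c = Function.update c' l m`.  Then `range c = {c' x, c' y, m} = E`, and
`φ (c k) = cor r' k = cor r k` for `k ≠ l`, `φ (c l) = φ m = inr r' = cor r l`. -/
theorem code_step {n : ℕ} (G : SimpleGraph (Fin n)) (hG : IsStacked G) (φ : Fin n → Fin 3 ⊕ W)
    (v : Fin n) (hv : 3 ≤ v.val) (h : ∀ w : Fin n, w < v → Code G φ w) :
    ∃ (r : W) (c : Fin 3 → Fin n), Set.range c = earlier G v ∧ ∀ k, φ (c k) = cor r k := by
  classical
  have hfin : (earlier G v).Finite := Set.toFinite _
  have hcard := hG.three v hv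
  by_cases hall : ∀ a ∈ earlier G v, a.val < 3
  · have hn : 3 < n := lt_of_le_of_lt hv v.isLt
    have hc : ∀ k : Fin 3, k.val < n := fun k => lt_trans k.isLt hn
    refine ⟨[], fun k => ⟨k.val, hc k⟩, ?_, ?_⟩
    · have hsub : earlier G v ⊆ Set.range fun k : Fin 3 => (⟨k.val, hc k⟩ : Fin n) := by
        intro a ha
        exact ⟨⟨a.val, hall a ha⟩, rfl⟩
      have hle : (Set.range fun k : Fin 3 => (⟨k.val, hc k⟩ : Fin n)).ncard ≤ (earlier G v).ncard := by
        rw [hcard, ← Set.image_univ]
        refine (Set.ncard_image_le (Set.toFinite _)).trans ?_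
        rw [Set.ncard_univ, Nat.card_eq_fintype_card, Fintype.card_fin]
      exact (Set.eq_of_subset_of_ncard_le hsub hle (Set.toFinite _)).symm
    · intro k
      have hlt : (⟨k.val, hc k⟩ : Fin n) < v := by
        rw [Fin.lt_def]
        exact lt_of_lt_of_le k.isLt hv
      exact (h _ hlt).1 k.isLt
  · push Not at hall
    obtain ⟨a₀, ha₀, ha3⟩ := hall
    obtain ⟨m, hm, hmax⟩ := Set.exists_max_image (earlier G v) id hfin ⟨a₀, ha₀⟩
    have hm3 : 3 ≤ m.val := by
      have h1 : a₀ ≤ m := hmax a₀ ha₀
      rw [Fin.le_def] at h1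
      omega
    obtain ⟨r', c', hφm, hrange, hcor⟩ := (h m hm.1).2 hm3
    have h2 : (earlier G v \ {m}).ncard = 2 := by
      rw [Set.ncard_sdiff_singleton_of_mem hm, hcard]
    obtain ⟨a, b, hab, hE⟩ := Set.ncard_eq_two.1 h2
    have haE : a ∈ earlier G v \ {m} := by
      rw [hE]
      exact Or.inl rfl
    have hbE : b ∈ earlier G v \ {m} := by
      rw [hE]
      exact Or.inr rfl
    have key : ∀ w, w ∈ earlier G v \ {m} → w ∈ earlier G m := by
      intro w hw
      have hne : w ≠ m := hw.2
      refine ⟨lt_of_le_of_ne (hmax w hw.1) hne, hG.clique v hv m hm w hw.1 hne.symm⟩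
    have ha1 := key a haE
    have hb1 := key b hbE
    rw [← hrange] at ha1 hb1
    obtain ⟨x, hx⟩ := ha1
    obtain ⟨y, hy⟩ := hb1
    have hxy : x ≠ y := by
      rintro rfl
      exact hab (hx.symm.trans hy)
    obtain ⟨l, hxl, hyl, hall⟩ := e2_third x y hxy
    have hul : Function.update c' l m l = m := Function.update_self l m c'
    have hux : ∀ k, k ≠ l → Function.update c' l m k = c' k := fun k hk => Function.update_of_ne hk m c'
    refine ⟨l :: r', Function.update c' l m, ?_, ?_⟩
    · ext w
      constructor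
      · rintro ⟨k, rfl⟩
        rcases hall k with rfl | rfl | rfl
        · rw [hux k hxl, hx]
          exact haE.1
        · rw [hux k hyl, hy]
          exact hbE.1
        · rw [hul]
          exact hm
      · intro hw
        by_cases hwm : w = m
        · exact ⟨l, by rw [hul, hwm]⟩
        · have hw2 : w ∈ earlier G v \ {m} := ⟨hw, hwm⟩
          rw [hE] at hw2
          rcases hw2 with rfl | hw2
          · exact ⟨x, by rw [hux x hxl, hx]⟩
          · have hw3 : w = b := hw2
            exact ⟨y, by rw [hux y hyl, hy, hw3]⟩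
    · intro k
      have e : cor (l :: r') k = if k = l then .inr r' else cor r' k := rfl
      rw [e]
      by_cases hk : k = l
      · rw [if_pos hk, hk, hul]
        exact hφm
      · rw [if_neg hk, hux k hk]
        exact hcor k

end Pool.Agent.Lib.H32S
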