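import Pool.Agent.Lib.H32S.E2

set_option autoImplicit false

namespace Pool.Agent.Lib.H32S

/-- By induction on `N ≤ n`: there is `φ` with `Code G φ v` for all `v.val < N`.  Step: the new vertex
`v` of value `N`; if `N < 3` put `φ v = inl N`; otherwise `code_step` gives `r`, `c`, put
`φ' = Function.update φ v (inr r)`.  All `c k` are in `earlier G v`, so `c k < v` and
`φ' (c k) = φ (c k)`; for `w < v` the code of `w` only uses `φ` at `w` and at elements of
`earlier G w` (which are `< w < v`), so `Code G φ' w` follows from `Code G φ w`. -/
theorem exists_code {n : ℕ} (G : SimpleGraph (Fin n)) (hG : IsStacked G) :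
    ∃ φ : Fin n → Fin 3 ⊕ W, ∀ v, Code G φ v := by
  have key : ∀ N : ℕ, ∃ φ : Fin n → Fin 3 ⊕ W, ∀ v : Fin n, v.val < N → Code G φ v := by
    intro N
    induction N with
    | zero => exact ⟨fun _ => .inl 0, fun v hv => absurd hv (Nat.not_lt_zero _)⟩
    | succ N ih =>
      obtain ⟨φ, hφ⟩ := ih
      by_cases hN : N < n
      · set v : Fin n := ⟨N, hN⟩ with hv
        -- the old vertices keep their codes
        have old : ∀ x : Fin 3 ⊕ W, ∀ w : Fin n, w.val < N → Code G (Function.update φ v x) w := by
          intro x w hw
          have hwv : w < v := hw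
          obtain ⟨h1, h2⟩ := hφ w hw
          refine ⟨fun h => ?_, fun h => ?_⟩
          · rw [Function.update_of_ne (ne_of_lt hwv)]
            exact h1 h
          · obtain ⟨r, c, e1, e2, e3⟩ := h2 h
            refine ⟨r, c, ?_, e2, fun k => ?_⟩
            · rw [Function.update_of_ne (ne_of_lt hwv)]
              exact e1
            · have hc : c k ∈ earlier G w := e2 ▸ Set.mem_range_self k
              rw [Function.update_of_ne (ne_of_lt (lt_trans hc.1 hwv))]
              exact e3 k
        by_cases h3 : N < 3
        · refine ⟨Function.update φ v (.inl ⟨N, h3⟩), fun w hw => ?_⟩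
          rcases Nat.lt_succ_iff_lt_or_eq.1 hw with h | h
          · exact old _ w h
          · have hwv : w = v := Fin.ext h
            subst hwv
            refine ⟨fun h => ?_, fun h => absurd h (not_le.2 h3)⟩
            rw [Function.update_self]
        · obtain ⟨r, c, e2, e3⟩ := code_step G hG φ v (not_lt.1 h3) (fun w hw => hφ w hw)
          refine ⟨Function.update φ v (.inr r), fun w hw => ?_⟩
          rcases Nat.lt_succ_iff_lt_or_eq.1 hw with h | h
          · exact old _ w h
          · have hwv : w = v := Fin.ext h
            subst hwv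
            refine ⟨fun h => absurd h h3, fun _ => ⟨r, c, ?_, e2, fun k => ?_⟩⟩
            · rw [Function.update_self]
            · have hc : c k ∈ earlier G v := e2 ▸ Set.mem_range_self k
              rw [Function.update_of_ne (ne_of_lt hc.1)]
              exact e3 k
      · exact ⟨φ, fun v _ => hφ v (lt_of_lt_of_le v.isLt (not_lt.1 hN))⟩
  obtain ⟨φ, hφ⟩ := key n
  exact ⟨φ, fun v => hφ v v.isLt⟩

end Pool.Agent.Lib.H32S
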