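import Pool.Agent.Lib.H32S.E1B
import Pool.Agent.Lib.H32S.E2B

set_option autoImplicit false

namespace Pool.Agent.Lib.H32S

theorem e3_cor_inl_of_mem {r : W} {k a : Fin 3} (h : cor r k = .inl a) : a = k := ((cor_inl r k a).1 h).1

/-- Strong induction on `max v w` (or on `N` with `v.val < N`, `w.val < N`): suppose `φ v = φ w`.  If
one value is `< 3`, then `φ` is `inl` there and both are `< 3` and equal.  Otherwise `φ v = inr r`,
`φ w = inr r` with `c`, `c'`: `φ (c k) = cor r k = φ (c' k)`; the elements `c k < v`, `c' k < w` are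
smaller, so `c k = c' k`, hence `earlier G v = earlier G w` and `v = w` by `hG.inj`. -/
theorem code_injective {n : ℕ} (G : SimpleGraph (Fin n)) (hG : IsStacked G)
    (φ : Fin n → Fin 3 ⊕ W) (h : ∀ v, Code G φ v) : Function.Injective φ := by
  have key : ∀ N : ℕ, ∀ v w : Fin n, v.val < N → w.val < N → φ v = φ w → v = w := by
    intro N
    induction N with
    | zero => exact fun v _ hv => absurd hv (Nat.not_lt_zero _)
    | succ N ih =>
      intro v w hv hw he
      by_cases hv3 : v.val < 3
      · have h1 := (h v).1 hv3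
        by_cases hw3 : w.val < 3
        · have h2 := (h w).1 hw3
          rw [h1, h2] at he
          have h3 := Sum.inl.inj he
          exact Fin.ext (Fin.mk.inj_iff.1 h3)
        · obtain ⟨r, c, e1, -, -⟩ := (h w).2 (not_lt.1 hw3)
          rw [h1, e1] at he
          exact absurd he (by simp)
      · obtain ⟨r, c, e1, e2, e3⟩ := (h v).2 (not_lt.1 hv3)
        by_cases hw3 : w.val < 3
        · have h2 := (h w).1 hw3
          rw [e1, h2] at he
          exact absurd he (by simp)
        · obtain ⟨r', c', e1', e2', e3'⟩ := (h w).2 (not_lt.1 hw3)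
          have hr : r = r' := by
            rw [e1, e1'] at he
            exact Sum.inr.inj he
          subst hr
          have hcc : ∀ k, c k = c' k := by
            intro k
            have hk : c k ∈ earlier G v := e2 ▸ Set.mem_range_self k
            have hk' : c' k ∈ earlier G w := e2' ▸ Set.mem_range_self k
            have l1 : (c k).val < v.val := hk.1
            have l2 : (c' k).val < w.val := hk'.1
            exact ih (c k) (c' k) (by omega) (by omega) (by rw [e3 k, e3' k])
          have hE : earlier G v = earlier G w := by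
            rw [← e2, ← e2']
            exact congrArg Set.range (funext hcc)
          exact hG.inj v w (not_lt.1 hv3) (not_lt.1 hw3) hE
  intro v w he
  exact key n v w v.isLt w.isLt he

/-- If `φ w = inr r'` and `φ v = inr r` with `inr r ∈ range (cor r')` then `v < w`: `inr r = cor r' k
= φ (c' k)`, so `v = c' k` by injectivity, and `c' k ∈ earlier G w`. -/
theorem code_lt {n : ℕ} (G : SimpleGraph (Fin n)) (hG : IsStacked G)
    (φ : Fin n → Fin 3 ⊕ W) (h : ∀ v, Code G φ v) (v w : Fin n) (r' : W) (hw : φ w = .inr r')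
    (hv : φ v ∈ Set.range (cor r')) : v < w ∧ G.Adj v w := by
  have hw3 : 3 ≤ w.val := by
    by_contra hlt
    have h1 := (h w).1 (not_le.1 hlt)
    rw [hw] at h1
    exact absurd h1 (by simp)
  obtain ⟨r, c, e1, e2, e3⟩ := (h w).2 hw3
  have hr : r = r' := by
    rw [hw] at e1
    exact (Sum.inr.inj e1).symm
  subst hr
  obtain ⟨k, hk⟩ := hv
  have hvc : v = c k := code_injective G hG φ h (by rw [e3 k, hk])
  have hm : v ∈ earlier G w := by
    rw [hvc, ← e2]
    exact Set.mem_range_self k
  exact ⟨hm.1, hm.2.symm⟩

theorem e3_lt {n : ℕ} (G : SimpleGraph (Fin n)) (hG : IsStacked G)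
    (φ : Fin n → Fin 3 ⊕ W) (h : ∀ v, Code G φ v) (u v : Fin n) (huv : u < v) :
    G.Adj u v ↔ BA (rv (φ u)) (rv (φ v)) := by
  by_cases hv3 : v.val < 3
  · have hu3 : u.val < 3 := lt_trans huv hv3
    rw [(h u).1 hu3, (h v).1 hv3]
    constructor
    · intro _ hne
      exact absurd (Fin.ext (Fin.mk.inj_iff.1 hne)) (ne_of_lt huv)
    · intro _
      exact hG.base u v (ne_of_lt huv) hu3 hv3
  · obtain ⟨r, c, e1, e2, e3⟩ := (h v).2 (not_lt.1 hv3)
    have key : G.Adj u v ↔ φ u ∈ Set.range (cor r) := by
      constructor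
      · intro ha
        have hm : u ∈ earlier G v := ⟨huv, ha.symm⟩
        rw [← e2] at hm
        obtain ⟨k, hk⟩ := hm
        exact ⟨k, by rw [← hk, e3 k]⟩
      · rintro ⟨k, hk⟩
        have huc : u = c k := code_injective G hG φ h (by rw [e3 k, hk])
        have hm : u ∈ earlier G v := by
          rw [huc, ← e2]
          exact Set.mem_range_self k
        exact hm.2.symm
    rw [key]
    by_cases hu3 : u.val < 3
    · have hu := (h u).1 hu3
      rw [hu, e1]
      exact (BA_inl_iff _ r).symm
    · obtain ⟨q, c', e1', -, -⟩ := (h u).2 (not_lt.1 hu3)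
      have h1 := A_reverse_iff q r
      have h2 : ¬ ((.inr r : Fin 3 ⊕ W) ∈ Set.range (cor q)) := by
        intro hm
        have h3 := code_lt G hG φ h v u q e1' (by rw [e1]; exact hm)
        exact absurd h3.1 (not_lt.2 huv.le)
      rw [e1', e1]
      show _ ↔ A q.reverse r.reverse
      rw [h1]
      constructor
      · exact fun hh => Or.inl hh
      · rintro (hh | hh)
        · exact hh
        · exact absurd hh h2

theorem e3_BA_symm (x y : Fin 3 ⊕ W) (h : BA x y) : BA y x := by
  rcases x with a | v <;> rcases y with b | w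
  · exact fun e => h e.symm
  · exact h
  · exact h
  · show A w v
    have h1 : A v w := h
    have h2 := (A_reverse_iff v.reverse w.reverse).1 (by simpa using h1)
    have h3 := (A_reverse_iff w.reverse v.reverse).2 h2.symm
    simpa using h3

/-- Let `u < v` (the other case by symmetry of both sides; `BA` is symmetric: `A_symm` is in B1, or use
`A_reverse_iff`).  If `v.val < 3`: both are `< 3`, `G.Adj u v` by `hG.base` and `BA` of two different
`inl`.  If `3 ≤ v`: `φ v = inr r`, `range c = earlier G v`, so `G.Adj u v ↔ u ∈ range c ↔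
φ u ∈ range (cor r)` (injectivity of `φ`).  If `φ u = inl a`: `BA_inl_iff`.  If `φ u = inr q`:
`A_reverse_iff`: the alternative `inr r ∈ range (cor q)` is impossible, since by `code_lt` it would
give `v < u`. -/
theorem code_adj {n : ℕ} (G : SimpleGraph (Fin n)) (hG : IsStacked G)
    (φ : Fin n → Fin 3 ⊕ W) (h : ∀ v, Code G φ v) (u v : Fin n) (huv : u ≠ v) :
    G.Adj u v ↔ BA (rv (φ u)) (rv (φ v)) := by
  rcases lt_or_gt_of_ne huv with hlt | hlt
  · exact e3_lt G hG φ h u v hlt
  · rw [G.adj_comm, e3_lt G hG φ h v u hlt]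
    exact ⟨e3_BA_symm _ _, e3_BA_symm _ _⟩

end Pool.Agent.Lib.H32S
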