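import Pool.Agent.Lib.H32S.B4

set_option autoImplicit false

open Filter Topology

namespace Pool.Agent.Lib.H32S

/-- `o2 = ⟨-10, 0, -Λ, 0⟩` against a small copy at the origin: the slope is
`ε p.y/(10 + ε p.x)`, `10 + ε p.x > 0` for small `ε`.  `k ∉ w`: `p.y > 0`, slope `> 0 = o2.hi`: `AD`.
`k ∈ w`: `p.y < 0`, slope `< 0`, and it tends to `0`, so it is `> -Λ` and in `(p.lo, p.hi)` (which
contains `0`: `ev_up_In`) for small `ε`: `NA`. -/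
theorem f_cut (Λ : ℝ) (hΛ : 0 < Λ) (k : Fin 3) (w : W) (p : Q4) (hlo : p.lo < 0) (hhi : 0 < p.hi)
    (hout : k ∉ w → 0 < p.y) (hin : k ∈ w → p.y < 0) :
    ∀ᶠ ε in 𝓝[>] (0 : ℝ), (k ∉ w → AD ⟨-10, 0, -Λ, 0⟩ (up 0 0 ε p)) ∧
      (k ∈ w → NA ⟨-10, 0, -Λ, 0⟩ (up 0 0 ε p)) := by
  have hden : Tendsto (fun ε : ℝ => 10 + ε * p.x) (𝓝[>] (0 : ℝ)) (𝓝 (10 + 0 * p.x)) :=
    tendsto_nhdsWithin_of_tendsto_nhds ((continuous_const.add (continuous_id.mul continuous_const)).tendsto (0 : ℝ))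
  have hnum : Tendsto (fun ε : ℝ => ε * p.y) (𝓝[>] (0 : ℝ)) (𝓝 (0 * p.y)) :=
    tendsto_nhdsWithin_of_tendsto_nhds ((continuous_id.mul continuous_const).tendsto (0 : ℝ))
  have h10 : (10 : ℝ) + 0 * p.x ≠ 0 := by
    rw [zero_mul, add_zero]
    norm_num
  have hf := hnum.div hden h10
  have e0 : 0 * p.y / (10 + 0 * p.x) = (0 : ℝ) := by
    rw [zero_mul, zero_div]
  rw [e0] at hf
  have hf' : Tendsto (fun ε : ℝ => ε * p.y / (10 + ε * p.x)) (𝓝[>] (0 : ℝ)) (𝓝 0) := hf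
  have hden' : ∀ᶠ ε in 𝓝[>] (0 : ℝ), 0 < 10 + ε * p.x := by
    refine hden.eventually (eventually_gt_nhds ?_)
    rw [zero_mul, add_zero]
    norm_num
  filter_upwards [hden', hf'.eventually (eventually_gt_nhds (show -Λ < 0 by linarith)), hf'.eventually (eventually_gt_nhds hlo),
    hf'.eventually (eventually_lt_nhds hhi), self_mem_nhdsWithin] with ε h1 h2 h3 h4 h5
  have hε : (0 : ℝ) < ε := h5
  have hne : (-10 : ℝ) ≠ 0 + ε * p.x := by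
    intro h
    linarith
  have hsl : sl ⟨-10, 0, -Λ, 0⟩ (up 0 0 ε p) = ε * p.y / (10 + ε * p.x) := by
    show (0 + ε * p.y - 0) / (0 + ε * p.x - -10) = ε * p.y / (10 + ε * p.x)
    congr 1
    · ring
    · ring
  refine ⟨fun h => ?_, fun h => ?_⟩
  · refine ⟨hne, Or.inl (Or.inr ?_)⟩
    rw [hsl]
    exact div_pos (mul_pos hε (hout h)) h1
  · refine ⟨hne, ?_, ?_⟩
    · rw [hsl]
      exact ⟨h2, div_neg_of_neg_of_pos (mul_neg_of_pos_of_neg hε (hin h)) h1⟩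
    · rw [hsl]
      exact ⟨h3, h4⟩

end Pool.Agent.Lib.H32S
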