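import Pool.Agent.Lib.H32S.FDefs
import Pool.Agent.Lib.H32S.B1
import Pool.Agent.Lib.H32S.B2
import Pool.Agent.Lib.H32S.B4
import Pool.Agent.Lib.H32S.F0
import Pool.Agent.Lib.H32S.B9

set_option autoImplicit false

open Filter Topology

namespace Pool.Agent.Lib.H32S

/-- the three outer nodes -/
noncomputable def f1_out (S : ℝ) (i : Fin 3) : Q4 :=
  if i = 0 then ⟨1, S, 1, 2 * S⟩ else if i = 1 then ⟨-1, S, -(2 * S), -1⟩ else ⟨-10, 0, -1, 0⟩

theorem f1_out0 (S : ℝ) : f1_out S 0 = ⟨1, S, 1, 2 * S⟩ := rfl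

theorem f1_out1 (S : ℝ) : f1_out S 1 = ⟨-1, S, -(2 * S), -1⟩ := rfl

theorem f1_out2 (S : ℝ) : f1_out S 2 = ⟨-10, 0, -1, 0⟩ := rfl

theorem f1_outer (S : ℝ) (hS : 1 < S) (i j : Fin 3) (hij : i ≠ j) : AD (f1_out S i) (f1_out S j) := by
  have h01 : AD (f1_out S 0) (f1_out S 1) := by
    rw [f1_out0, f1_out1]
    refine ⟨by norm_num, Or.inl (Or.inl ?_)⟩
    unfold sl
    norm_num
  have h02 : AD (f1_out S 0) (f1_out S 2) := by
    rw [f1_out0, f1_out2]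
    refine ⟨by norm_num, Or.inr (Or.inr ?_)⟩
    unfold sl
    show (0 : ℝ) < (0 - S) / (-10 - 1)
    have h : (0 - S) / (-10 - 1) = S / 11 := by ring
    rw [h]
    positivity
  have h12 : AD (f1_out S 1) (f1_out S 2) := by
    rw [f1_out1, f1_out2]
    refine ⟨by norm_num, Or.inr (Or.inr ?_)⟩
    unfold sl
    show (0 : ℝ) < (0 - S) / (-10 - -1)
    have h : (0 - S) / (-10 - -1) = S / 9 := by ring
    rw [h]
    positivity
  fin_cases i <;> fin_cases j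
  · exact absurd rfl hij
  · exact h01
  · exact h02
  · exact AD_symm h01
  · exact absurd rfl hij
  · exact h12
  · exact AD_symm h02
  · exact AD_symm h12
  · exact absurd rfl hij

/-- From `T2 d Γ`, `Γ ≥ 1`: let `S = 2Γ`, placement `P` of `hT i=0 j=1 k=2` with `S = Q = 2Γ`
(`m = M = 2`).  Outer points `o0 = ⟨1, S, 1, 2S⟩`, `o1 = ⟨-1, S, -2S, -1⟩`, `o2 = ⟨-10, 0, -1, 0⟩`.
`R (inl 0) = o0`, `R (inl 1) = o1`, `R (inl 2) = o2`, `R (inr w) = up 0 0 ε (P w)` with `ε` small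
(`ev_ex`, `ev_all`).  Outer pairs: slope `o0 o1` is `0 < 1 = o0.lo`; slope `o0 o2 = S/11 > 0 = o2.hi`;
slope `o1 o2 = S/9 > 0`.  `o0` against `up 0 0 ε (P w)`: slope tends to `S`; `0 ∉ w`: `p.hi < S`
(`ev_up_AD`); `0 ∈ w`: `S < p.hi`, `p.lo < -2 < S`, and `1 < S < 2S` (`ev_up_NA`).  `o1`: slope tends
to `-S`, the same way.  `o2`: `f_cut`.  Two inner vertices: `up_Rep`.  Intervals are non-degenerate
(`lo < -2 < 2 < hi` for inner vertices). -/
theorem final_rep (d : ℕ) (Γ : ℝ) (hΓ : 1 ≤ Γ) (hT : T2 d Γ) :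
    ∃ R : Fin 3 ⊕ W → Q4, (∀ a, Dom d a → (R a).lo < (R a).hi) ∧
      ∀ a b, Dom d a → Dom d b → a ≠ b → (BA a b → AD (R a) (R b)) ∧ (¬ BA a b → NA (R a) (R b)) := by
  obtain ⟨P, hP, hC⟩ := hT 0 1 2 (by decide) (by decide) (by decide) (2 * Γ) (2 * Γ) (by linarith) (by linarith)
  have hΓ0 : Γ ≠ 0 := by linarith
  have e2 : 2 * Γ / Γ = 2 := by field_simp
  simp only [e2] at hC
  have h0 : ∀ᶠ ε in 𝓝[>] (0 : ℝ), ∀ w : W, w.length < d →
      ((0 : Fin 3) ∉ w → AD (up 0 0 ε (P w)) (f1_out (2 * Γ) 0)) ∧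
      ((0 : Fin 3) ∈ w → NA (up 0 0 ε (P w)) (f1_out (2 * Γ) 0)) := by
    refine ev_all d fun w hw => ?_
    have c := hC w hw
    have hlo := c.lo_lt
    rw [f1_out0]
    have hs : ((2 * Γ) - 0) / ((1 : ℝ) - 0) = 2 * Γ := by ring
    by_cases h : (0 : Fin 3) ∈ w
    · have h1 := c.i_in h
      filter_upwards [ev_up_NA 0 0 (P w) ⟨1, 2 * Γ, 1, 2 * (2 * Γ)⟩ one_ne_zero
        (by show In (((2 * Γ) - 0) / ((1 : ℝ) - 0)) (P w); rw [hs]; exact ⟨by linarith, h1⟩)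
        (by
          show In (((2 * Γ) - 0) / ((1 : ℝ) - 0)) ⟨1, 2 * Γ, 1, 2 * (2 * Γ)⟩
          rw [hs]
          exact ⟨by show (1 : ℝ) < 2 * Γ; linarith, by show 2 * Γ < 2 * (2 * Γ); linarith⟩)] with ε hε
      exact ⟨fun h' => absurd h h', fun _ => hε⟩
    · have h1 := c.i_out h
      filter_upwards [ev_up_AD 0 0 (P w) ⟨1, 2 * Γ, 1, 2 * (2 * Γ)⟩ one_ne_zero
        (by show Ou (((2 * Γ) - 0) / ((1 : ℝ) - 0)) (P w); rw [hs]; exact Or.inr h1)] with ε hε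
      exact ⟨fun _ => hε, fun h' => absurd h' h⟩
  have h1 : ∀ᶠ ε in 𝓝[>] (0 : ℝ), ∀ w : W, w.length < d →
      ((1 : Fin 3) ∉ w → AD (up 0 0 ε (P w)) (f1_out (2 * Γ) 1)) ∧
      ((1 : Fin 3) ∈ w → NA (up 0 0 ε (P w)) (f1_out (2 * Γ) 1)) := by
    refine ev_all d fun w hw => ?_
    have c := hC w hw
    have hhi := c.lt_hi
    rw [f1_out1]
    have hs : ((2 * Γ) - 0) / ((-1 : ℝ) - 0) = -(2 * Γ) := by ring
    have hne : (-1 : ℝ) ≠ 0 := by norm_num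
    by_cases h : (1 : Fin 3) ∈ w
    · have h1 := c.j_in h
      filter_upwards [ev_up_NA 0 0 (P w) ⟨-1, 2 * Γ, -(2 * (2 * Γ)), -1⟩ hne
        (by show In (((2 * Γ) - 0) / ((-1 : ℝ) - 0)) (P w); rw [hs]; exact ⟨h1, by linarith⟩)
        (by
          show In (((2 * Γ) - 0) / ((-1 : ℝ) - 0)) ⟨-1, 2 * Γ, -(2 * (2 * Γ)), -1⟩
          rw [hs]
          exact ⟨by show -(2 * (2 * Γ)) < -(2 * Γ); linarith, by show -(2 * Γ) < (-1 : ℝ); linarith⟩)] with ε hε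
      exact ⟨fun h' => absurd h h', fun _ => hε⟩
    · have h1 := c.j_out h
      filter_upwards [ev_up_AD 0 0 (P w) ⟨-1, 2 * Γ, -(2 * (2 * Γ)), -1⟩ hne
        (by show Ou (((2 * Γ) - 0) / ((-1 : ℝ) - 0)) (P w); rw [hs]; exact Or.inl h1)] with ε hε
      exact ⟨fun _ => hε, fun h' => absurd h' h⟩
  have h2 : ∀ᶠ ε in 𝓝[>] (0 : ℝ), ∀ w : W, w.length < d →
      ((2 : Fin 3) ∉ w → AD (f1_out (2 * Γ) 2) (up 0 0 ε (P w))) ∧
      ((2 : Fin 3) ∈ w → NA (f1_out (2 * Γ) 2) (up 0 0 ε (P w))) := by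
    refine ev_all d fun w hw => ?_
    have c := hC w hw
    have hlo := c.lo_lt
    have hhi := c.lt_hi
    rw [f1_out2]
    exact f_cut 1 one_pos 2 w (P w) (by linarith) (by linarith) c.k_out c.k_in
  obtain ⟨ε, hε, g0, g1, g2⟩ := ev_ex (h0.and (h1.and h2))
  have hR := up_Rep d 0 0 ε hε hP
  have key : ∀ (i : Fin 3) (w : W), w.length < d →
      (i ∉ w → AD (f1_out (2 * Γ) i) (up 0 0 ε (P w))) ∧ (i ∈ w → NA (f1_out (2 * Γ) i) (up 0 0 ε (P w))) := by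
    intro i w hw
    fin_cases i
    · exact ⟨fun h => AD_symm ((g0 w hw).1 h), fun h => NA_symm ((g0 w hw).2 h)⟩
    · exact ⟨fun h => AD_symm ((g1 w hw).1 h), fun h => NA_symm ((g1 w hw).2 h)⟩
    · exact g2 w hw
  refine ⟨Sum.elim (f1_out (2 * Γ)) (fun w => up 0 0 ε (P w)), ?_, ?_⟩
  · rintro (i | w) ha
    · show (f1_out (2 * Γ) i).lo < (f1_out (2 * Γ) i).hi
      fin_cases i
      · show (1 : ℝ) < 2 * (2 * Γ)
        linarith
      · show -(2 * (2 * Γ)) < (-1 : ℝ)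
        linarith
      · show (-1 : ℝ) < 0
        norm_num
    · have c := hC w ha
      have hlo := c.lo_lt
      have hhi := c.lt_hi
      show (P w).lo < (P w).hi
      linarith
  · rintro (i | v) (j | w) ha hb hne
    · have hij : i ≠ j := fun h => hne (by rw [h])
      exact ⟨fun _ => f1_outer (2 * Γ) (by linarith) i j hij, fun h => absurd hij h⟩
    · exact ⟨fun h => (key i w hb).1 h, fun h => (key i w hb).2 (not_not.1 h)⟩
    · exact ⟨fun h => AD_symm ((key j v ha).1 h), fun h => NA_symm ((key j v ha).2 (not_not.1 h))⟩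
    · have hvw : v ≠ w := fun h => hne (by rw [h])
      exact hR v w ha hb hvw

end Pool.Agent.Lib.H32S
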