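import Pool.Agent.Lib.H32S.Defs

set_option autoImplicit false

namespace Pool.Agent.Lib.H32S

/-- The point with abscissa `s` on the line of slope `X` and intercept `-Y`. -/
def pt (X Y s : ℝ) : ℝ × ℝ := (s, X * s - Y)

/-- copied from hand-in BipartiteRay of the same problem (file
Pool/Agent/Results/MP_ddd335_co/BipartiteRay.lean, lemma `segment_pt`) -/
theorem segment_pt (X Y a b : ℝ) (h : a ≤ b) :
    segment ℝ (pt X Y a) (pt X Y b) = {q | ∃ s, a ≤ s ∧ s ≤ b ∧ q = pt X Y s} := by
  ext q
  constructor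
  · rintro ⟨u, v, hu, hv, huv, rfl⟩
    refine ⟨u * a + v * b, ?_, ?_, ?_⟩
    · have hu' : u = 1 - v := by linarith
      have := mul_nonneg hv (sub_nonneg.2 h)
      subst hu'
      linarith
    · have hv' : v = 1 - u := by linarith
      have := mul_nonneg hu (sub_nonneg.2 h)
      subst hv'
      linarith
    · ext
      · simp [pt]
      · simp only [pt, Prod.smul_mk, smul_eq_mul, Prod.mk_add_mk]
        have : u = 1 - v := by linarith
        subst this
        ring
  · rintro ⟨s, h1, h2, rfl⟩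
    rcases eq_or_lt_of_le h with hab | hab
    · have hs : s = a := le_antisymm (hab ▸ h2) h1
      subst hs
      subst hab
      exact left_mem_segment ℝ _ _
    · refine ⟨(b - s) / (b - a), (s - a) / (b - a), ?_, ?_, ?_, ?_⟩
      · apply div_nonneg <;> linarith
      · apply div_nonneg <;> linarith
      · have : b - a ≠ 0 := by linarith
        field_simp
        ring
      · have : b - a ≠ 0 := by linarith
        ext
        · simp only [pt, Prod.smul_mk, smul_eq_mul, Prod.mk_add_mk]
          field_simp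
          ring
        · simp only [pt, Prod.smul_mk, smul_eq_mul, Prod.mk_add_mk]
          field_simp
          ring

/-- copied from BipartiteRay.lean, lemma `inter_iff` -/
theorem inter_iff (X Y a b X' Y' a' b' : ℝ) (h : a ≤ b) (h' : a' ≤ b') (hX : X < X') :
    (segment ℝ (pt X Y a) (pt X Y b) ∩ segment ℝ (pt X' Y' a') (pt X' Y' b')).Nonempty ↔
      (a ≤ (Y' - Y) / (X' - X) ∧ (Y' - Y) / (X' - X) ≤ b) ∧
      (a' ≤ (Y' - Y) / (X' - X) ∧ (Y' - Y) / (X' - X) ≤ b') := by
  have hd : 0 < X' - X := by linarith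
  rw [segment_pt X Y a b h, segment_pt X' Y' a' b' h']
  constructor
  · rintro ⟨q, ⟨s, h1, h2, rfl⟩, ⟨t, h3, h4, h5⟩⟩
    simp only [pt, Prod.mk.injEq] at h5
    obtain ⟨rfl, h6⟩ := h5
    have hs : (Y' - Y) / (X' - X) = s := by
      rw [div_eq_iff hd.ne']
      linarith
    rw [hs]
    exact ⟨⟨h1, h2⟩, h3, h4⟩
  · rintro ⟨⟨h1, h2⟩, h3, h4⟩
    refine ⟨pt X Y ((Y' - Y) / (X' - X)), ⟨_, h1, h2, rfl⟩, ⟨_, h3, h4, ?_⟩⟩
    simp only [pt, Prod.mk.injEq, true_and]
    field_simp
    ring

/-- `s v = (pt x y lo, pt x y hi)` with the entries of `R v`; the first coordinates `lo < hi` differ.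
For `u ≠ v`: `AD` or `NA` gives `x` coordinates that differ; `inter_iff` (or its mirror image, by
`Set.inter_comm`, if `(R v).x < (R u).x`; the slope is symmetric) says that the segments meet iff the
slope is in both closed intervals: false under `AD`, true under `NA`. -/
theorem seg_of_rep {V : Type} (G : SimpleGraph V) (R : V → Q4) (hlh : ∀ v, (R v).lo < (R v).hi)
    (h : ∀ u v, u ≠ v → (G.Adj u v → AD (R u) (R v)) ∧ (¬ G.Adj u v → NA (R u) (R v))) :
    ∃ s : V → (ℝ × ℝ) × (ℝ × ℝ), (∀ v, (s v).1 ≠ (s v).2) ∧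
      ∀ u v, u ≠ v → (Gᶜ.Adj u v ↔
        (segment ℝ (s u).1 (s u).2 ∩ segment ℝ (s v).1 (s v).2).Nonempty) := by
  refine ⟨fun v => (pt (R v).x (R v).y (R v).lo, pt (R v).x (R v).y (R v).hi), fun v => ?_, ?_⟩
  · intro he
    have h1 := congrArg Prod.fst he
    exact absurd h1 (hlh v).ne
  · have main : ∀ u v, u ≠ v → (R u).x < (R v).x → (¬ G.Adj u v ↔
        (segment ℝ (pt (R u).x (R u).y (R u).lo) (pt (R u).x (R u).y (R u).hi) ∩
          segment ℝ (pt (R v).x (R v).y (R v).lo) (pt (R v).x (R v).y (R v).hi)).Nonempty) := by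
      intro u v huv hx
      rw [inter_iff _ _ _ _ _ _ _ _ (hlh u).le (hlh v).le hx]
      constructor
      · intro hn
        obtain ⟨-, h1, h2⟩ := (h u v huv).2 hn
        exact ⟨⟨h1.1.le, h1.2.le⟩, h2.1.le, h2.2.le⟩
      · rintro ⟨⟨h1, h2⟩, h3, h4⟩ ha
        obtain ⟨-, h5⟩ := (h u v huv).1 ha
        have e : sl (R u) (R v) = ((R v).y - (R u).y) / ((R v).x - (R u).x) := rfl
        unfold Ou at h5
        rw [e] at h5
        rcases h5 with (h5 | h5) | (h5 | h5)
        · exact absurd h1 (not_le.2 h5)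
        · exact absurd h2 (not_le.2 h5)
        · exact absurd h3 (not_le.2 h5)
        · exact absurd h4 (not_le.2 h5)
    intro u v huv
    have hx : (R u).x ≠ (R v).x := by
      by_cases ha : G.Adj u v
      · exact ((h u v huv).1 ha).1
      · exact ((h u v huv).2 ha).1
    rw [SimpleGraph.compl_adj]
    rcases lt_or_gt_of_ne hx with h1 | h1
    · rw [← main u v huv h1]
      exact ⟨fun h => h.2, fun h => ⟨huv, h⟩⟩
    · rw [Set.inter_comm, ← main v u huv.symm h1, G.adj_comm]
      exact ⟨fun h => h.2, fun h => ⟨huv, h⟩⟩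

end Pool.Agent.Lib.H32S
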