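import Pool.Agent.Lib.H32S.Defs

set_option autoImplicit false

namespace Pool.Agent.Lib.H32S

/-- Adjacency in the infinite stacked triangulation together with the outer triangle. -/
def BA : Fin 3 ⊕ W → Fin 3 ⊕ W → Prop
  | .inl a, .inl b => a ≠ b
  | .inl a, .inr w => a ∉ w
  | .inr w, .inl a => a ∉ w
  | .inr v, .inr w => A v w

/-- the vertices of depth `< d` -/
def Dom (d : ℕ) : Fin 3 ⊕ W → Prop
  | .inl _ => True
  | .inr w => w.length < d

/-- Corners of the face in which the vertex with REVERSED address `r` was inserted (as nodes with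
reversed addresses). -/
def cor : W → Fin 3 → Fin 3 ⊕ W
  | [], k => .inl k
  | l :: r, k => if k = l then .inr r else cor r k

/-- reverse the address of a node -/
def rv : Fin 3 ⊕ W → Fin 3 ⊕ W
  | .inl a => .inl a
  | .inr w => .inr w.reverse

/-- the earlier neighbours of `v` -/
def earlier {n : ℕ} (G : SimpleGraph (Fin n)) (v : Fin n) : Set (Fin n) := {w | w < v ∧ G.Adj v w}

/-- `G` is a stacked triangulation (planar 3-tree, Apollonian network) in insertion order. -/
structure IsStacked {n : ℕ} (G : SimpleGraph (Fin n)) : Prop where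
  base : ∀ a b : Fin n, a ≠ b → a.val < 3 → b.val < 3 → G.Adj a b
  three : ∀ v : Fin n, 3 ≤ v.val → (earlier G v).ncard = 3
  clique : ∀ v : Fin n, 3 ≤ v.val → ∀ a ∈ earlier G v, ∀ b ∈ earlier G v, a ≠ b → G.Adj a b
  inj : ∀ v w : Fin n, 3 ≤ v.val → 3 ≤ w.val → earlier G v = earlier G w → v = w

end Pool.Agent.Lib.H32S
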