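import Pool.Agent.Lib.H32S.B1
import Pool.Agent.Lib.H32S.B5

set_option autoImplicit false

open Filter Topology

namespace Pool.Agent.Lib.H32S

theorem s2c_pos (G σ K2 : ℝ) (hσ : 0 < σ) (hK2 : 1 ≤ K2) (hG : 2 * K2 + 2 ≤ G) :
    0 < (G - 1) * σ / K2 ∧ 2 ≤ (G + σ) / K2 := by
  have hK : 0 < K2 := by linarith
  constructor
  · exact div_pos (mul_pos (by linarith) hσ) hK
  · rw [le_div_iff₀ hK]
    linarith

/-- The slope from `(0, 1)` to `dn b (1 - σ b) (-σ) ε p` is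
`t = (-σ b - ε σ X - ε Y)/(b + ε X) = -σ - ε Y/(b + ε X)`, where `b + ε X > 0` for small `ε`.
`k ∉ w`: `Y > 0`, so `t < -σ`: `Ou t ⟨0,1,-σ,1⟩`.
`k ∈ w`: `Y < 0`, so `-σ < t`, and `t < 1` for small `ε` (limit `-σ`).  The interval of the moving
point is `(-σ - p.hi, -σ - p.lo)` with `p.lo < -(G+σ)/K2 < 0 < (G-1)σ/K2 < p.hi`, so it contains the
limit slope `-σ` in the interior (`ev_dn_In`, with `q = ⟨0,1,-σ,1⟩`). -/
theorem s2_F_u (G σ K2 b : ℝ) (i j k : Fin 3) (w : W) (p : Q4) (hσ : 0 < σ) (hσ1 : σ ≤ 1)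
    (hK2 : 1 ≤ K2) (hG : 2 * K2 + 2 ≤ G) (hb : 0 < b)
    (hp : C2 j i k ((G - 1) * σ) (G + σ) ((G + σ) / K2) ((G - 1) * σ / K2) w p) :
    ∀ᶠ ε in 𝓝[>] (0 : ℝ), (k ∉ w → AD ⟨0, 1, -σ, 1⟩ (dn b (1 - σ * b) (-σ) ε p)) ∧
      (k ∈ w → NA ⟨0, 1, -σ, 1⟩ (dn b (1 - σ * b) (-σ) ε p)) := by
  obtain ⟨hM, hm⟩ := s2c_pos G σ K2 hσ hK2 hG
  have hhi := hp.lt_hi
  have hlo := hp.lo_lt
  have hx : (⟨0, 1, -σ, 1⟩ : Q4).x ≠ b := by
    show (0 : ℝ) ≠ b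
    exact hb.ne
  have hlim : ((⟨0, 1, -σ, 1⟩ : Q4).y - (1 - σ * b)) / ((⟨0, 1, -σ, 1⟩ : Q4).x - b) = -σ := by
    show ((1 : ℝ) - (1 - σ * b)) / (0 - b) = -σ
    rw [div_eq_iff (by linarith)]
    ring
  have e1 := ev_dn_In b (1 - σ * b) (-σ) p ⟨0, 1, -σ, 1⟩ hx (by rw [hlim]; linarith) (by rw [hlim]; linarith)
  have e2 := dn_tend b (1 - σ * b) (-σ) p ⟨0, 1, -σ, 1⟩ hx
  rw [hlim] at e2
  have e3 := e2.eventually (Iio_mem_nhds (show -σ < 1 by linarith))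
  have e4 := ev_dn_near b (1 - σ * b) (-σ) b hb p
  filter_upwards [self_mem_nhdsWithin, e1, e3, e4] with ε hε h1 h2 h3
  have hε : 0 < ε := hε
  have h4 : 0 < b + ε * p.x := by
    have h5 : b - b < b + ε * p.x := h3.1
    linarith
  have hne : (⟨0, 1, -σ, 1⟩ : Q4).x ≠ (dn b (1 - σ * b) (-σ) ε p).x := by
    show (0 : ℝ) ≠ b + ε * p.x
    exact h4.ne
  have hsl : sl ⟨0, 1, -σ, 1⟩ (dn b (1 - σ * b) (-σ) ε p) = -σ - ε * p.y / (b + ε * p.x) := by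
    show (1 - σ * b + ε * (-σ * p.x - p.y) - 1) / (b + ε * p.x - 0) = -σ - ε * p.y / (b + ε * p.x)
    rw [sub_zero, eq_sub_iff_add_eq, ← add_div, div_eq_iff h4.ne']
    ring
  refine ⟨fun hk => ⟨hne, Or.inl (Or.inl ?_)⟩, fun hk => ⟨hne, ⟨?_, ?_⟩, ?_⟩⟩
  · rw [hsl]
    show -σ - ε * p.y / (b + ε * p.x) < -σ
    have h5 : 0 < ε * p.y / (b + ε * p.x) := div_pos (mul_pos hε (hp.k_out hk)) h4
    linarith
  · rw [hsl]
    show -σ < -σ - ε * p.y / (b + ε * p.x)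
    have h5 : ε * p.y / (b + ε * p.x) < 0 := div_neg_of_neg_of_pos (mul_neg_of_pos_of_neg hε (hp.k_in hk)) h4
    linarith
  · rw [sl_comm]
    exact h2
  · rw [sl_comm]
    exact h1

/-- The interval of the new point is `(-σ - p.hi, -σ - p.lo)`.
`lo_lt`: `p.hi > (G-1)σ/K2 ≥ σ`.  `lt_hi`: `-p.lo > (G+σ)/K2 ≥ 2`, so `-σ - p.lo > 1`.
`i_out`: `i ∉ k :: w` gives `i ∉ w`, `-(G+σ) < p.lo` (second corner of `hp`).  `i_in`, `j_out`, `j_in`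
in the same way.  `k_out` does not occur; `k_in`: the `y` coordinate tends to `1 - σ b < 0`
(`ev_dn_near` with `δ = σ b - 1`). -/
theorem s2_F_C2 (G σ K2 b : ℝ) (i j k : Fin 3) (hij : i ≠ j) (hik : i ≠ k) (hjk : j ≠ k)
    (w : W) (p : Q4) (hσ : 0 < σ) (hσ1 : σ ≤ 1)
    (hK2 : 1 ≤ K2) (hG : 2 * K2 + 2 ≤ G) (hb : 1 - σ * b < 0)
    (hp : C2 j i k ((G - 1) * σ) (G + σ) ((G + σ) / K2) ((G - 1) * σ / K2) w p) :
    ∀ᶠ ε in 𝓝[>] (0 : ℝ), C2 i j k G (G * σ) (σ / 2) (1 / 2) (k :: w)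
      (dn b (1 - σ * b) (-σ) ε p) := by
  obtain ⟨hM, hm⟩ := s2c_pos G σ K2 hσ hK2 hG
  have hhi := hp.lt_hi
  have hlo := hp.lo_lt
  have e4 := ev_dn_near b (1 - σ * b) (-σ) (σ * b - 1) (by linarith) p
  filter_upwards [e4] with ε h3
  have hmi : i ∈ k :: w → i ∈ w := fun h => (List.mem_cons.1 h).resolve_left hik
  have hmj : j ∈ k :: w → j ∈ w := fun h => (List.mem_cons.1 h).resolve_left hjk
  have hni : i ∉ k :: w → i ∉ w := fun h h' => h (List.mem_cons_of_mem _ h')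
  have hnj : j ∉ k :: w → j ∉ w := fun h h' => h (List.mem_cons_of_mem _ h')
  constructor
  · show -σ - p.hi < -(σ / 2)
    linarith
  · show 1 / 2 < -σ - p.lo
    linarith
  · intro h
    show -σ - p.lo < G
    have h1 := hp.j_out (hni h)
    linarith
  · intro h
    show G < -σ - p.lo
    have h1 := hp.j_in (hmi h)
    linarith
  · intro h
    show -(G * σ) < -σ - p.hi
    have h1 := hp.i_out (hnj h)
    linarith
  · intro h
    show -σ - p.hi < -(G * σ)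
    have h1 := hp.i_in (hmj h)
    linarith
  · intro h
    exact absurd List.mem_cons_self h
  · intro _
    linarith [h3.2.2.2]

end Pool.Agent.Lib.H32S
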