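import Pool.Agent.Lib.H32S.B1

set_option autoImplicit false

namespace Pool.Agent.Lib.H32S

theorem s2f_B (σ K : ℝ) (hσ : 0 < σ) :
    σ * (1 / σ + 4 * K / σ ^ 2 + 2) = 1 + 4 * K / σ + 2 * σ := by
  field_simp

theorem s2f_K (σ K : ℝ) (hσ : 0 < σ) (hσ1 : σ ≤ 1) (hK : 1 ≤ K) : 4 * K ≤ 4 * K / σ := by
  rw [le_div_iff₀ hσ]
  nlinarith

theorem s2f_m (G σ K2 : ℝ) (hσ : 0 < σ) (hK2 : 1 ≤ K2) (hG : 2 * K2 + 2 ≤ G) :
    1 ≤ (G + σ) / K2 := by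
  rw [le_div_iff₀ (by linarith)]
  linarith

theorem s2f_M (G σ K2 : ℝ) (hσ : 0 < σ) (hK2 : 1 ≤ K2) (hG : 2 * K2 + 2 ≤ G) :
    σ ≤ (G - 1) * σ / K2 := by
  rw [le_div_iff₀ (by linarith)]
  nlinarith

/-- The point is `(-1 + X, Y)`, `|X| < η ≤ σ/10`, `-η < Y ≤ 3 K`; `b = 1/σ + 4 K/σ^2 + 2`.
The slope is `t = (Y - (1 - σ b))/(-1 + X - b) = (1 - σ b - Y)/D` with `D = b + 1 - X > b > 3`, and
`t + σ = (1 + σ - Y - σ X)/D`.
Upper bound: `1 + σ - Y - σ X < 1 + σ + η + σ η ≤ 3 < D`, so `t + σ < 1 < (G + σ)/K2`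
(`G ≥ 2 K2 + 2`).  Lower bound: `1 + σ - Y - σ X > -3 K` (since `1 > σ η`), and `D > 4 K/σ^2`, so
`t + σ > -3K/D > -(3/4) σ^2 > -σ ≥ -(G - 1) σ/K2` (`G - 1 ≥ K2`).
`In t`: `q.lo = p.lo < -N' ≤ -2 < -2σ.. < t` and `t < -σ + 1 < 3 K < p.hi`. -/
theorem s2_L_F (G σ K K2 N' η : ℝ) (i j k : Fin 3) (w : W) (p : Q4) (hσ : 0 < σ) (hσ1 : σ ≤ 1)
    (hK : 1 ≤ K) (hK2 : 1 ≤ K2) (hG : 2 * K2 + 2 ≤ G) (hN' : 2 ≤ N') (hη : 0 < η)
    (hη1 : η ≤ σ / 10) (hp : C4 i j k G 1 (3 * K) N' 3 (3 * K) η w p) :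
    Sdn (1 / σ + 4 * K / σ ^ 2 + 2) (1 - σ * (1 / σ + 4 * K / σ ^ 2 + 2)) (-σ)
      ((G + σ) / K2) ((G - 1) * σ / K2) (up (-1) 0 1 p) := by
  have e1 := s2f_B σ K hσ
  have e2 := s2f_K σ K hσ hσ1 hK
  have e3 := s2f_m G σ K2 hσ hK2 hG
  have e4 := s2f_M G σ K2 hσ hK2 hG
  have e5 : 1 ≤ 1 / σ := by
    rw [le_div_iff₀ hσ]
    linarith
  have e6 : 0 ≤ 4 * K / σ ^ 2 := by positivity
  have hB3 : 3 ≤ 1 / σ + 4 * K / σ ^ 2 + 2 := by linarith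
  generalize (1 / σ + 4 * K / σ ^ 2 + 2 : ℝ) = B at *
  have hx1 := hp.lt_x
  have hx2 := hp.x_lt
  have hy1 := hp.lt_y
  have hy2 := hp.y_le
  have hl := hp.lo_lt
  have hh := hp.lt_hi
  have hη2 : η ≤ 1 / 10 := by linarith
  have hD : 0 < B + 1 - p.x := by linarith
  have hσX1 : σ * p.x ≤ 1 / 10 := by nlinarith
  have hσX2 : -(1 / 10) ≤ σ * p.x := by nlinarith
  have ht : ((up (-1) 0 1 p).y - (1 - σ * B)) / ((up (-1) 0 1 p).x - B) =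
      (1 + σ - p.y - σ * p.x) / (B + 1 - p.x) - σ := by
    have hx : (up (-1) 0 1 p).x - B = -(B + 1 - p.x) := by
      simp only [up]
      ring
    have hy : (up (-1) 0 1 p).y - (1 - σ * B) = -(1 - σ * B - p.y) := by
      simp only [up]
      ring
    rw [hx, hy, neg_div_neg_eq]
    field_simp
    ring
  have hu : (1 + σ - p.y - σ * p.x) / (B + 1 - p.x) < 1 := by
    rw [div_lt_one hD]
    linarith
  have hlow : -σ < (1 + σ - p.y - σ * p.x) / (B + 1 - p.x) := by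
    rw [lt_div_iff₀ hD]
    have e7 : -σ * (B + 1 - p.x) = -(σ * B) - σ + σ * p.x := by ring
    rw [e7, e1]
    linarith
  refine ⟨?_, ?_, ?_, ?_, ?_⟩
  · simp only [up]
    intro h
    linarith
  · rw [ht]
    linarith
  · rw [ht]
    linarith
  · rw [ht]
    simp only [up]
    linarith
  · rw [ht]
    simp only [up]
    linarith

/-- The point is `(1/σ - X, Y)`, `|X| < η ≤ σ/10`, `-η < Y ≤ 2 (1 + 1/σ) K ≤ 4 K/σ`;
`b = 1/σ + 4 K/σ^2 + 2`.  The slope is `t = (Y - (1 - σ b))/(1/σ - X - b) = (1 - σ b - Y)/D` with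
`D = b - 1/σ + X > 4 K/σ^2 + 1`, and `t + σ = (-Y + σ X)/D`.
Upper bound: `-Y + σ X < η + σ η < 1 < D`, so `t + σ < 1 < (G + σ)/K2`.
Lower bound: `-Y + σ X > -4K/σ - σ η > -σ D`, as `σ D > 4 K/σ + σ`, so `t + σ > -σ ≥
-(G - 1) σ/K2`.
`In t`: the interval is `(-p.hi, -p.lo)`; `-p.hi < -3Kσ < -2σ < t` and `t < 1 < N' < -p.lo`. -/
theorem s2_R_F (G σ K K2 N' η : ℝ) (i j k : Fin 3) (w : W) (p : Q4) (hσ : 0 < σ) (hσ1 : σ ≤ 1)
    (hK : 1 ≤ K) (hK2 : 1 ≤ K2) (hG : 2 * K2 + 2 ≤ G) (hN' : 2 ≤ N') (hη : 0 < η)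
    (hη1 : η ≤ σ / 10)
    (hp : C4 j i k (G * σ) σ (3 * K * σ) N' (2 * (1 + 1 / σ)) (2 * (1 + 1 / σ) * K) η w p) :
    Sdn (1 / σ + 4 * K / σ ^ 2 + 2) (1 - σ * (1 / σ + 4 * K / σ ^ 2 + 2)) (-σ)
      ((G + σ) / K2) ((G - 1) * σ / K2) (mi (1 / σ) p) := by
  have e1 := s2f_B σ K hσ
  have e2 := s2f_K σ K hσ hσ1 hK
  have e3 := s2f_m G σ K2 hσ hK2 hG
  have e4 := s2f_M G σ K2 hσ hK2 hG
  have e5 : 1 ≤ 1 / σ := by
    rw [le_div_iff₀ hσ]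
    linarith
  have e6 : 0 ≤ 4 * K / σ ^ 2 := by positivity
  have hB3 : 2 ≤ (1 / σ + 4 * K / σ ^ 2 + 2) - 1 / σ := by linarith
  have e8 : 2 * (1 + 1 / σ) * K ≤ 4 * K / σ := by
    have h1 : 4 * K / σ = 4 * K * (1 / σ) := by ring
    rw [h1]
    nlinarith
  have e9 : σ * (1 / σ) = 1 := by
    field_simp
  generalize (1 / σ + 4 * K / σ ^ 2 + 2 : ℝ) = B at *
  have hx1 := hp.lt_x
  have hx2 := hp.x_lt
  have hy1 := hp.lt_y
  have hy2 := hp.y_le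
  have hl := hp.lo_lt
  have hh := hp.lt_hi
  have hη2 : η ≤ 1 / 10 := by linarith
  have hD : 0 < B - 1 / σ + p.x := by linarith
  have hσX1 : σ * p.x ≤ 1 / 10 := by nlinarith
  have hσX2 : -(1 / 10) ≤ σ * p.x := by nlinarith
  have ht : ((mi (1 / σ) p).y - (1 - σ * B)) / ((mi (1 / σ) p).x - B) =
      (-p.y + σ * p.x) / (B - 1 / σ + p.x) - σ := by
    have hx : (mi (1 / σ) p).x - B = -(B - 1 / σ + p.x) := by
      simp only [mi]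
      ring
    have hy : (mi (1 / σ) p).y - (1 - σ * B) = -(1 - σ * B - p.y) := by
      simp only [mi]
      ring
    rw [hx, hy, neg_div_neg_eq, div_eq_iff hD.ne', sub_mul, div_mul_cancel₀ _ hD.ne']
    linear_combination -e9
  have hu : (-p.y + σ * p.x) / (B - 1 / σ + p.x) < 1 := by
    rw [div_lt_one hD]
    linarith
  have hlow : -σ < (-p.y + σ * p.x) / (B - 1 / σ + p.x) := by
    rw [lt_div_iff₀ hD]
    have e7 : -σ * (B - 1 / σ + p.x) = -(σ * B) + σ * (1 / σ) - σ * p.x := by ring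
    rw [e7, e1, e9]
    nlinarith
  have e10 : σ ≤ K * σ := by nlinarith
  refine ⟨?_, ?_, ?_, ?_, ?_⟩
  · simp only [mi]
    intro h
    linarith
  · rw [ht]
    linarith
  · rw [ht]
    linarith
  · rw [ht]
    simp only [mi]
    linarith
  · rw [ht]
    simp only [mi]
    linarith

end Pool.Agent.Lib.H32S
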