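import Pool.Agent.Lib.H32S.B1

set_option autoImplicit false

namespace Pool.Agent.Lib.H32S

/-- `mi (1/σ) p = (1/σ - X, Y)` with interval `(-p.hi, -p.lo)`, `up (-1) 0 1 q = (-1 + X', Y')` with
interval `(q.lo, q.hi)`.  The slope is `t = (Y' - Y)/(-1 + X' - 1/σ + X) = (Y - Y')/D`,
`D = 1 + 1/σ - X - X'`, `D ≥ 1 + 1/σ - 2 η > 0` (`η ≤ σ/10 ≤ 1/10`).  Put `Δ = 1 + 1/σ ≥ 2`.
Upper bound: `Y ≤ 2 Δ K`, `Y' > -η`, so `Y - Y' < 2 Δ K + η < 3 K (Δ - 2 η) ≤ 3 K D`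
(because `η (1 + 6 K) ≤ 0.7 K < K Δ`), so `t < 3 K`.
Lower bound: `Y - Y' > -η - 3 K > -3 K σ (Δ - 2 η) ≥ -3 K σ D` because
`3 K σ (Δ - 2 η) = 3 K (σ + 1) - 6 K σ η` and `η (1 + 6 K σ) ≤ (σ/10) (7 K) < 3 K σ`; so
`t > -3 K σ`.
Conclusions: `-p.hi < -3Kσ < t < 3K ≤ N' < -p.lo` and `q.lo < -N' ≤ -3K ≤ -3Kσ < t < 3K < q.hi`. -/
theorem s2_R_L (G σ K N' η : ℝ) (i j k : Fin 3) (v w : W) (p q : Q4) (hσ : 0 < σ) (hσ1 : σ ≤ 1)
    (hK : 1 ≤ K) (hN' : 3 * K ≤ N') (hη : 0 < η) (hη1 : η ≤ σ / 10)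
    (hp : C4 j i k (G * σ) σ (3 * K * σ) N' (2 * (1 + 1 / σ)) (2 * (1 + 1 / σ) * K) η v p)
    (hq : C4 i j k G 1 (3 * K) N' 3 (3 * K) η w q) :
    NA (mi (1 / σ) p) (up (-1) 0 1 q) := by
  obtain ⟨u, hu⟩ : ∃ u : ℝ, u = 1 / σ := ⟨_, rfl⟩
  have hσu : σ * u = 1 := by
    rw [hu]
    field_simp
  have hu1 : 1 ≤ u := by
    rw [hu, le_div_iff₀ hσ]
    linarith
  have p1 := hp.lo_lt
  have p2 := hp.lt_hi
  have p3 := hp.lt_x
  have p4 := hp.x_lt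
  have p5 := hp.lt_y
  have p6 := hp.y_le
  have q1 := hq.lo_lt
  have q2 := hq.lt_hi
  have q3 := hq.lt_x
  have q4 := hq.x_lt
  have q5 := hq.lt_y
  have q6 := hq.y_le
  rw [← hu] at p6 ⊢
  have hK0 : 0 < K := by linarith
  have hKσ : 0 < K * σ := mul_pos hK0 hσ
  have hηK : η * K ≤ σ / 10 * K := mul_le_mul_of_nonneg_right hη1 hK0.le
  have hD : 0 < 1 + u - p.x - q.x := by linarith
  have hD2 : 1 + u - 2 * η < 1 + u - p.x - q.x := by linarith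
  have hKD : K * (1 + u - 2 * η) < K * (1 + u - p.x - q.x) := mul_lt_mul_of_pos_left hD2 hK0
  have hKσD : K * σ * (1 + u - 2 * η) < K * σ * (1 + u - p.x - q.x) := mul_lt_mul_of_pos_left hD2 hKσ
  have hKu : K * 1 ≤ K * u := mul_le_mul_of_nonneg_left hu1 hK0.le
  have hKσ1 : K * σ ≤ K * 1 := mul_le_mul_of_nonneg_left hσ1 hK0.le
  have e1 : K * σ * (1 + u - 2 * η) = K * σ + K - 2 * (K * σ * η) := by
    have : K * σ * (1 + u - 2 * η) = K * σ + K * (σ * u) - 2 * (K * σ * η) := by ring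
    rw [this, hσu]
    ring
  have e2 : K * σ * η ≤ K * η := by
    have := mul_le_mul_of_nonneg_right hKσ1 hη.le
    linarith
  have hsl : sl (mi u p) (up (-1) 0 1 q) = (p.y - q.y) / (1 + u - p.x - q.x) := by
    show (0 + 1 * q.y - p.y) / (-1 + 1 * q.x - (u - p.x)) = _
    rw [← neg_div_neg_eq]
    congr 1 <;> ring
  have t1 : (p.y - q.y) / (1 + u - p.x - q.x) < 3 * K := by
    rw [div_lt_iff₀ hD]
    nlinarith
  have t2 : -(3 * K * σ) < (p.y - q.y) / (1 + u - p.x - q.x) := by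
    rw [lt_div_iff₀ hD]
    nlinarith
  refine ⟨?_, ⟨?_, ?_⟩, ?_, ?_⟩
  · show u - p.x ≠ -1 + 1 * q.x
    intro h
    linarith
  · rw [hsl]
    show -p.hi < _
    linarith
  · rw [hsl]
    show _ < -p.lo
    linarith
  · rw [hsl]
    show q.lo < _
    nlinarith
  · rw [hsl]
    show _ < q.hi
    linarith

end Pool.Agent.Lib.H32S
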