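import Pool.Agent.Lib.H32S.B1

set_option autoImplicit false

namespace Pool.Agent.Lib.H32S

/-- All fields immediate (`i ∈ []` is false). -/
theorem s2_u_C2 (G σ : ℝ) (i j k : Fin 3) (hσ : 0 < σ) (hG : 1 < G) :
    C2 i j k G (G * σ) (σ / 2) (1 / 2) [] ⟨0, 1, -σ, 1⟩ := by
  refine ⟨?_, ?_, ?_, ?_, ?_, ?_, ?_, ?_⟩
  · show -σ < -(σ / 2)
    linarith
  · show (1 / 2 : ℝ) < 1
    norm_num
  · intro _
    exact hG
  · intro h
    exact absurd h List.not_mem_nil
  · intro _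
    show -(G * σ) < -σ
    nlinarith
  · intro h
    exact absurd h List.not_mem_nil
  · intro _
    show (0 : ℝ) < 1
    norm_num
  · intro h
    exact absurd h List.not_mem_nil

/-- Fields one by one: the letters `i`, `k` are in `j :: w` iff they are in `w`; `j_in` is
`p.lo < -N' < -(G σ)`; the `y` coordinate is `0 + 1 * p.y`. -/
theorem s2_L_C2 (G σ K N' hL η : ℝ) (i j k : Fin 3) (hij : i ≠ j) (hik : i ≠ k) (hjk : j ≠ k)
    (w : W) (p : Q4) (hσ : 0 < σ) (hσ1 : σ ≤ 1) (hK : 1 ≤ K) (hN' : G + 2 ≤ N') (hG : 1 < G)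
    (hp : C4 i j k G 1 (3 * K) N' 3 hL η w p) :
    C2 i j k G (G * σ) (σ / 2) (1 / 2) (j :: w) (up (-1) 0 1 p) := by
  have h1 := hp.lo_lt
  have h2 := hp.lt_hi
  have hGσ : G * σ ≤ G := by nlinarith
  refine ⟨?_, ?_, ?_, ?_, ?_, ?_, ?_, ?_⟩
  · show p.lo < -(σ / 2)
    linarith
  · show 1 / 2 < p.hi
    linarith
  · intro h
    exact hp.i_out fun h3 => h (List.mem_cons_of_mem _ h3)
  · intro h
    exact hp.i_in ((List.mem_cons.1 h).resolve_left hij)
  · intro h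
    exact absurd List.mem_cons_self h
  · intro _
    show p.lo < -(G * σ)
    linarith
  · intro h
    show 0 < 0 + 1 * p.y
    have := hp.k_out fun h3 => h (List.mem_cons_of_mem _ h3)
    linarith
  · intro h
    show 0 + 1 * p.y < 0
    have := hp.k_in ((List.mem_cons.1 h).resolve_left (Ne.symm hjk))
    linarith

/-- The interval is `(-p.hi, -p.lo)`.  `i_in`: `G < N' < -p.lo`; `j_out`: `j ∉ i :: w` gives
`j ∉ w`, `p.hi < G σ`; etc. -/
theorem s2_R_C2 (G σ K N' H hR η : ℝ) (i j k : Fin 3) (hij : i ≠ j) (hik : i ≠ k) (hjk : j ≠ k)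
    (w : W) (p : Q4) (hσ : 0 < σ) (hσ1 : σ ≤ 1) (hK : 1 ≤ K) (hN' : G + 2 ≤ N') (hG : 1 < G)
    (hp : C4 j i k (G * σ) σ (3 * K * σ) N' H hR η w p) :
    C2 i j k G (G * σ) (σ / 2) (1 / 2) (i :: w) (mi (1 / σ) p) := by
  have h1 := hp.lo_lt
  have h2 := hp.lt_hi
  have hKσ : σ ≤ K * σ := by nlinarith
  refine ⟨?_, ?_, ?_, ?_, ?_, ?_, ?_, ?_⟩
  · show -p.hi < -(σ / 2)
    nlinarith
  · show 1 / 2 < -p.lo
    linarith
  · intro h
    exact absurd List.mem_cons_self h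
  · intro _
    show G < -p.lo
    linarith
  · intro h
    show -(G * σ) < -p.hi
    have := hp.i_out fun h3 => h (List.mem_cons_of_mem _ h3)
    linarith
  · intro h
    show -p.hi < -(G * σ)
    have := hp.i_in ((List.mem_cons.1 h).resolve_left (Ne.symm hij))
    linarith
  · intro h
    exact hp.k_out fun h3 => h (List.mem_cons_of_mem _ h3)
  · intro h
    exact hp.k_in ((List.mem_cons.1 h).resolve_left (Ne.symm hik))

end Pool.Agent.Lib.H32S
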