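import Pool.Agent.Lib.H32S.B1

set_option autoImplicit false

namespace Pool.Agent.Lib.H32S

/-- Write `X = p.x`, `Y = p.y`, `|X| < η ≤ 1/10`; the slope is `t = (Y - 1)/(X - 1)` (after
`simp [sl, up]`), `X - 1 < 0`.
`j ∉ w`: either `Y < X`, then `Y - 1 < X - 1 < 0`, so `t > 1` (`lt_div_iff_of_neg`); or `3 < Y`, then
`t < -σ` because `Y - 1 > 2 > σ (1 - X)`.  In both cases `Ou t ⟨0,1,-σ,1⟩`.
`j ∈ w`: `X < Y < η`: `0 < t < 1`, so `In t ⟨0,1,-σ,1⟩`; and `p.lo < -N' < 0 < t < 1 ≤ 3K < p.hi`. -/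
theorem s2_L_u (G σ K N' hL η : ℝ) (i j k : Fin 3) (w : W) (p : Q4) (hσ : 0 < σ) (hσ1 : σ ≤ 1)
    (hK : 1 ≤ K) (hN' : 2 ≤ N') (hη : 0 < η) (hη1 : η ≤ 1 / 10)
    (hp : C4 i j k G 1 (3 * K) N' 3 hL η w p) :
    (j ∉ w → AD ⟨0, 1, -σ, 1⟩ (up (-1) 0 1 p)) ∧
      (j ∈ w → NA ⟨0, 1, -σ, 1⟩ (up (-1) 0 1 p)) := by
  have hx1 := hp.lt_x
  have hx2 := hp.x_lt
  have hx3 : -1 + 1 * p.x - 0 < 0 := by linarith
  have hs : sl ⟨0, 1, -σ, 1⟩ (up (-1) 0 1 p) = (0 + 1 * p.y - 1) / (-1 + 1 * p.x - 0) := rfl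
  have hne : (0 : ℝ) ≠ -1 + 1 * p.x := by linarith
  constructor
  · intro hj
    refine ⟨hne, Or.inl ?_⟩
    rw [hs]
    rcases hp.j_out hj with h | h
    · right
      show 1 < _
      rw [lt_div_iff_of_neg hx3]
      linarith
    · left
      show _ < -σ
      rw [div_lt_iff_of_neg hx3]
      nlinarith
  · intro hj
    obtain ⟨h1, h2⟩ := hp.j_in hj
    have h3 : 0 < (0 + 1 * p.y - 1) / (-1 + 1 * p.x - 0) := by
      rw [lt_div_iff_of_neg hx3]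
      linarith
    have h4 : (0 + 1 * p.y - 1) / (-1 + 1 * p.x - 0) < 1 := by
      rw [div_lt_iff_of_neg hx3]
      linarith
    refine ⟨hne, ⟨?_, ?_⟩, ⟨?_, ?_⟩⟩
    · rw [hs]
      show -σ < _
      linarith
    · rw [hs]
      exact h4
    · rw [hs]
      show p.lo < _
      have := hp.lo_lt
      linarith
    · rw [hs]
      show _ < p.hi
      have := hp.lt_hi
      linarith

/-- Write `X = p.x`, `Y = p.y`, `|X| < η ≤ σ/10 ≤ 1/10`; the slope is `t = (Y - 1)/(1/σ - X)`, with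
`1/σ - X > 0`.  Set `D = 1/σ - X`; note `σ D = 1 - σ X`, `0 < D`.
`i ∉ w`: either `Y < σ X`, then `Y - 1 < -(1 - σ X) = -σ D`, so `t < -σ`; or `2 (1 + 1/σ) < Y`, then
`Y - 1 > 1 + 2/σ > 1/σ - X`, so `t > 1`.  In both cases `Ou t ⟨0,1,-σ,1⟩`.
`i ∈ w`: `σ X < Y < η`: `Y - 1 > -σ D`, `Y - 1 < 0`: `-σ < t < 0`: `In t ⟨0,1,-σ,1⟩`; the interval of
`mi (1/σ) p` is `(-p.hi, -p.lo)` with `p.hi > 3 K σ ≥ σ` and `p.lo < -N' < 0`. -/
theorem s2_R_u (G σ K N' hR η : ℝ) (i j k : Fin 3) (w : W) (p : Q4) (hσ : 0 < σ) (hσ1 : σ ≤ 1)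
    (hK : 1 ≤ K) (hN' : 2 ≤ N') (hη : 0 < η) (hη1 : η ≤ σ / 10)
    (hp : C4 j i k (G * σ) σ (3 * K * σ) N' (2 * (1 + 1 / σ)) hR η w p) :
    (i ∉ w → AD ⟨0, 1, -σ, 1⟩ (mi (1 / σ) p)) ∧
      (i ∈ w → NA ⟨0, 1, -σ, 1⟩ (mi (1 / σ) p)) := by
  have hx1 := hp.lt_x
  have hx2 := hp.x_lt
  have h1σ : 1 ≤ 1 / σ := by
    rw [le_div_iff₀ hσ]
    linarith
  have hσσ : σ * (1 / σ) = 1 := by field_simp
  have hx3 : 0 < 1 / σ - p.x - 0 := by linarith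
  have hs : sl ⟨0, 1, -σ, 1⟩ (mi (1 / σ) p) = (p.y - 1) / (1 / σ - p.x - 0) := rfl
  have hne : (0 : ℝ) ≠ 1 / σ - p.x := by linarith
  constructor
  · intro hj
    refine ⟨hne, Or.inl ?_⟩
    rw [hs]
    rcases hp.j_out hj with h | h
    · left
      show _ < -σ
      rw [div_lt_iff₀ hx3]
      nlinarith
    · right
      show 1 < _
      rw [lt_div_iff₀ hx3]
      linarith
  · intro hj
    obtain ⟨h1, h2⟩ := hp.j_in hj
    have h3 : -σ < (p.y - 1) / (1 / σ - p.x - 0) := by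
      rw [lt_div_iff₀ hx3]
      nlinarith
    have h4 : (p.y - 1) / (1 / σ - p.x - 0) < 0 := by
      rw [div_lt_iff₀ hx3]
      linarith
    refine ⟨hne, ⟨?_, ?_⟩, ⟨?_, ?_⟩⟩
    · rw [hs]
      exact h3
    · rw [hs]
      show _ < 1
      linarith
    · rw [hs]
      show -p.hi < _
      have := hp.lt_hi
      nlinarith
    · rw [hs]
      show _ < -p.lo
      have := hp.lo_lt
      linarith

end Pool.Agent.Lib.H32S
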