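import Pool.Agent.Lib.H32S.B2
import Pool.Agent.Lib.H32S.B3B
import Pool.Agent.Lib.H32S.B9
import Pool.Agent.Lib.H32S.S2U
import Pool.Agent.Lib.H32S.S2LR
import Pool.Agent.Lib.H32S.S2F
import Pool.Agent.Lib.H32S.S2C
import Pool.Agent.Lib.H32S.S2S

set_option autoImplicit false

open Filter Topology

namespace Pool.Agent.Lib.H32S

/-- Put `η = σ/10`, `N' = 3 K4 + G + 2`, `b = 1/σ + 4 K4/σ^2 + 2`.
`L` from `hT4 i j k` with `S = G`, `τ = 1`, `N = 3 K4`, `N'`, `H = 3`, `hm = 3 K4`, `η`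
(`K4 * (3 K4) ≤ G`, `K4 * 3 ≤ 3 K4`).
`R` from `hT4 j i k` with `S = G σ`, `τ = σ`, `N = 3 K4 σ`, `N'`, `H = 2 (1 + 1/σ)`,
`hm = 2 (1 + 1/σ) K4`, `η` (`K4 * (3 K4 σ) ≤ G σ`).
`F` from `hT2 j i k` with `S = (G - 1) σ`, `Q = G + σ`.
Choose `ε > 0` (`ev_ex`, `ev_all`) such that `s2_F_u`, `s2_F_C2` hold for all words of length `< d`
and (`ev_dn_Sdn` with `s2_L_F`, `s2_R_F`; `ev_all2`) all `dn b (1 - σ b) (-σ) ε (F v)` are `NA` to all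
`up (-1) 0 1 (L w)` and `mi (1/σ) (R w)`.
`P = join i j ⟨0,1,-σ,1⟩ (fun w => mi (1/σ) (R w)) (fun w => up (-1) 0 1 (L w))
(fun w => dn b (1 - σ b) (-σ) ε (F w))`: `rep_join` (with `mi_Rep`, `up_Rep`, `dn_Rep`, `s2_R_u`,
`s2_L_u`, `s2_R_L`) and `join_side` (with `s2_u_C2`, `s2_R_C2`, `s2_L_C2`, `s2_F_C2`). -/
theorem s2_norm (d : ℕ) (K2 K4 : ℝ) (h1 : 1 ≤ K2) (h2 : 1 ≤ K4) (hT2 : T2 d K2) (hT4 : T4 d K4)
    (G : ℝ) (hG : 3 * K4 ^ 2 + 2 * K2 + 2 ≤ G) (σ : ℝ) (hσ : 0 < σ) (hσ1 : σ ≤ 1)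
    (i j k : Fin 3) (hij : i ≠ j) (hik : i ≠ k) (hjk : j ≠ k) :
    ∃ P : W → Q4, Rep (d + 1) P ∧
      ∀ v : W, v.length < d + 1 → C2 i j k G (G * σ) (σ / 2) (1 / 2) v (P v) := by
  have e1 := s2f_B σ K4 hσ
  have e2 := s2f_K σ K4 hσ hσ1 h2
  have hK44 : 0 ≤ K4 ^ 2 := sq_nonneg _
  have hG' : 2 * K2 + 2 ≤ G := by linarith
  have hG1 : 1 < G := by linarith
  have hN1 : G + 2 ≤ 3 * K4 + G + 2 := by linarith
  have hN2 : 2 ≤ 3 * K4 + G + 2 := by linarith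
  have hN3 : 3 * K4 ≤ 3 * K4 + G + 2 := by linarith
  have hσi : 0 < 1 / σ := by positivity
  have hb : 0 < 1 / σ + 4 * K4 / σ ^ 2 + 2 := by positivity
  have hb' : 1 - σ * (1 / σ + 4 * K4 / σ ^ 2 + 2) < 0 := by
    rw [e1]
    linarith
  have hη : 0 < σ / 10 := by positivity
  have hη1 : σ / 10 ≤ 1 / 10 := by linarith
  obtain ⟨L, hLR, hL⟩ := hT4 i j k hij hik hjk G 1 (3 * K4) (3 * K4 + G + 2) 3 (3 * K4) (σ / 10)
    one_pos (by linarith) (by linarith) (by norm_num) hη (by nlinarith) (by linarith)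
  obtain ⟨R, hRR, hR⟩ := hT4 j i k hij.symm hjk hik (G * σ) σ (3 * K4 * σ) (3 * K4 + G + 2)
    (2 * (1 + 1 / σ)) (2 * (1 + 1 / σ) * K4) (σ / 10)
    hσ (by nlinarith) (by linarith) (by positivity) hη
    (by
      have h3 : K4 * (3 * K4) ≤ G := by nlinarith
      calc K4 * (3 * K4 * σ) = K4 * (3 * K4) * σ := by ring
        _ ≤ G * σ := mul_le_mul_of_nonneg_right h3 hσ.le)
    (le_of_eq (by ring))
  obtain ⟨F, hFR, hF⟩ := hT2 j i k hij.symm hjk hik ((G - 1) * σ) (G + σ)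
    (mul_pos (by linarith) hσ) (by linarith)
  have ev1 := ev_all d (fun w hw => s2_F_u G σ K2 (1 / σ + 4 * K4 / σ ^ 2 + 2) i j k w (F w)
    hσ hσ1 h1 hG' hb (hF w hw))
  have ev2 := ev_all d (fun w hw => s2_F_C2 G σ K2 (1 / σ + 4 * K4 / σ ^ 2 + 2) i j k hij hik hjk
    w (F w) hσ hσ1 h1 hG' hb' (hF w hw))
  have ev3 := ev_all2 d (fun v w hv hw => ev_dn_Sdn (1 / σ + 4 * K4 / σ ^ 2 + 2)
    (1 - σ * (1 / σ + 4 * K4 / σ ^ 2 + 2)) (-σ) ((G + σ) / K2) ((G - 1) * σ / K2) (F v)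
    (up (-1) 0 1 (L w))
    (s2_L_F G σ K4 K2 (3 * K4 + G + 2) (σ / 10) i j k w (L w) hσ hσ1 h2 h1 hG' hN2 hη le_rfl
      (hL w hw)) (hF v hv).lo_lt (hF v hv).lt_hi)
  have ev4 := ev_all2 d (fun v w hv hw => ev_dn_Sdn (1 / σ + 4 * K4 / σ ^ 2 + 2)
    (1 - σ * (1 / σ + 4 * K4 / σ ^ 2 + 2)) (-σ) ((G + σ) / K2) ((G - 1) * σ / K2) (F v)
    (mi (1 / σ) (R w))
    (s2_R_F G σ K4 K2 (3 * K4 + G + 2) (σ / 10) i j k w (R w) hσ hσ1 h2 h1 hG' hN2 hη le_rfl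
      (hR w hw)) (hF v hv).lo_lt (hF v hv).lt_hi)
  obtain ⟨ε, hε, h3, h4, h5, h6⟩ := ev_ex (ev1.and (ev2.and (ev3.and ev4)))
  refine ⟨join i j ⟨0, 1, -σ, 1⟩ (fun w => mi (1 / σ) (R w)) (fun w => up (-1) 0 1 (L w))
    (fun w => dn (1 / σ + 4 * K4 / σ ^ 2 + 2) (1 - σ * (1 / σ + 4 * K4 / σ ^ 2 + 2)) (-σ) ε (F w)),
    ?_, ?_⟩
  · refine rep_join d i j k hij hik hjk ⟨0, 1, -σ, 1⟩ _ _ _ (mi_Rep d (1 / σ) hRR)
      (up_Rep d (-1) 0 1 one_pos hLR) (dn_Rep d _ _ (-σ) ε hε hFR) ?_ ?_ ?_ ?_ ?_ ?_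
    · intro w hw
      exact s2_R_u G σ K4 (3 * K4 + G + 2) _ (σ / 10) i j k w (R w) hσ hσ1 h2 hN2 hη le_rfl
        (hR w hw)
    · intro w hw
      exact s2_L_u G σ K4 (3 * K4 + G + 2) _ (σ / 10) i j k w (L w) hσ hσ1 h2 hN2 hη hη1
        (hL w hw)
    · intro w hw
      exact h3 w hw
    · intro v w hv hw
      exact s2_R_L G σ K4 (3 * K4 + G + 2) (σ / 10) i j k v w (R v) (L w) hσ hσ1 h2 hN3 hη le_rfl
        (hR v hv) (hL w hw)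
    · intro v w hv hw
      exact NA_symm (h6 w v hw hv)
    · intro v w hv hw
      exact NA_symm (h5 w v hw hv)
  · refine join_side d i j k hij hik hjk ⟨0, 1, -σ, 1⟩ _ _ _
      (fun v p => C2 i j k G (G * σ) (σ / 2) (1 / 2) v p) (s2_u_C2 G σ i j k hσ hG1) ?_ ?_ ?_
    · intro w hw
      exact s2_R_C2 G σ K4 (3 * K4 + G + 2) _ _ (σ / 10) i j k hij hik hjk w (R w) hσ hσ1 h2 hN1
        hG1 (hR w hw)
    · intro w hw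
      exact s2_L_C2 G σ K4 (3 * K4 + G + 2) _ (σ / 10) i j k hij hik hjk w (L w) hσ hσ1 h2 hN1
        hG1 (hL w hw)
    · intro w hw
      exact h4 w hw

end Pool.Agent.Lib.H32S
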