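import Pool.Agent.Lib.H32S.S2

set_option autoImplicit false

namespace Pool.Agent.Lib.H32S

theorem s2w_case (d : ℕ) (K2 K4 : ℝ) (h1 : 1 ≤ K2) (h2 : 1 ≤ K4) (hT2 : T2 d K2) (hT4 : T4 d K4)
    (i j k : Fin 3) (hij : i ≠ j) (hik : i ≠ k) (hjk : j ≠ k) (S Q : ℝ) (hS : 0 < S) (hQ : 0 < Q) (hQS : Q ≤ S) :
    ∃ P : W → Q4, Rep (d + 1) P ∧ ∀ v : W, v.length < d + 1 →
      C2 i j k S Q (Q / (2 * (3 * K4 ^ 2 + 2 * K2 + 2))) (S / (2 * (3 * K4 ^ 2 + 2 * K2 + 2))) v (P v) := by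
  set G : ℝ := 3 * K4 ^ 2 + 2 * K2 + 2 with hG
  have hG0 : 0 < G := by positivity
  obtain ⟨P, hP, hC⟩ := s2_norm d K2 K4 h1 h2 hT2 hT4 G le_rfl (Q / S) (by positivity) ((div_le_one hS).2 hQS) i j k hij
    hik hjk
  have hc : 0 < S / G := by positivity
  refine ⟨fun w => sc (S / G) (P w), sc_Rep (d + 1) (S / G) hc hP, fun v hv => ?_⟩
  have h3 := sc_C2 i j k G (G * (Q / S)) (Q / S / 2) (1 / 2) (S / G) hc v (P v) (hC v hv)
  have e1 : S / G * G = S := by field_simp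
  have e2 : S / G * (G * (Q / S)) = Q := by field_simp
  have e3 : S / G * (Q / S / 2) = Q / (2 * G) := by field_simp
  have e4 : S / G * (1 / 2) = S / (2 * G) := by field_simp
  rw [e1, e2, e3, e4] at h3
  exact h3

/-- Let `G = 3 K4^2 + 2 K2 + 2`, given `S, Q > 0`.  Case `Q ≤ S`: `s2_norm` with `σ = Q/S`, then
`sc (S/G)` of the placement (`sc_Rep`, `sc_C2` with `c = S/G`): `c G = S`, `c G σ = Q`,
`c σ/2 = Q/(2G)`, `c/2 = S/(2G)`.  Case `S < Q`: the first case for `j i k`, `Q`, `S` and `mi 0`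
(`mi_Rep`, `mi_C2`). -/
theorem T2_succ (d : ℕ) (K2 K4 : ℝ) (h1 : 1 ≤ K2) (h2 : 1 ≤ K4) (hT2 : T2 d K2) (hT4 : T4 d K4) :
    T2 (d + 1) (2 * (3 * K4 ^ 2 + 2 * K2 + 2)) := by
  intro i j k hij hik hjk S Q hS hQ
  rcases le_total Q S with h | h
  · exact s2w_case d K2 K4 h1 h2 hT2 hT4 i j k hij hik hjk S Q hS hQ h
  · obtain ⟨P, hP, hC⟩ := s2w_case d K2 K4 h1 h2 hT2 hT4 j i k hij.symm hjk hik Q S hQ hS h
    exact ⟨fun w => mi 0 (P w), mi_Rep (d + 1) 0 hP, fun v hv => mi_C2 i j k S Q _ _ v (P v) (hC v hv)⟩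

end Pool.Agent.Lib.H32S
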