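import Pool.Agent.Lib.H32S.All
import Pool.Agent.Lib.H32S.F1
import Pool.Agent.Lib.H32S.F2
import Pool.Agent.Lib.H32S.E3

set_option autoImplicit false

namespace Pool.Agent.Lib.H32S

/-- The complement of every induced subgraph of a stacked triangulation is a segment graph. -/
theorem main {V : Type} {n : ℕ} (G : SimpleGraph (Fin n)) (hG : IsStacked G)
    (H : SimpleGraph V) (f : H ↪g G) :
    ∃ s : V → (ℝ × ℝ) × (ℝ × ℝ), (∀ v, (s v).1 ≠ (s v).2) ∧
      ∀ u v, u ≠ v → (Hᶜ.Adj u v ↔
        (segment ℝ (s u).1 (s u).2 ∩ segment ℝ (s v).1 (s v).2).Nonempty) := by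
  classical
  obtain ⟨φ, hφ⟩ := exists_code G hG
  have hinj := code_injective G hG φ hφ
  -- a bound for the depths
  obtain ⟨d, hd⟩ : ∃ d : ℕ, ∀ v, Dom d (rv (φ v)) := by
    let L : Fin 3 ⊕ W → ℕ := fun a => match a with
      | .inl _ => 0
      | .inr w => w.length
    refine ⟨(Finset.univ.sup fun v => L (φ v)) + 1, fun v => ?_⟩
    have h1 : L (φ v) ≤ Finset.univ.sup fun v => L (φ v) :=
      Finset.le_sup (f := fun v => L (φ v)) (Finset.mem_univ v)
    cases h : φ v with
    | inl a => simp [rv, Dom]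
    | inr w =>
      simp only [rv, Dom, List.length_reverse]
      have h2 : L (φ v) = w.length := by rw [h]
      omega
  obtain ⟨K2, K3, K4, h2, -, -, H2, -, -⟩ := all_T d
  obtain ⟨R, hR1, hR2⟩ := final_rep d K2 h2 H2
  have rvinj : Function.Injective rv := by
    intro a b hab
    cases a <;> cases b <;> simp_all [rv]
  refine seg_of_rep H (fun v => R (rv (φ (f v)))) (fun v => hR1 _ (hd _)) ?_
  intro u v huv
  have hne : rv (φ (f u)) ≠ rv (φ (f v)) := fun h => huv (f.injective (hinj (rvinj h)))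
  have hadj : H.Adj u v ↔ BA (rv (φ (f u))) (rv (φ (f v))) := by
    rw [← code_adj G hG φ hφ (f u) (f v) (fun h => huv (f.injective h))]
    exact (f.map_rel_iff).symm
  have := hR2 _ _ (hd (f u)) (hd (f v)) hne
  rw [hadj]
  exact this

end Pool.Agent.Lib.H32S
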